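import Mathlib

/-!
MP_1b8d5d_pr, Track P, section 6 (inner edge, row 646 section 3): the end of the proof, supporting lines of a convex function on
the integers. (helper17)
-/

namespace Pool.Agent.W_1b8d5d_h17p

section conv

variable {f : ℤ → ℝ} (hf : ∀ y, 2 * f y ≤ f (y - 1) + f (y + 1))

include hf

theorem dmono17 (y : ℤ) (k : ℕ) : f (y + 1) - f y ≤ f (y + k + 1) - f (y + k) := by
  induction k with
  | zero => simp
  | succ k ih =>
    have h := hf (y + k + 1)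
    rw [add_sub_cancel_right] at h
    have e1 : y + ((k + 1 : ℕ) : ℤ) = y + k + 1 := by push_cast; ring
    rw [e1]
    linarith

/-- The supporting line of slope `f (i + 1) - f i` at `i`. -/
theorem supp17 (i y : ℤ) : f i + (f (i + 1) - f i) * ((y : ℝ) - i) ≤ f y := by
  rcases le_total i y with h | h
  · obtain ⟨n, rfl⟩ : ∃ n : ℕ, y = i + n := ⟨(y - i).toNat, by omega⟩
    push_cast
    rw [add_sub_cancel_left]
    induction n with
    | zero => simp
    | succ n ih =>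
      have h1 := dmono17 hf i n
      have h2 := ih (by omega)
      have e1 : i + ((n + 1 : ℕ) : ℤ) = i + n + 1 := by push_cast; ring
      rw [e1]
      push_cast
      nlinarith
  · obtain ⟨n, rfl⟩ : ∃ n : ℕ, y = i - n := ⟨(i - y).toNat, by omega⟩
    push_cast
    have e0 : (i : ℝ) - n - i = -n := by ring
    rw [e0]
    induction n with
    | zero => simp
    | succ n ih =>
      have h2 := ih (by omega)
      have h1 := dmono17 hf (i - ((n + 1 : ℕ) : ℤ)) (n + 1)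
      have e1 : i - ((n + 1 : ℕ) : ℤ) + 1 = i - n := by push_cast; ring
      have e2 : i - ((n + 1 : ℕ) : ℤ) + ((n + 1 : ℕ) : ℤ) = i := by ring
      rw [e1, e2] at h1
      push_cast at h1 ⊢
      have h3 := h2 (by ring)
      nlinarith

theorem sum_right17 {n : ℕ} (dd : ℕ → ℤ) {i : ℤ} (h : f i ≤ f (i + 1)) (hs : n * i ≤ ∑ j ∈ Finset.range n, dd j) :
    n * f i ≤ ∑ j ∈ Finset.range n, f (dd j) := by
  have h1 : ∑ j ∈ Finset.range n, (f i + (f (i + 1) - f i) * ((dd j : ℝ) - i)) ≤ ∑ j ∈ Finset.range n, f (dd j) :=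
    Finset.sum_le_sum fun j _ => supp17 hf i (dd j)
  rw [Finset.sum_add_distrib, ← Finset.mul_sum, Finset.sum_sub_distrib] at h1
  simp only [Finset.sum_const, Finset.card_range, nsmul_eq_mul] at h1
  have h2 : (n : ℝ) * i ≤ ∑ j ∈ Finset.range n, (dd j : ℝ) := by exact_mod_cast hs
  have h3 : 0 ≤ (f (i + 1) - f i) * (∑ j ∈ Finset.range n, (dd j : ℝ) - n * i) := mul_nonneg (by linarith) (by linarith)
  linarith

theorem sum_left17 {n : ℕ} (dd : ℕ → ℤ) {i : ℤ} (h : f i ≤ f (i - 1)) (hs : ∑ j ∈ Finset.range n, dd j ≤ n * i) :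
    n * f i ≤ ∑ j ∈ Finset.range n, f (dd j) := by
  have hg : ∀ y, 2 * (fun y => f (-y)) y ≤ (fun y => f (-y)) (y - 1) + (fun y => f (-y)) (y + 1) := by
    intro y
    change 2 * f (-y) ≤ f (-(y - 1)) + f (-(y + 1))
    have := hf (-y)
    rw [show -(y - 1) = -y + 1 by ring, show -(y + 1) = -y - 1 by ring]
    linarith
  have h1 := sum_right17 hg (n := n) (fun j => -dd j) (i := -i) (by
    rw [neg_neg, show -(-i + 1) = i - 1 by ring]
    exact h) (by
    rw [Finset.sum_neg_distrib]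
    linarith)
  simpa using h1

/-- **THE THREE CASES.** -/
theorem end17 {n : ℕ} (dd : ℕ → ℤ) {x i₁ i₂ : ℤ} (hx : ∀ y, f x ≤ f y) (h1 : n * i₁ ≤ ∑ j ∈ Finset.range n, dd j)
    (h2 : ∑ j ∈ Finset.range n, dd j ≤ n * i₂) (hi : i₁ ≤ i₂) :
    ∃ i, i₁ ≤ i ∧ i ≤ i₂ ∧ (n * f i ≤ ∑ j ∈ Finset.range n, f (dd j) ∨ f i = f x) := by
  by_cases c1 : f i₁ ≤ f (i₁ + 1)
  · exact ⟨i₁, le_rfl, hi, Or.inl (sum_right17 hf dd c1 h1)⟩
  by_cases c2 : f i₂ ≤ f (i₂ - 1)
  · exact ⟨i₂, hi, le_rfl, Or.inl (sum_left17 hf dd c2 h2)⟩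
  push Not at c1 c2
  refine ⟨x, ?_, ?_, Or.inr rfl⟩
  · by_contra hcon
    push Not at hcon
    have h3 := supp17 hf i₁ x
    have h4 : (x : ℝ) - i₁ ≤ 0 := by
      have : (x : ℝ) ≤ i₁ := by exact_mod_cast hcon.le
      linarith
    have h5 : 0 ≤ (f (i₁ + 1) - f i₁) * ((x : ℝ) - i₁) := mul_nonneg_of_nonpos_of_nonpos (by linarith) h4
    have h6 := hx (i₁ + 1)
    linarith
  · by_contra hcon
    push Not at hcon
    have h3 := supp17 hf (i₂ - 1) x
    rw [sub_add_cancel] at h3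
    have h4 : (0 : ℝ) ≤ (x : ℝ) - (i₂ - 1 : ℤ) := by
      have : ((i₂ - 1 : ℤ) : ℝ) ≤ x := by exact_mod_cast (by omega : i₂ - 1 ≤ x)
      linarith
    have h4' : (0 : ℝ) < (x : ℝ) - (i₂ - 1 : ℤ) := by
      have : ((i₂ - 1 : ℤ) : ℝ) < x := by exact_mod_cast (by omega : i₂ - 1 < x)
      linarith
    have h5 : 0 < (f i₂ - f (i₂ - 1)) * ((x : ℝ) - (i₂ - 1 : ℤ)) := mul_pos (by linarith) h4'
    have h6 := hx (i₂ - 1)
    linarith

end conv

/-- Truncated costs: no piece is truncated. -/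
theorem sum_min17 {n : ℕ} (g : ℕ → ℝ) {B S : ℝ} (h0 : ∀ j ∈ Finset.range n, 0 ≤ g j) (hB : S < B) (hB0 : 0 ≤ B)
    (h : ∑ j ∈ Finset.range n, min (g j) B ≤ S) : ∑ j ∈ Finset.range n, g j ≤ S := by
  have h1 : ∀ j ∈ Finset.range n, min (g j) B = g j := by
    intro j hj
    have h2 : min (g j) B ≤ ∑ j ∈ Finset.range n, min (g j) B :=
      Finset.single_le_sum (f := fun j => min (g j) B) (fun i hi => le_min (h0 i hi) hB0) hj
    have h3 : min (g j) B < B := h2.trans_lt (h.trans_lt hB)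
    rcases min_choice (g j) B with h4 | h4
    · exact h4
    · rw [h4] at h3
      exact absurd h3 (lt_irrefl _)
  rwa [Finset.sum_congr rfl h1] at h

/-- **THE END OF THE INNER EDGE**: `n` pieces with truncated mean costs. -/
theorem endM17 {f : ℤ → ℝ} (hf : ∀ y, 2 * f y ≤ f (y - 1) + f (y + 1)) (h0 : ∀ y, 0 ≤ f y) {n : ℕ} (hn : 1 ≤ n)
    (dd : ℕ → ℤ) {x i₁ i₂ : ℤ} (hx : ∀ y, f x ≤ f y) {B S : ℝ} (hB : S < B) (hB0 : 0 ≤ B)
    (h : ∑ j ∈ Finset.range n, min (f (dd j)) B ≤ S) (h1 : n * i₁ ≤ ∑ j ∈ Finset.range n, dd j)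
    (h2 : ∑ j ∈ Finset.range n, dd j ≤ n * i₂) : ∃ i, i₁ ≤ i ∧ i ≤ i₂ ∧ f i ≤ max (f x) (S / n) := by
  have hn' : (0 : ℝ) < n := by exact_mod_cast hn
  have hi : i₁ ≤ i₂ := by
    by_contra hcon
    push Not at hcon
    have h3 : (n : ℤ) * i₂ < n * i₁ := mul_lt_mul_of_pos_left hcon (by omega)
    omega
  have hS := sum_min17 (fun j => f (dd j)) (fun j _ => h0 _) hB hB0 h
  obtain ⟨i, a1, a2, a3⟩ := end17 hf dd hx h1 h2 hi
  refine ⟨i, a1, a2, ?_⟩
  rcases a3 with a3 | a3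
  · refine le_max_of_le_right ?_
    rw [le_div_iff₀ hn']
    linarith
  · exact le_max_of_le_left a3.le

end Pool.Agent.W_1b8d5d_h17p
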