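import Pool.Agent.W_1b8d5d_h17p.HookP17
import Pool.Agent.W_1b8d5d_p.Cross
import Pool.Agent.W_1b8d5d_p.FrX

/-!
MP_1b8d5d_pr, Track P, section 6. `K + 1` junctions at once, exchange with references. (helper17)
-/

namespace Pool.Agent.W_1b8d5d_h17p

open MeasureTheory Set Pool.Agent.W_1b8d5d_h85 Pool.Agent.W_1b8d5d_p Pool.Agent.W_1b8d5d_p66

variable {c : Co} {a b : ℝ} {τ : Env}

/-- A slab passage time between grid points. -/
theorem TR_slab_eq (c : Co) (τ : Env) {s t : ℤ} {n : ℕ} (hn : s + n = t) (z z' : ℤ) :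
    TR (c.slab s t) τ (c.vt (s, z)) (c.vt (t, z')) = TT c τ (s, z) n (z' - z) := by
  subst hn
  unfold TT
  have e2 : ((s, z) : Pt) + ((n : ℤ), z' - z) = (s + n, z') := by
    ext <;> simp only [Prod.fst_add, Prod.snd_add] <;> omega
  rw [e2]

/-- The value of a piece from position `z` at the time `t` to the position `z'`, `n` blocks later: the passage time, or (if
`o = some k`: a return to the position `k` after the visit of the time `t + R`) the price of the return and the passage time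
from `k`. -/
noncomputable def PT (c : Co) (a : ℝ) (τ : Env) (o : Option ℤ) (t : ℤ) (R : ℕ) (z : ℤ) (n : ℕ) (z' : ℤ) : ℝ :=
  match o with
  | none => TT c τ (t, z) n (z' - z)
  | some k => max (a * (c.M * |(k : ℝ) - z|)) (a * (2 * R)) + TT c τ (t, k) n (z' - k)

/-- The same for the excess. -/
noncomputable def PX (F : Fm) (κ : ℝ) (d : Dr) (η : Env) (o : Option ℤ) (t : ℤ) (R : ℕ) (z : ℤ) (n : ℕ) (z' : ℤ) : ℝ :=
  match o with
  | none => X F d η (t, z) n (z' - z)
  | some k => κ * R + κ / 2 * (F.co.M * |(k : ℝ) - z|) + X F d η (t, k) n (z' - k)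

theorem PX_le_PT {F : Fm} {κ : ℝ} {d : Dr} (hd : Adm F κ d) (η : Env) (o : Option ℤ) (t : ℤ) (R : ℕ) (z : ℤ) (n : ℕ)
    (z' : ℤ) : PX F κ d η o t R z n z' ≤ PT F.co F.a (F.tau η) o t R z n z' - (al F.co d * n + be F.co d * (z' - z)) := by
  rcases o with _ | k
  · simp only [PX, PT]
    unfold X
    push_cast
    exact le_rfl
  · simp only [PX, PT]
    have hκ := hd.κ0
    have hκa := hd.κ_lt
    have ha := F.a0
    have hM : (1 : ℝ) ≤ F.co.M := by exact_mod_cast F.co.M_pos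
    have h2 := mul_le_mul_of_nonneg_right hd.loop (abs_nonneg ((k : ℝ) - z))
    have h3 : be F.co d * ((k : ℝ) - z) ≤ |be F.co d| * |(k : ℝ) - z| := by
      rw [← abs_mul]
      exact le_abs_self _
    obtain ⟨m, hm⟩ : ∃ m, m = max (F.a * (F.co.M * |(k : ℝ) - z|)) (F.a * (2 * R)) := ⟨_, rfl⟩
    have m1 : F.a * (F.co.M * |(k : ℝ) - z|) ≤ m := hm ▸ le_max_left _ _
    have m2 : F.a * (2 * R) ≤ m := hm ▸ le_max_right _ _
    rw [← hm]
    obtain ⟨l, hl⟩ : ∃ l, l = κ / (2 * F.a) := ⟨_, rfl⟩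
    have hl0 : 0 < l := by rw [hl]; positivity
    have hla : l * F.a = κ / 2 := by rw [hl]; field_simp
    have hl1 : l ≤ 1 := by
      rw [hl, div_le_one (by positivity)]
      linarith
    have h4 : l * (F.a * (2 * R)) + (1 - l) * (F.a * (F.co.M * |(k : ℝ) - z|)) ≤ m := by
      have h5 := mul_le_mul_of_nonneg_left m2 hl0.le
      have h6 := mul_le_mul_of_nonneg_left m1 (sub_nonneg.2 hl1)
      nlinarith
    have h5 : l * (F.a * (2 * R)) = κ * R := by
      rw [← mul_assoc, hla]; ring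
    have h6 : (1 - l) * (F.a * (F.co.M * |(k : ℝ) - z|)) = (F.a - κ / 2) * (F.co.M * |(k : ℝ) - z|) := by
      rw [← hla]; ring
    rw [h5, h6] at h4
    unfold X
    push_cast
    nlinarith

/-- THE SWAP at a junction. -/
theorem swap17 (ha : 0 < a) (hτ : Bd a b τ) (t : ℤ) {R : ℕ} (hR : 1 ≤ R) {z u z' v : ℤ}
    (h : (z ≤ u ∧ v ≤ z') ∨ (u ≤ z ∧ z' ≤ v)) :
    TT c τ (t, u) R (z' - u) + TT c τ (t, z) R (v - z) ≤ TT c τ (t, u) R (v - u) + TT c τ (t, z) R (z' - z) := by
  have key : ∀ {p q p' q' : ℤ}, p ≤ q → q' ≤ p' →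
      TT c τ (t, p) R (q' - p) + TT c τ (t, q) R (p' - q) ≤ TT c τ (t, p) R (p' - p) + TT c τ (t, q) R (q' - q) := by
    intro p q p' q' h1 h2
    have h3 := TT_cross (c := c) hτ ha (t, p) hR (k := q - p) (y := p' - p) (y' := q' - p) (by omega) (by omega)
    have e : ((t, p) : Pt) + (0, q - p) = (t, q) := by ext <;> simp
    rw [e, show p' - p - (q - p) = p' - q by ring, show q' - p - (q - p) = q' - q by ring] at h3
    exact h3
  rcases h with ⟨h1, h2⟩ | ⟨h1, h2⟩
  · have := key h1 h2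
    linarith
  · have := key h1 h2
    linarith

/-- `K + 1` JUNCTIONS AT ONCE. -/
theorem hookT (ha : 0 < a) (hab : a ≤ b) (hτ : Bd a b τ) (K : ℕ) (t : ℕ → ℤ) (R : ℕ → ℕ) (A : Pt) (N : ℕ) (y : ℤ)
    (w : grid.Walk (c.vt A) (c.vt (A + ((N : ℤ), y)))) (hw : ∀ e ∈ wedges w, e ∈ c.slab A.1 (A.1 + N))
    (h0 : A.1 < t 0) (hR : ∀ j ≤ K, 1 ≤ R j) (ht : ∀ j < K, t j + R j < t (j + 1)) (hN : t K + R K < A.1 + N) :
    ∃ (u v : ℕ → V) (o : ℕ → Option ℤ),
      (∀ j ≤ K, u j ∈ w.support ∧ v j ∈ w.support ∧ c.L * t j < c.tm (u j) ∧ c.tm (u j) ≤ c.L * t j + c.M ∧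
        c.L * (t j + R j) - c.M ≤ c.tm (v j) ∧ c.tm (v j) < c.L * (t j + R j)) ∧
      (∀ j ≤ K, ∀ k, o j = some k → ∃ z ∈ w.support, c.ps z = k ∧ c.L * t j < c.tm z ∧ c.tm z ≤ c.L * t j + c.M) ∧
      ∀ zm zp : ℕ → ℤ, (∀ j ≤ K, (zm j ≤ c.ps (u j) ∧ c.ps (v j) ≤ zp j) ∨ (c.ps (u j) ≤ zm j ∧ zp j ≤ c.ps (v j))) →
        TT c τ A (t 0 + R 0 - A.1).toNat (zp 0 - A.2) +
          ∑ j ∈ Finset.range K, PT c a τ (o j) (t j) (R j) (zm j) (t (j + 1) + R (j + 1) - t j).toNat (zp (j + 1)) +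
          PT c a τ (o K) (t K) (R K) (zm K) (A.1 + N - t K).toNat (A.2 + y) ≤
        cost τ w + ∑ j ∈ Finset.range (K + 1), TT c τ (t j, zm j) (R j) (zp j - zm j) + 6 * (K + 1) * C17 c b := by
  classical
  have hb : 0 < b := ha.trans_le hab
  have hL := c.L_eq
  have hM := c.M_pos
  have hLp := c.L_pos
  have hC : 0 < C17 c b := hb.trans_le (C17_pos hb)
  have mono : ∀ {i j : ℤ}, i ≤ j → c.L * i ≤ c.L * j := fun h => mul_le_mul_of_nonneg_left h (by omega)
  have step : ∀ {i j : ℤ}, i + 1 ≤ j → c.L * i + c.L ≤ c.L * j := fun {i j} h => by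
    have h1 := mono h
    linarith [mul_add c.L i 1]
  -- the times grow
  have tN : ∀ j ≤ K, t j + R j < A.1 + N := by
    intro j hj
    have : ∀ i, j + i ≤ K → t j + R j ≤ t (j + i) + R (j + i) := by
      intro i
      induction i with
      | zero => intro _; exact le_rfl
      | succ i ih =>
        intro hi
        have h1 := ih (by omega)
        have h2 := ht (j + i) (by omega)
        have h3 : t (j + i + 1) = t (j + (i + 1)) := by rw [add_assoc]
        have h4 : R (j + i + 1) = R (j + (i + 1)) := by rw [add_assoc]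
        omega
    have h1 := this (K - j) (by omega)
    rw [show j + (K - j) = K by omega] at h1
    omega
  have tA : ∀ j ≤ K, A.1 < t j := by
    intro j
    induction j with
    | zero => intro _; exact h0
    | succ j ih =>
      intro hj
      have h1 := ih (by omega)
      have h2 := ht j (by omega)
      omega
  obtain ⟨u, v, Xx, Y, s1, s2, s3, s4, s5⟩ := hook_walk (c := c) (S := c.slab A.1 (A.1 + N)) (τ := τ) (K + 1) t R w hw
    (fun _ => by rw [Co.tm_vt]; exact mono h0.le) (fun j hj => hR j (by omega)) (fun j hj => ht j (by omega))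
    (fun j hj => by rw [Co.tm_vt]; simp only [Prod.fst_add]; exact mono (tN j (by omega)).le)
  have hwt : ∀ z ∈ w.support, c.L * A.1 ≤ c.tm z ∧ c.tm z ≤ c.L * (A.1 + N) := Co.tm_of_slab hw
    ⟨by rw [Co.tm_vt], by rw [Co.tm_vt]; exact mono (by omega)⟩
  -- the junctions
  have hJ : ∀ j ≤ K, u j ∈ w.support ∧ v j ∈ w.support ∧
      TT c τ (t j, c.ps (u j)) (R j) (c.ps (v j) - c.ps (u j)) ≤ Xx j + 2 * C17 c b := by
    intro j hj
    obtain ⟨J, j1, j2, j3⟩ := s3 j (by omega)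
    obtain ⟨g1, g2, g3, g4⟩ := s2 j (by omega)
    have hRj := hR j hj
    have gg := step (i := t j) (j := t j + R j) (by omega)
    refine ⟨(j3 _ J.start_mem_support).1, (j3 _ J.end_mem_support).1, ?_⟩
    rw [← TR_slab_eq c τ (t := t j + R j) rfl, ← j1]
    obtain ⟨p, hp, lp⟩ := conn_near (c := c) hb (z := u j) (s := t j) (t := t j + R j) (n := t j) (by omega)
      ⟨le_rfl, by omega⟩ ⟨g1.le, by omega⟩ (by rw [abs_le]; constructor <;> omega)
    obtain ⟨q, hq, lq⟩ := conn_near (c := c) hb (z := v j) (s := t j) (t := t j + R j) (n := t j + R j) (by omega)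
      ⟨by omega, le_rfl⟩ ⟨by omega, g4.le⟩ (by rw [abs_le]; constructor <;> omega)
    have hJ' : ∀ e ∈ wedges J, e ∈ c.slab (t j) (t j + R j) :=
      slab_walk j2 (Or.inr fun z hz => (j3 z hz).2.1) (Or.inr fun z hz => (j3 z hz).2.2)
    have h := TR_le hτ ha.le (S := c.slab (t j) (t j + R j)) (p.reverse.append (J.append q)) (fun e he => by
      rw [wedges_append, wedges_append, List.mem_append, List.mem_append, wedges_reverse, List.mem_reverse] at he
      rcases he with he | he | he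
      · exact hp e he
      · exact hJ' e he
      · exact hq e he)
    rw [cost_append, cost_append, cost_reverse] at h
    have h4 := cost_le hτ p
    have h5 := cost_le hτ q
    linarith
  -- the first piece
  have hfirst : ∀ z' : ℤ, TT c τ A (t 0 + R 0 - A.1).toNat (z' - A.2) ≤
      Y 0 + C17 c b + TT c τ (t 0, c.ps (u 0)) (R 0) (z' - c.ps (u 0)) := by
    intro z'
    obtain ⟨G, j1, j2, j3⟩ := s4 0 (by omega)
    obtain ⟨g1, g2, g3, g4⟩ := s2 0 (by omega)
    have hR0 := hR 0 (by omega)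
    have e0 := TR_slab_eq c τ (s := A.1) (t := t 0 + R 0) (n := (t 0 + R 0 - A.1).toNat) (by omega) A.2 z'
    rw [← TR_slab_eq c τ (t := t 0 + R 0) rfl (c.ps (u 0)) z']
    change TT c τ (A.1, A.2) _ _ ≤ _
    rw [← e0]
    simp only [Prod.mk.eta]
    have hG' : ∀ e ∈ wedges G, e ∈ c.slab A.1 (t 0 + R 0) :=
      slab_walk j2 (Or.inl rfl) (Or.inr fun z hz => (j3 z hz).2)
    have h := piece_end (c := c) (τ := τ) ha hab hτ (t := A.1) (t' := t 0) (R' := R 0) h0.le hR0 (q := c.vt A) (u := u 0)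
      ⟨g1, g2⟩ ⟨⟨G, hG'⟩⟩ z'
    have h2 : TR (c.slab A.1 (t 0 + R 0)) τ (c.vt A) (u 0) ≤ Y 0 := by
      rw [← j1]
      exact TR_le hτ ha.le (S := c.slab A.1 (t 0 + R 0)) G hG'
    linarith
  -- the other pieces
  have hmid : ∀ j < K, ∃ o : Option ℤ, (∀ k, o = some k → ∃ z ∈ w.support, c.ps z = k ∧ c.L * t j < c.tm z ∧
      c.tm z ≤ c.L * t j + c.M) ∧ ∀ z z' : ℤ, PT c a τ o (t j) (R j) z (t (j + 1) + R (j + 1) - t j).toNat z' ≤
        TT c τ (t j, z) (R j) (c.ps (v j) - z) + Y (j + 1) + 4 * C17 c b +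
          TT c τ (t (j + 1), c.ps (u (j + 1))) (R (j + 1)) (z' - c.ps (u (j + 1))) := by
    intro j hj
    obtain ⟨G, j1, j2, j3⟩ := s4 (j + 1) (by omega)
    obtain ⟨g1, g2, g3, g4⟩ := s2 (j + 1) (by omega)
    obtain ⟨f1, f2, f3, f4⟩ := s2 j (by omega)
    have hRj := hR j (by omega)
    have hRj' := hR (j + 1) (by omega)
    have htj := ht j hj
    have hst := step (i := t j) (j := t (j + 1)) (by omega)
    simp only [pv] at G j1 j2 j3
    have ht3 : t j + R j < t (j + 1) + R (j + 1) := by omega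
    have sub1 : c.slab (t (j + 1)) (t (j + 1) + R (j + 1)) ⊆ c.slab (t j) (t (j + 1) + R (j + 1)) :=
      Co.slab_mono (by omega) le_rfl
    have eD : ∀ z z' : ℤ, TR (c.slab (t j) (t (j + 1) + R (j + 1))) τ (c.vt (t j, z)) (c.vt (t (j + 1) + R (j + 1), z')) =
        TT c τ (t j, z) (t (j + 1) + R (j + 1) - t j).toNat (z' - z) := fun z z' => TR_slab_eq c τ (by omega) z z'
    have e1 : ∀ z : ℤ, TR (c.slab (t j) (t j + R j)) τ (c.vt (t j, z)) (c.vt (t j + R j, c.ps (v j))) =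
        TT c τ (t j, z) (R j) (c.ps (v j) - z) := fun z => TR_slab_eq c τ rfl z _
    have e2 : ∀ z' : ℤ, TR (c.slab (t (j + 1)) (t (j + 1) + R (j + 1))) τ (c.vt (t (j + 1), c.ps (u (j + 1))))
        (c.vt (t (j + 1) + R (j + 1), z')) =
        TT c τ (t (j + 1), c.ps (u (j + 1))) (R (j + 1)) (z' - c.ps (u (j + 1))) := fun z' => TR_slab_eq c τ rfl _ z'
    by_cases hret : ∀ z ∈ G.support, c.L * t j < c.tm z
    · refine ⟨none, fun k hk => absurd hk (by simp), fun z z' => ?_⟩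
      simp only [PT]
      rw [← eD, ← e1, ← e2]
      have h1 := piece_good (c := c) (τ := τ) ha hab hτ (s := A.1) (N := A.1 + N) (t := t j)
        (t₃ := t (j + 1) + R (j + 1)) hRj ht3 (v := v j) ⟨f3, f4⟩ G j2 hret (Or.inr fun z hz => (j3 z hz).2) z
      have hGS : ∀ e ∈ wedges G, e ∈ c.slab (t j) (t (j + 1) + R (j + 1)) :=
        slab_walk j2 (Or.inr hret) (Or.inr fun z hz => (j3 z hz).2)
      have hne : Nonempty (WK (c.slab (t j) (t (j + 1) + R (j + 1))) (c.vt (t j, z)) (u (j + 1))) := by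
        have hh := step (i := t (j + 1)) (j := t (j + 1) + R (j + 1)) (by omega)
        exact Co.slab_ne (by omega) ⟨by rw [Co.tm_vt], by rw [Co.tm_vt]; simp only; omega⟩ ⟨by omega, by omega⟩
      have h2 := piece_end (c := c) (τ := τ) ha hab hτ (t := t j) (t' := t (j + 1)) (R' := R (j + 1)) (by omega) hRj'
        (q := c.vt (t j, z)) (u := u (j + 1)) ⟨g1, g2⟩ hne z'
      linarith
    · push Not at hret
      obtain ⟨k, Y', k1, k2, k3, k4, k5, k6, k7⟩ := piece_ret (c := c) (τ := τ) ha hab hτ (s := A.1) (N := A.1 + N)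
        (t := t j) (t₃ := t (j + 1) + R (j + 1)) hRj ht3 (v := v j) ⟨f3, f4⟩ (p := u (j + 1)) (by omega) G j2 hret
        (Or.inr fun z hz => (j3 z hz).2)
      refine ⟨some (c.ps k), fun k' hk' => ⟨k, (j3 k k1).1, Option.some.inj hk', k2, k3⟩, fun z z' => ?_⟩
      simp only [PT]
      rw [← eD, ← e1, ← e2]
      have h2 := piece_end (c := c) (τ := τ) ha hab hτ (t := t j) (t' := t (j + 1)) (R' := R (j + 1)) (by omega) hRj'
        (q := c.vt (t j, c.ps k)) (u := u (j + 1)) ⟨g1, g2⟩ k5 z'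
      have h3 := k6 z
      have h4 := k7 z
      rcases max_cases (a * (c.M * |(c.ps k : ℝ) - z|)) (a * (2 * R j)) with ⟨h, -⟩ | ⟨h, -⟩ <;> rw [h] <;> linarith
  -- the last piece
  have hlast : ∃ o : Option ℤ, (∀ k, o = some k → ∃ z ∈ w.support, c.ps z = k ∧ c.L * t K < c.tm z ∧
      c.tm z ≤ c.L * t K + c.M) ∧ ∀ z : ℤ, PT c a τ o (t K) (R K) z (A.1 + N - t K).toNat (A.2 + y) ≤
        TT c τ (t K, z) (R K) (c.ps (v K) - z) + Y (K + 1) + 3 * C17 c b := by
    obtain ⟨G, j1, j2, j3⟩ := s5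
    obtain ⟨f1, f2, f3, f4⟩ := s2 K (by omega)
    have hRK := hR K le_rfl
    simp only [pv] at G j1 j2 j3
    have eE : A + ((N : ℤ), y) = (A.1 + N, A.2 + y) := by ext <;> simp
    have eD : ∀ z : ℤ, TR (c.slab (t K) (A.1 + N)) τ (c.vt (t K, z)) (c.vt (A + ((N : ℤ), y))) =
        TT c τ (t K, z) (A.1 + N - t K).toNat (A.2 + y - z) := fun z => by
      rw [eE]
      exact TR_slab_eq c τ (by omega) z _
    have e1 : ∀ z : ℤ, TR (c.slab (t K) (t K + R K)) τ (c.vt (t K, z)) (c.vt (t K + R K, c.ps (v K))) =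
        TT c τ (t K, z) (R K) (c.ps (v K) - z) := fun z => TR_slab_eq c τ rfl z _
    have hp : c.L * t K < c.tm (c.vt (A + ((N : ℤ), y))) := by
      rw [Co.tm_vt]
      simp only [Prod.fst_add]
      have := step (i := t K) (j := A.1 + N) (by omega)
      omega
    by_cases hret : ∀ z ∈ G.support, c.L * t K < c.tm z
    · refine ⟨none, fun k hk => absurd hk (by simp), fun z => ?_⟩
      simp only [PT]
      rw [← eD, ← e1]
      have h1 := piece_good (c := c) (τ := τ) ha hab hτ (s := A.1) (N := A.1 + N) (t := t K)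
        (t₃ := A.1 + N) hRK hN (v := v K) ⟨f3, f4⟩ G j2 hret (Or.inl rfl) z
      linarith
    · push Not at hret
      obtain ⟨k, Y', k1, k2, k3, k4, k5, k6, k7⟩ := piece_ret (c := c) (τ := τ) ha hab hτ (s := A.1) (N := A.1 + N)
        (t := t K) (t₃ := A.1 + N) hRK hN (v := v K) ⟨f3, f4⟩ hp G j2 hret (Or.inl rfl)
      refine ⟨some (c.ps k), fun k' hk' => ⟨k, j3 k k1, Option.some.inj hk', k2, k3⟩, fun z => ?_⟩
      simp only [PT]
      rw [← eD, ← e1]
      have h3 := k6 z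
      have h4 := k7 z
      rcases max_cases (a * (c.M * |(c.ps k : ℝ) - z|)) (a * (2 * R K)) with ⟨h, -⟩ | ⟨h, -⟩ <;> rw [h] <;> linarith
  choose! om ho1 ho2 using hmid
  obtain ⟨ol, hl1, hl2⟩ := hlast
  refine ⟨u, v, fun j => if j < K then om j else ol, ?_, ?_, ?_⟩
  · intro j hj
    obtain ⟨g1, g2, g3, g4⟩ := s2 j (by omega)
    exact ⟨(hJ j hj).1, (hJ j hj).2.1, g1, g2, g3, g4⟩
  · intro j hj k hk
    by_cases h : j < K
    · simp only [if_pos h] at hk
      exact ho1 j h k hk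
    · simp only [if_neg h] at hk
      obtain rfl : j = K := by omega
      exact hl1 k hk
  · intro zm zp hz
    have a1 := hfirst (zp 0)
    have a2 : ∑ j ∈ Finset.range K, PT c a τ (if j < K then om j else ol) (t j) (R j) (zm j)
        (t (j + 1) + R (j + 1) - t j).toNat (zp (j + 1)) ≤ ∑ j ∈ Finset.range K,
        (TT c τ (t j, zm j) (R j) (c.ps (v j) - zm j) + Y (j + 1) + 4 * C17 c b +
          TT c τ (t (j + 1), c.ps (u (j + 1))) (R (j + 1)) (zp (j + 1) - c.ps (u (j + 1)))) := by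
      refine Finset.sum_le_sum fun j hj => ?_
      rw [Finset.mem_range] at hj
      rw [if_pos hj]
      exact ho2 j hj (zm j) (zp (j + 1))
    have a3 := hl2 (zm K)
    have a4 : ∑ j ∈ Finset.range (K + 1), (TT c τ (t j, c.ps (u j)) (R j) (zp j - c.ps (u j)) +
        TT c τ (t j, zm j) (R j) (c.ps (v j) - zm j)) ≤ ∑ j ∈ Finset.range (K + 1), (Xx j + 2 * C17 c b +
        TT c τ (t j, zm j) (R j) (zp j - zm j)) := by
      refine Finset.sum_le_sum fun j hj => ?_
      rw [Finset.mem_range] at hj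
      have h1 := swap17 (c := c) ha hτ (t j) (hR j (by omega)) (hz j (by omega))
      have h2 := (hJ j (by omega)).2.2
      linarith
    have b1 : ∑ j ∈ Finset.range (K + 1), TT c τ (t j, c.ps (u j)) (R j) (zp j - c.ps (u j)) =
        ∑ j ∈ Finset.range K, TT c τ (t (j + 1), c.ps (u (j + 1))) (R (j + 1)) (zp (j + 1) - c.ps (u (j + 1))) +
          TT c τ (t 0, c.ps (u 0)) (R 0) (zp 0 - c.ps (u 0)) := Finset.sum_range_succ' _ _
    have b2 : ∑ j ∈ Finset.range (K + 1), TT c τ (t j, zm j) (R j) (c.ps (v j) - zm j) =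
        ∑ j ∈ Finset.range K, TT c τ (t j, zm j) (R j) (c.ps (v j) - zm j) +
          TT c τ (t K, zm K) (R K) (c.ps (v K) - zm K) := Finset.sum_range_succ _ _
    have b3 : ∑ j ∈ Finset.range (K + 1), (Y j + Xx j) + Y (K + 1) =
        ∑ j ∈ Finset.range (K + 1), Xx j + (∑ j ∈ Finset.range K, Y (j + 1) + Y 0) + Y (K + 1) := by
      rw [Finset.sum_add_distrib, Finset.sum_range_succ' Y]
      ring
    rw [Finset.sum_add_distrib] at a4
    simp only [Finset.sum_add_distrib, Finset.sum_const, Finset.card_range, nsmul_eq_mul] at a2 a4 ⊢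
    simp only [lt_irrefl, if_false]
    rw [b1, b2] at a4
    rw [b3] at s1
    push_cast at a4 ⊢
    have hCC : 3 * C17 c b + C17 c b ≤ 4 * C17 c b := by linarith
    linarith

/-- **`K + 1` JUNCTIONS AT ONCE, EXCESSES.** The walk `w` from `A` to `A + (N, y)` in the slab; windows `[t j, t j + R j]`
(`j ≤ K`), pairwise disjoint, gaps at least one block. `u j` = after the last visit of the time `t j` before the first visit of
the time `t j + R j`, `v j` = before this first visit. References `(t j, zm j) → (t j + R j, zp j)`, crossed. -/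
theorem hookX {F : Fm} {κ : ℝ} {d : Dr} (hd : Adm F κ d) (η : Env) (K : ℕ) (t : ℕ → ℤ) (R : ℕ → ℕ) (A : Pt) (N : ℕ) (y : ℤ)
    (w : grid.Walk (F.co.vt A) (F.co.vt (A + ((N : ℤ), y)))) (hw : ∀ e ∈ wedges w, e ∈ F.co.slab A.1 (A.1 + N))
    (h0 : A.1 < t 0) (hR : ∀ j ≤ K, 1 ≤ R j) (ht : ∀ j < K, t j + R j < t (j + 1)) (hN : t K + R K < A.1 + N) :
    ∃ (u v : ℕ → V) (o : ℕ → Option ℤ),
      (∀ j ≤ K, u j ∈ w.support ∧ v j ∈ w.support ∧ F.co.L * t j < F.co.tm (u j) ∧
        F.co.tm (u j) ≤ F.co.L * t j + F.co.M ∧ F.co.L * (t j + R j) - F.co.M ≤ F.co.tm (v j) ∧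
        F.co.tm (v j) < F.co.L * (t j + R j)) ∧
      (∀ j ≤ K, ∀ k, o j = some k → ∃ z ∈ w.support, F.co.ps z = k ∧ F.co.L * t j < F.co.tm z ∧
        F.co.tm z ≤ F.co.L * t j + F.co.M) ∧
      ∀ zm zp : ℕ → ℤ, (∀ j ≤ K, (zm j ≤ F.co.ps (u j) ∧ F.co.ps (v j) ≤ zp j) ∨
          (F.co.ps (u j) ≤ zm j ∧ zp j ≤ F.co.ps (v j))) →
        X F d η A (t 0 + R 0 - A.1).toNat (zp 0 - A.2) +
          ∑ j ∈ Finset.range K, PX F κ d η (o j) (t j) (R j) (zm j) (t (j + 1) + R (j + 1) - t j).toNat (zp (j + 1)) +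
          PX F κ d η (o K) (t K) (R K) (zm K) (A.1 + N - t K).toNat (A.2 + y) ≤
        cost (F.tau η) w - d.H (F.co.vt ((N : ℤ), y)) +
          ∑ j ∈ Finset.range (K + 1), X F d η (t j, zm j) (R j) (zp j - zm j) + 6 * (K + 1) * C17 F.co F.b := by
  obtain ⟨u, v, o, h1, h2, h3⟩ := hookT (c := F.co) F.a0 F.ab (bd_tau F η) K t R A N y w hw h0 hR ht hN
  refine ⟨u, v, o, h1, h2, fun zm zp hz => ?_⟩
  have h4 := h3 zm zp hz
  -- the times grow
  have tt : ∀ j ≤ K, A.1 < t j := by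
    intro j
    induction j with
    | zero => intro _; exact h0
    | succ j ih =>
      intro hj
      have g1 := ih (by omega)
      have g2 := ht j (by omega)
      omega
  have q2 : ∀ j ∈ Finset.range K, PX F κ d η (o j) (t j) (R j) (zm j) (t (j + 1) + R (j + 1) - t j).toNat (zp (j + 1)) ≤
      PT F.co F.a (F.tau η) (o j) (t j) (R j) (zm j) (t (j + 1) + R (j + 1) - t j).toNat (zp (j + 1)) -
        (al F.co d * (t (j + 1) + R (j + 1) - t j) + be F.co d * (zp (j + 1) - zm j)) := by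
    intro j hj
    rw [Finset.mem_range] at hj
    have g := PX_le_PT hd η (o j) (t j) (R j) (zm j) (t (j + 1) + R (j + 1) - t j).toNat (zp (j + 1))
    have e : (((t (j + 1) + R (j + 1) - t j).toNat : ℕ) : ℝ) = (t (j + 1) : ℝ) + R (j + 1) - t j := by
      have : (((t (j + 1) + R (j + 1) - t j).toNat : ℕ) : ℤ) = t (j + 1) + R (j + 1) - t j :=
        Int.toNat_of_nonneg (by have := ht j hj; omega)
      exact_mod_cast this
    rw [e] at g
    exact g
  have q2' := Finset.sum_le_sum q2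
  rw [Finset.sum_sub_distrib] at q2'
  have q3 := PX_le_PT hd η (o K) (t K) (R K) (zm K) (A.1 + N - t K).toNat (A.2 + y)
  have e3 : (((A.1 + N - t K).toNat : ℕ) : ℝ) = (A.1 : ℝ) + N - t K := by
    have : (((A.1 + N - t K).toNat : ℕ) : ℤ) = A.1 + N - t K := Int.toNat_of_nonneg (by omega)
    exact_mod_cast this
  rw [e3] at q3
  have q1 : X F d η A (t 0 + R 0 - A.1).toNat (zp 0 - A.2) = TT F.co (F.tau η) A (t 0 + R 0 - A.1).toNat (zp 0 - A.2) -
      (al F.co d * (t 0 + R 0 - A.1) + be F.co d * (zp 0 - A.2)) := by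
    unfold X
    have e : (((t 0 + R 0 - A.1).toNat : ℕ) : ℝ) = (t 0 : ℝ) + R 0 - A.1 := by
      have : (((t 0 + R 0 - A.1).toNat : ℕ) : ℤ) = t 0 + R 0 - A.1 := Int.toNat_of_nonneg (by omega)
      exact_mod_cast this
    rw [e]
    push_cast
    ring
  have q4 : ∑ j ∈ Finset.range (K + 1), X F d η (t j, zm j) (R j) (zp j - zm j) =
      ∑ j ∈ Finset.range (K + 1), TT F.co (F.tau η) (t j, zm j) (R j) (zp j - zm j) -
        ∑ j ∈ Finset.range (K + 1), (al F.co d * R j + be F.co d * (zp j - zm j)) := by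
    rw [← Finset.sum_sub_distrib]
    refine Finset.sum_congr rfl fun j _ => ?_
    unfold X
    push_cast
    ring
  have q5 : d.H (F.co.vt ((N : ℤ), y)) = al F.co d * N + be F.co d * y := by
    rw [Co.H_vt]
    simp
  -- the sum of the displacements
  have q6 : ∑ j ∈ Finset.range K, (al F.co d * ((t (j + 1) : ℝ) + R (j + 1) - t j) + be F.co d * ((zp (j + 1) : ℝ) - zm j)) =
      ∑ j ∈ Finset.range (K + 1), (al F.co d * (R j : ℝ) + be F.co d * ((zp j : ℝ) - zm j)) +
        al F.co d * ((t K : ℝ) - t 0 - R 0) + be F.co d * ((zm K : ℝ) - zp 0) := by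
    clear h4 q2 q2' q3 e3 q1 q4 q5 h1 h2 h3 hz tt hN ht hR
    induction K with
    | zero => simp; ring
    | succ K ih =>
      rw [Finset.sum_range_succ, ih, Finset.sum_range_succ _ (K + 1)]
      ring
  rw [q6] at q2'
  rw [q1, q4, q5]
  push_cast at q3 ⊢
  linarith

end Pool.Agent.W_1b8d5d_h17p
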