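import Pool.Agent.W_1b8d5d_h17p.GoodX17
import Pool.Agent.W_1b8d5d_h17p.HookX17
import Pool.Agent.W_1b8d5d_h17p.EndP17

/-!
MP_1b8d5d_pr, Track P, section 6 (inner edge, row 646 section 3): the deterministic part, from a good environment to the sum of
the truncated mean costs. (helper17)
-/

namespace Pool.Agent.W_1b8d5d_h17p

open MeasureTheory Set Pool.Agent.W_1b8d5d_h85 Pool.Agent.W_1b8d5d_p Pool.Agent.W_1b8d5d_p66

variable {F : Fm} {κ : ℝ} {d : Dr}

/-- The cell of a position. -/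
theorem cell17 {c p μ : ℤ} {J : ℕ} (hμ : 1 ≤ μ) (h1 : c ≤ p) (h2 : p < c + J * μ) :
    ∃ i : ℕ, i < J ∧ c + i * μ ≤ p ∧ p ≤ c + (i + 1) * μ := by
  have hμ0 : 0 < μ := by omega
  have a1 : 0 ≤ (p - c) / μ := Int.ediv_nonneg (by omega) (by omega)
  have a2 : (p - c) / μ * μ ≤ p - c := Int.ediv_mul_le _ hμ0.ne'
  have a3 : p - c < ((p - c) / μ + 1) * μ := Int.lt_ediv_add_one_mul_self _ hμ0
  have a4 : (p - c) / μ < J := Int.ediv_lt_of_lt_mul hμ0 (by linarith)
  obtain ⟨i, hi⟩ : ∃ i : ℕ, (i : ℤ) = (p - c) / μ := ⟨((p - c) / μ).toNat, Int.toNat_of_nonneg a1⟩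
  rw [← hi] at a2 a3 a4
  exact ⟨i, by omega, by linarith, by linarith⟩

/-- **THE DETERMINISTIC PART OF THE INNER EDGE.** -/
theorem core17 (hd : Adm F κ d) {L n' K J : ℕ} (hn1 : 1 ≤ n') (hn : 2 * n' < L) {z : ℤ} {cc : ℕ → ℤ} {h μ : ℤ} (hμ : 1 ≤ μ)
    {eL : ℤ → ℝ} {a1 r q B l : ℝ} (hq : 0 ≤ q) (hBl : B + l ≤ κ * n') {η : Env}
    (hg : Good17 F d L n' K J z cc h μ eL a1 r q B l η) :
    ∃ dd : ℕ → ℤ, ∑ j ∈ Finset.range (K + 2), min (eL (dd j)) B ≤
        a1 + (K + 1) * r + (K + 2) * q + 6 * (K + 1) * C17 F.co F.b ∧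
      z + (K + 1) * (h - μ) ≤ ∑ j ∈ Finset.range (K + 2), dd j ∧
      ∑ j ∈ Finset.range (K + 2), dd j ≤ z + (K + 1) * h := by
  classical
  have hκ := hd.κ0
  have hnL : n' < L := by omega
  obtain ⟨N, hN⟩ : ∃ N, N = Nw L n' K := ⟨_, rfl⟩
  have hNc : (N : ℤ) = (K + 2) * L - (K + 1) * n' := hN ▸ Nw_cast hnL.le
  have hN1 : 1 ≤ N := by
    have h1 := tw_lt (K := K) hnL (j := 0) (by omega)
    have h2 := tw_pos hnL 0
    rw [← hN] at h1
    omega
  -- the path
  obtain ⟨w, -, hw, hwc⟩ := TR_min (bdp F η) F.a0 (Co.ne_vt (c := F.co) 0 hN1 z)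
  have hX : exc F d η w ≤ a1 := by
    have h1 := hg.path
    rw [← hN] at h1
    unfold X TT at h1
    unfold exc
    rw [hwc, H_vt_sub]
    simp only [Prod.fst_zero, Prod.snd_zero, zero_add, Int.cast_zero, sub_zero] at h1 ⊢
    push_cast at h1 ⊢
    exact h1
  have hpos := hg.pos
  rw [← hN] at hpos
  have hw0 : ∀ e ∈ wedges w, e ∈ F.co.slab 0 N := by
    simpa only [Prod.fst_zero, zero_add] using hw
  obtain ⟨u, v, o, g1, -, g3⟩ := hookX hd η K (tw L n') (fun _ => n') 0 N z w hw (by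
    simp only [Prod.fst_zero]
    exact tw_pos hnL 0) (fun _ _ => hn1) (fun j _ => by
    unfold tw
    push_cast
    have : ((j : ℤ) + 1 + 1) * ((L : ℤ) - n') = ((j : ℤ) + 1) * ((L : ℤ) - n') + ((L : ℤ) - n') := by ring
    rw [this]
    omega) (by
    simp only [Prod.fst_zero, zero_add]
    have h1 := tw_lt (K := K) hnL (j := K) le_rfl
    rw [← hN] at h1
    omega)
  -- the cells
  have hcell : ∀ j, ∃ i i' : ℕ, j ≤ K → (i < J ∧ i' ≤ J ∧ X F d η (tw L n' j, cc j + i' * μ) n' (cc j + i * μ + h - (cc j + i' * μ)) ≤ r ∧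
      ((cc j + i' * μ ≤ F.co.ps (u j) ∧ F.co.ps (v j) ≤ cc j + i * μ + h) ∨
        (F.co.ps (u j) ≤ cc j + i' * μ ∧ cc j + i * μ + h ≤ F.co.ps (v j))) ∧
      h - μ ≤ cc j + i * μ + h - (cc j + i' * μ) ∧ cc j + i * μ + h - (cc j + i' * μ) ≤ h) := by
    intro j
    by_cases hj : j ≤ K
    · obtain ⟨b1, b2, b3, b4, b5, b6⟩ := g1 j hj
      have hp := hpos w hw0 hX j hj (u j) b1 (by rw [abs_le]; constructor <;> omega)
      obtain ⟨i, c1, c2, c3⟩ := cell17 hμ hp.1 hp.2
      obtain ⟨r1, r2⟩ := hg.refs j hj i c1.le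
      by_cases hv : F.co.ps (v j) ≤ cc j + i * μ + h
      · refine ⟨i, i, fun _ => ⟨c1, c1.le, ?_, Or.inl ⟨c2, hv⟩, by linarith, by linarith⟩⟩
        rw [show cc j + i * μ + h - (cc j + i * μ) = h by ring]
        exact r1
      · refine ⟨i, i + 1, fun _ => ⟨c1, c1, ?_, Or.inr ⟨?_, by omega⟩, ?_, ?_⟩⟩
        · push_cast
          rw [show cc j + i * μ + h - (cc j + (i + 1) * μ) = h - μ by ring]
          exact r2
        · push_cast; exact c3
        · push_cast; linarith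
        · push_cast; linarith
    · exact ⟨0, 0, fun hj' => absurd hj' hj⟩
  choose i i' hc using hcell
  obtain ⟨zm, hzm⟩ : ∃ zm : ℕ → ℤ, zm = fun j => cc j + i' j * μ := ⟨_, rfl⟩
  obtain ⟨zp, hzp⟩ : ∃ zp : ℕ → ℤ, zp = fun j => cc j + i j * μ + h := ⟨_, rfl⟩
  have m1 : ∀ j, zm j = cc j + i' j * μ := fun j => by rw [hzm]
  have m2 : ∀ j, zp j = cc j + i j * μ + h := fun j => by rw [hzp]
  have g4 := g3 zm zp (fun j hj => by rw [m1, m2]; exact (hc j hj).2.2.2.1)
  -- the values of the pieces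
  have e0 : (tw L n' 0 + (n' : ℤ) - (0 : Pt).1).toNat = L := by
    unfold tw
    simp only [Prod.fst_zero]
    omega
  have e1 : ∀ j, (tw L n' (j + 1) + (n' : ℤ) - tw L n' j).toNat = L := by
    intro j
    unfold tw
    push_cast
    have : ((j : ℤ) + 1 + 1) * ((L : ℤ) - n') = ((j : ℤ) + 1) * ((L : ℤ) - n') + ((L : ℤ) - n') := by ring
    rw [this]
    omega
  have e2' : (N : ℤ) - tw L n' K = L := by
    rw [hNc]
    unfold tw
    ring
  have e2 : ((0 : Pt).1 + (N : ℤ) - tw L n' K).toNat = L := by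
    simp only [Prod.fst_zero, zero_add]
    omega
  rw [e0, e2] at g4
  simp only [e1, Prod.snd_zero, sub_zero, zero_add] at g4
  have hL1 : 1 ≤ L := by omega
  have hB0 : ∀ x : ℝ, min x B - q ≤ B := fun x => by linarith [min_le_right x B]
  have k0 : min (eL (zp 0)) B - q ≤ X F d η 0 L (zp 0) := by
    rw [m2]
    exact hg.first (i 0) (hc 0 (by omega)).1.le
  have k1 : ∀ j ∈ Finset.range K, min (eL (zp (j + 1) - zm j)) B - q ≤
      PX F κ d η (o j) (tw L n' j) n' (zm j) L (zp (j + 1)) := by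
    intro j hj
    rw [Finset.mem_range] at hj
    rcases ho : o j with _ | k
    · simp only [PX]
      rw [m1, m2]
      exact hg.mid j hj (i' j) (hc j hj.le).2.1 (i (j + 1)) (hc (j + 1) hj).1.le
    · simp only [PX]
      have b1 := neg_X_le_Vr hd η (tw L n' (j + 1) + n', zp (j + 1)) hL1 (zp (j + 1) - k)
      have b2 := hg.back j hj (i (j + 1)) (hc (j + 1) hj).1.le
      rw [← m2] at b2
      have e3 : ((tw L n' (j + 1) + n', zp (j + 1)) : Pt) - ((L : ℤ), zp (j + 1) - k) = (tw L n' j, k) := by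
        have h3 := e1 j
        have h4 : tw L n' (j + 1) + (n' : ℤ) - tw L n' j = L := by omega
        ext
        · simp only [Prod.fst_sub]; omega
        · simp only [Prod.snd_sub]; omega
      rw [e3] at b1
      have b3 : 0 ≤ κ / 2 * (F.co.M * |(k : ℝ) - zm j|) := by
        have hM : (1 : ℝ) ≤ F.co.M := by exact_mod_cast F.co.M_pos
        positivity
      linarith [hB0 (eL (zp (j + 1) - zm j))]
  have k2 : min (eL (z - zm K)) B - q ≤ PX F κ d η (o K) (tw L n' K) n' (zm K) L z := by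
    rcases ho : o K with _ | k
    · simp only [PX]
      rw [m1]
      exact hg.last (i' K) (hc K le_rfl).2.1
    · simp only [PX]
      have b1 := neg_X_le_Vr hd η ((N : ℤ), z) hL1 (z - k)
      have b2 := hg.back'
      rw [← hN] at b2
      have e3 : (((N : ℤ), z) : Pt) - ((L : ℤ), z - k) = (tw L n' K, k) := by
        ext
        · simp only [Prod.fst_sub]; omega
        · simp only [Prod.snd_sub]; omega
      rw [e3] at b1
      have b3 : 0 ≤ κ / 2 * (F.co.M * |(k : ℝ) - zm K|) := by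
        have hM : (1 : ℝ) ≤ F.co.M := by exact_mod_cast F.co.M_pos
        positivity
      linarith [hB0 (eL (z - zm K))]
  have k3 : ∑ j ∈ Finset.range (K + 1), X F d η (tw L n' j, zm j) n' (zp j - zm j) ≤ (K + 1) * r := by
    have h1 : ∀ j ∈ Finset.range (K + 1), X F d η (tw L n' j, zm j) n' (zp j - zm j) ≤ r := by
      intro j hj
      rw [Finset.mem_range] at hj
      rw [m1, m2]
      exact (hc j (by omega)).2.2.1
    refine (Finset.sum_le_sum h1).trans ?_
    rw [Finset.sum_const, Finset.card_range, nsmul_eq_mul]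
    push_cast
    exact le_rfl
  have hXc : cost (F.tau η) w - d.H (F.co.vt ((N : ℤ), z)) ≤ a1 := by
    have h1 := hX
    unfold exc at h1
    rw [← Co.vt_sub] at h1
    simpa using h1
  have k4 := Finset.sum_le_sum k1
  rw [Finset.sum_sub_distrib, Finset.sum_const, Finset.card_range, nsmul_eq_mul] at k4
  -- the sum of the displacements
  obtain ⟨dd, hdd⟩ : ∃ dd : ℕ → ℤ, dd = fun j => if j = 0 then zp 0 else (if j = K + 1 then z else zp j) - zm (j - 1) := ⟨_, rfl⟩
  have d0 : dd 0 = zp 0 := by rw [hdd]; simp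
  have d1 : ∀ j ∈ Finset.range K, dd (j + 1) = zp (j + 1) - zm j := by
    intro j hj
    rw [Finset.mem_range] at hj
    rw [hdd]
    simp only [Nat.add_eq_zero_iff, one_ne_zero, and_false, if_false, Nat.add_sub_cancel]
    rw [if_neg (by omega)]
  have d2 : dd (K + 1) = z - zm K := by
    rw [hdd]
    simp
  have sp : ∀ {G : Type} [AddCommMonoid G] (f : ℕ → G), ∑ j ∈ Finset.range (K + 2), f j =
      ∑ j ∈ Finset.range K, f (j + 1) + f (K + 1) + f 0 := by
    intro G _ f
    rw [show K + 2 = (K + 1) + 1 by ring, Finset.sum_range_succ', Finset.sum_range_succ]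
  have hs : ∑ j ∈ Finset.range (K + 2), dd j = z + ∑ j ∈ Finset.range (K + 1), (zp j - zm j) := by
    rw [sp, Finset.sum_congr rfl d1, d0, d2, Finset.sum_sub_distrib, Finset.sum_sub_distrib]
    rw [Finset.sum_range_succ (fun j => zm j), Finset.sum_range_succ' (fun j => zp j)]
    ring
  refine ⟨dd, ?_, ?_, ?_⟩
  · rw [sp, Finset.sum_congr rfl (fun j hj => by rw [d1 j hj]), d0, d2]
    linarith
  · rw [hs]
    have h1 : ∑ j ∈ Finset.range (K + 1), (h - μ) ≤ ∑ j ∈ Finset.range (K + 1), (zp j - zm j) := by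
      refine Finset.sum_le_sum fun j hj => ?_
      rw [Finset.mem_range] at hj
      rw [m1, m2]
      exact (hc j (by omega)).2.2.2.2.1
    rw [Finset.sum_const, Finset.card_range, nsmul_eq_mul] at h1
    push_cast at h1
    linarith
  · rw [hs]
    have h1 : ∑ j ∈ Finset.range (K + 1), (zp j - zm j) ≤ ∑ j ∈ Finset.range (K + 1), h := by
      refine Finset.sum_le_sum fun j hj => ?_
      rw [Finset.mem_range] at hj
      rw [m1, m2]
      exact (hc j (by omega)).2.2.2.2.2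
    rw [Finset.sum_const, Finset.card_range, nsmul_eq_mul] at h1
    push_cast at h1
    linarith

end Pool.Agent.W_1b8d5d_h17p
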