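import Pool.Agent.W_1b8d5d_h17p.WinP17

/-!
MP_1b8d5d_pr, Track P, section 6 (inner edge, row 646 section 3): the good event of the inner edge. (helper17)
-/

namespace Pool.Agent.W_1b8d5d_h17p

open MeasureTheory Set Pool.Agent.W_1b8d5d_h85 Pool.Agent.W_1b8d5d_p Pool.Agent.W_1b8d5d_p66

variable {F : Fm} {κ : ℝ} {d : Dr}

/-- The time of the window `j`. -/
def tw (L n' : ℕ) (j : ℕ) : ℤ := ((j : ℤ) + 1) * ((L : ℤ) - n')

/-- The duration. -/
def Nw (L n' K : ℕ) : ℕ := (K + 2) * L - (K + 1) * n'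

theorem Nw_cast {L n' K : ℕ} (h : n' ≤ L) : ((Nw L n' K : ℕ) : ℤ) = (K + 2) * L - (K + 1) * n' := by
  unfold Nw
  have h1 : (K + 1) * n' ≤ (K + 2) * L := Nat.mul_le_mul (by omega) h
  push_cast [Nat.cast_sub h1]
  ring

theorem tw_pos {L n' : ℕ} (h : n' < L) (j : ℕ) : 0 < tw L n' j := by
  unfold tw
  have : (0 : ℤ) < (L : ℤ) - n' := by omega
  positivity

theorem tw_lt {L n' K : ℕ} (h : n' < L) {j : ℕ} (hj : j ≤ K) : tw L n' j + L ≤ Nw L n' K := by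
  rw [Nw_cast h.le]
  unfold tw
  have h1 : (0 : ℤ) ≤ (L : ℤ) - n' := by omega
  have h2 : ((j : ℤ) + 1) * ((L : ℤ) - n') ≤ ((K : ℤ) + 1) * ((L : ℤ) - n') :=
    mul_le_mul_of_nonneg_right (by omega) h1
  nlinarith

/-- **THE GOOD EVENT.** -/
structure Good17 (F : Fm) (d : Dr) (L n' K J : ℕ) (z : ℤ) (cc : ℕ → ℤ) (h μ : ℤ) (eL : ℤ → ℝ)
    (a1 r q B l : ℝ) (η : Env) : Prop where
  path : X F d η 0 (Nw L n' K) z ≤ a1
  pos : ∀ w : grid.Walk (F.co.vt 0) (F.co.vt (0 + ((Nw L n' K : ℤ), z))), (∀ e ∈ wedges w, e ∈ F.co.slab 0 (Nw L n' K)) →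
    exc F d η w ≤ a1 → ∀ j ≤ K, ∀ x ∈ w.support, |F.co.tm x - F.co.L * tw L n' j| ≤ F.co.M →
      cc j ≤ F.co.ps x ∧ F.co.ps x < cc j + J * μ
  refs : ∀ j ≤ K, ∀ i ≤ J, X F d η (tw L n' j, cc j + i * μ) n' h ≤ r ∧
    X F d η (tw L n' j, cc j + (i + 1) * μ) n' (h - μ) ≤ r
  first : ∀ i ≤ J, min (eL (cc 0 + i * μ + h)) B - q ≤ X F d η 0 L (cc 0 + i * μ + h)
  mid : ∀ j < K, ∀ i ≤ J, ∀ i' ≤ J, min (eL (cc (j + 1) + i' * μ + h - (cc j + i * μ))) B - q ≤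
    X F d η (tw L n' j, cc j + i * μ) L (cc (j + 1) + i' * μ + h - (cc j + i * μ))
  last : ∀ i ≤ J, min (eL (z - (cc K + i * μ))) B - q ≤ X F d η (tw L n' K, cc K + i * μ) L (z - (cc K + i * μ))
  back : ∀ j < K, ∀ i ≤ J, Vr F d η (tw L n' (j + 1) + n', cc (j + 1) + i * μ + h) L ≤ l
  back' : Vr F d η ((Nw L n' K : ℤ), z) L ≤ l

/-- **THE WALLS GIVE THE POSITIONS.** -/
theorem pos17 (hd : Adm F κ d) (η : Env) {N : ℕ} {z : ℤ} {T : ℤ} (hT : 0 < T) (hT' : T < N) {a1 l B1 : ℝ}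
    (hB1 : a1 + 16 * C17 F.co F.b + 3 * l < B1) {Y Y' k₀ e' : ℤ}
    (v1 : VV F d η 0 T.toNat ≤ l) (v2 : Vr F d η ((N : ℤ), z) (N - T).toNat ≤ l)
    (w1 : B1 < X F d η 0 T.toNat Y) (w2 : X F d η (0, k₀) T.toNat (Y - k₀) ≤ l) (w3 : VV F d η (0, k₀) T.toNat ≤ l)
    (w4 : B1 < X F d η (T, Y') (N - T).toNat (z - Y')) (w5 : X F d η (T, Y') (N - T).toNat (e' - Y') ≤ l)
    (w6 : Vr F d η ((N : ℤ), e') (N - T).toNat ≤ l) {lo hi : ℤ}
    (hs : (0 ≤ k₀ ∧ e' ≤ z ∧ (lo : ℝ) ≤ Y' - (a1 + 16 * C17 F.co F.b + 2 * l) / (κ * F.co.M) ∧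
        (Y : ℝ) + (a1 + 16 * C17 F.co F.b + 2 * l) / (κ * F.co.M) < hi) ∨
      (k₀ ≤ 0 ∧ z ≤ e' ∧ (lo : ℝ) ≤ Y - (a1 + 16 * C17 F.co F.b + 2 * l) / (κ * F.co.M) ∧
        (Y' : ℝ) + (a1 + 16 * C17 F.co F.b + 2 * l) / (κ * F.co.M) < hi))
    (w : grid.Walk (F.co.vt 0) (F.co.vt (0 + ((N : ℤ), z)))) (hw : ∀ e ∈ wedges w, e ∈ F.co.slab 0 N)
    (hexc : exc F d η w ≤ a1) {x : V} (hx : x ∈ w.support) (hxT : |F.co.tm x - F.co.L * T| ≤ F.co.M) :
    lo ≤ F.co.ps x ∧ F.co.ps x < hi := by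
  have hw' : ∀ e ∈ wedges w, e ∈ F.co.slab (0 : Pt).1 ((0 : Pt).1 + N) := by
    simpa only [Prod.fst_zero, zero_add] using hw
  have hTn : 1 ≤ T.toNat := by omega
  have hrn : 1 ≤ ((N : ℤ) - T).toNat := by omega
  have g1 : VV F d η 0 (T - (0 : Pt).1).toNat ≤ l := by simpa only [Prod.fst_zero, sub_zero] using v1
  have g2 : Vr F d η (0 + ((N : ℤ), z)) ((0 : Pt).1 + N - T).toNat ≤ l := by
    simpa only [Prod.fst_zero, zero_add] using v2
  have eN : T + (((N : ℤ) - T).toNat : ℤ) = N := by omega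
  have wallS : ∀ k, ((0 ≤ k₀ ∧ Y ≤ k) ∨ (k₀ ≤ 0 ∧ k ≤ Y)) → a1 + 16 * C17 F.co F.b + l <
      X F d η 0 (T - (0 : Pt).1).toNat (k - (0 : Pt).2) := by
    intro k hk
    have h1 := wall_start F hd η 0 hTn hk
    have e0 : (0 : Pt) + (0, k₀) = (0, k₀) := by simp
    rw [e0] at h1
    simp only [Prod.fst_zero, Prod.snd_zero, sub_zero]
    linarith
  have wallE : ∀ k, ((k ≤ Y' ∧ e' ≤ z) ∨ (Y' ≤ k ∧ z ≤ e')) → a1 + 16 * C17 F.co F.b + l <
      X F d η (T, k) ((0 : Pt).1 + N - T).toNat ((0 : Pt).2 + z - k) := by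
    intro k hk
    have h1 := wall_end hd η T hrn hk
    rw [eN] at h1
    simp only [Prod.fst_zero, Prod.snd_zero, zero_add]
    linarith
  rcases hs with ⟨s1, s2, s3, s4⟩ | ⟨s1, s2, s3, s4⟩
  · obtain ⟨h1, h2⟩ := win_right hd η w hw' (T := T) (by simpa using hT) (by simpa using hT') hx hxT
      (a := a1 + 16 * C17 F.co F.b) (l := l) (by linarith) g1 g2 (Y := Y) (Y' := Y')
      (fun k hk => wallS k (Or.inl ⟨s1, hk⟩)) (fun k hk => wallE k (Or.inl ⟨hk, s2⟩))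
    constructor
    · have h3 : (lo : ℝ) ≤ F.co.ps x := by linarith
      exact_mod_cast h3
    · have h3 : (F.co.ps x : ℝ) < hi := by linarith
      exact_mod_cast h3
  · obtain ⟨h1, h2⟩ := win_left hd η w hw' (T := T) (by simpa using hT) (by simpa using hT') hx hxT
      (a := a1 + 16 * C17 F.co F.b) (l := l) (by linarith) g1 g2 (Y := Y) (Y' := Y')
      (fun k hk => wallS k (Or.inr ⟨s1, hk⟩)) (fun k hk => wallE k (Or.inr ⟨hk, s2⟩))
    constructor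
    · have h3 : (lo : ℝ) ≤ F.co.ps x := by linarith
      exact_mod_cast h3
    · have h3 : (F.co.ps x : ℝ) < hi := by linarith
      exact_mod_cast h3

/-- Finitely many rare events. -/
theorem exists_good17 {ι : Type*} (I : Finset ι) (B : ι → Set Env) {p : ℝ} (hB : ∀ i ∈ I, (law F).real (B i) ≤ p)
    (h : I.card * p < 1) : ∃ η, ∀ i ∈ I, η ∉ B i := by
  by_contra hcon
  push Not at hcon
  have h1 : (Set.univ : Set Env) ⊆ ⋃ i ∈ I, B i := by
    intro η _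
    obtain ⟨i, hi, h2⟩ := hcon η
    exact mem_iUnion₂.2 ⟨i, hi, h2⟩
  have h2 := measureReal_mono h1 (measure_ne_top (law F) _)
  rw [probReal_univ] at h2
  have h3 := measureReal_biUnion_finset_le (μ := law F) I B
  have h4 : ∑ i ∈ I, (law F).real (B i) ≤ I.card * p := by
    refine (Finset.sum_le_sum hB).trans ?_
    rw [Finset.sum_const, nsmul_eq_mul]
  linarith

/-- Stationarity of the probabilities. -/
theorem X_real17 (F : Fm) (d : Dr) (a : Pt) (n : ℕ) (y : ℤ) {S : Set ℝ} (hS : MeasurableSet S) :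
    (law F).real {η | X F d η a n y ∈ S} = (law F).real {η | X F d η 0 n y ∈ S} := by
  have h := shp_real (F := F) (E := {η | X F d η 0 n y ∈ S}) ((X_meas F d 0 n y) hS) a
  rw [← h]
  congr 1
  ext η
  simp only [Set.mem_ofPred_eq]
  rw [X_shp, zero_add]

theorem VV_real17 (F : Fm) (d : Dr) (a : Pt) (n : ℕ) {S : Set ℝ} (hS : MeasurableSet S) :
    (law F).real {η | VV F d η a n ∈ S} = (law F).real {η | VV F d η 0 n ∈ S} := by
  have h := shp_real (F := F) (E := {η | VV F d η 0 n ∈ S}) ((VV_meas F d 0 n) hS) a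
  rw [← h]
  congr 1
  ext η
  simp only [Set.mem_ofPred_eq]
  rw [VV_shp, zero_add]

theorem Vr_real17 (F : Fm) (d : Dr) (a : Pt) (n : ℕ) {S : Set ℝ} (hS : MeasurableSet S) :
    (law F).real {η | Vr F d η a n ∈ S} = (law F).real {η | VV F d η 0 n ∈ S} := by
  have h := rf_real (F := F) (E := {η | VV F d η (-a) n ∈ S}) ((VV_meas F d (-a) n) hS)
  rw [← VV_real17 F d (-a) n hS, ← h]
  congr 1
  ext η
  simp only [Set.mem_ofPred_eq]
  rw [Vr_eq]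

theorem X_gt17 (F : Fm) (d : Dr) (a : Pt) (n : ℕ) (y : ℤ) (t : ℝ) :
    (law F).real {η | t < X F d η a n y} = (law F).real {η | t < X F d η 0 n y} :=
  X_real17 F d a n y (S := Ioi t) measurableSet_Ioi

theorem X_le17 (F : Fm) (d : Dr) (a : Pt) (n : ℕ) (y : ℤ) (t : ℝ) :
    (law F).real {η | X F d η a n y ≤ t} = (law F).real {η | X F d η 0 n y ≤ t} :=
  X_real17 F d a n y (S := Iic t) measurableSet_Iic

theorem X_lt17 (F : Fm) (d : Dr) (a : Pt) (n : ℕ) (y : ℤ) (t : ℝ) :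
    (law F).real {η | X F d η a n y < t} = (law F).real {η | X F d η 0 n y < t} :=
  X_real17 F d a n y (S := Iio t) measurableSet_Iio

theorem VV_gt17 (F : Fm) (d : Dr) (a : Pt) (n : ℕ) (t : ℝ) :
    (law F).real {η | t < VV F d η a n} = (law F).real {η | t < VV F d η 0 n} :=
  VV_real17 F d a n (S := Ioi t) measurableSet_Ioi

theorem Vr_gt17 (F : Fm) (d : Dr) (a : Pt) (n : ℕ) (t : ℝ) :
    (law F).real {η | t < Vr F d η a n} = (law F).real {η | t < VV F d η 0 n} :=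
  Vr_real17 F d a n (S := Ioi t) measurableSet_Ioi

/-- The bad events. -/
def bad17 (F : Fm) (d : Dr) (L n' K N : ℕ) (z : ℤ) (cc : ℕ → ℤ) (h μ : ℤ) (eL : ℤ → ℝ) (a1 r q B l B1 : ℝ)
    (Y Y' k₀ e' : ℕ → ℤ) (g j i i' : ℕ) : Set Env := match g with
    | 0 => {η | a1 < X F d η 0 N z}
    | 1 => {η | l < VV F d η 0 (tw L n' j).toNat}
    | 2 => {η | l < Vr F d η ((N : ℤ), z) (N - tw L n' j).toNat}
    | 3 => {η | X F d η 0 (tw L n' j).toNat (Y j) ≤ B1}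
    | 4 => {η | l < X F d η (0, k₀ j) (tw L n' j).toNat (Y j - k₀ j)}
    | 5 => {η | l < VV F d η (0, k₀ j) (tw L n' j).toNat}
    | 6 => {η | X F d η (tw L n' j, Y' j) (N - tw L n' j).toNat (z - Y' j) ≤ B1}
    | 7 => {η | l < X F d η (tw L n' j, Y' j) (N - tw L n' j).toNat (e' j - Y' j)}
    | 8 => {η | l < Vr F d η ((N : ℤ), e' j) (N - tw L n' j).toNat}
    | 9 => {η | r < X F d η (tw L n' j, cc j + i * μ) n' h}
    | 10 => {η | r < X F d η (tw L n' j, cc j + (i + 1) * μ) n' (h - μ)}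
    | 11 => {η | X F d η 0 L (cc 0 + i * μ + h) < min (eL (cc 0 + i * μ + h)) B - q}
    | 12 => {η | X F d η (tw L n' j, cc j + i * μ) L
        (cc (j + 1) + i' * μ + h - (cc j + i * μ)) <
        min (eL (cc (j + 1) + i' * μ + h - (cc j + i * μ))) B - q}
    | 13 => {η | X F d η (tw L n' K, cc K + i * μ) L (z - (cc K + i * μ)) <
        min (eL (z - (cc K + i * μ))) B - q}
    | _ => {η | l < Vr F d η (tw L n' (j + 1) + n', cc (j + 1) + i * μ + h) L}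

/-- **EXISTENCE OF A GOOD ENVIRONMENT.** All the events have complements of probability at most `p` (stated at the origin), and
`15 (K + 1) (J + 1) ^ 2 p < 1`. -/
theorem good17 (hd : Adm F κ d) {L n' K J : ℕ} (hn : n' < L) {z : ℤ} {cc : ℕ → ℤ} {h μ : ℤ} {eL : ℤ → ℝ}
    {a1 r q B l B1 p : ℝ} (hp : 0 ≤ p) (hcard : (15 * ((K + 1) * ((J + 1) * (J + 1))) : ℕ) * p < 1)
    (hB1 : a1 + 16 * C17 F.co F.b + 3 * l < B1) {Y Y' k₀ e' : ℕ → ℤ}
    (p0 : (law F).real {η | a1 < X F d η 0 (Nw L n' K) z} ≤ p)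
    (p1 : ∀ m : ℕ, 1 ≤ m → m ≤ Nw L n' K → (law F).real {η | l < VV F d η 0 m} ≤ p)
    (p3 : ∀ j ≤ K, (law F).real {η | X F d η 0 (tw L n' j).toNat (Y j) ≤ B1} ≤ p)
    (p4 : ∀ j ≤ K, (law F).real {η | l < X F d η 0 (tw L n' j).toNat (Y j - k₀ j)} ≤ p)
    (p6 : ∀ j ≤ K, (law F).real {η | X F d η 0 (Nw L n' K - tw L n' j).toNat (z - Y' j) ≤ B1} ≤ p)
    (p7 : ∀ j ≤ K, (law F).real {η | l < X F d η 0 (Nw L n' K - tw L n' j).toNat (e' j - Y' j)} ≤ p)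
    (p9 : (law F).real {η | r < X F d η 0 n' h} ≤ p) (p10 : (law F).real {η | r < X F d η 0 n' (h - μ)} ≤ p)
    (p11 : ∀ D : ℤ, (law F).real {η | X F d η 0 L D < min (eL D) B - q} ≤ p)
    (hs : ∀ j ≤ K, (0 ≤ k₀ j ∧ e' j ≤ z ∧ (cc j : ℝ) ≤ Y' j - (a1 + 16 * C17 F.co F.b + 2 * l) / (κ * F.co.M) ∧
        (Y j : ℝ) + (a1 + 16 * C17 F.co F.b + 2 * l) / (κ * F.co.M) < cc j + J * μ) ∨
      (k₀ j ≤ 0 ∧ z ≤ e' j ∧ (cc j : ℝ) ≤ Y j - (a1 + 16 * C17 F.co F.b + 2 * l) / (κ * F.co.M) ∧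
        (Y' j : ℝ) + (a1 + 16 * C17 F.co F.b + 2 * l) / (κ * F.co.M) < cc j + J * μ)) :
    ∃ η, Good17 F d L n' K J z cc h μ eL a1 r q B l η := by
  classical
  obtain ⟨N, hN⟩ : ∃ N, N = Nw L n' K := ⟨_, rfl⟩
  rw [← hN] at p0 p1 p6 p7
  have htp : ∀ j, 0 < tw L n' j := fun j => tw_pos hn j
  have htl : ∀ j ≤ K, tw L n' j + L ≤ N := fun j hj => hN ▸ tw_lt hn hj
  have hL1 : 1 ≤ L := by omega
  obtain ⟨I, hI⟩ : ∃ I : Finset (ℕ × ℕ × ℕ × ℕ), I = Finset.range 15 ×ˢ (Finset.range (K + 1) ×ˢ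
    (Finset.range (J + 1) ×ˢ Finset.range (J + 1))) := ⟨_, rfl⟩
  have hIc : I.card = 15 * ((K + 1) * ((J + 1) * (J + 1))) := by
    rw [hI]
    simp only [Finset.card_product, Finset.card_range]
  have hmem : ∀ g j i i' : ℕ, (g, j, i, i') ∈ I ↔ g < 15 ∧ j < K + 1 ∧ i < J + 1 ∧ i' < J + 1 := by
    intro g j i i'
    rw [hI]
    simp only [Finset.mem_product, Finset.mem_range]
  obtain ⟨Bd, hBd⟩ : ∃ Bd : ℕ → ℕ → ℕ → ℕ → Set Env, Bd = bad17 F d L n' K N z cc h μ eL a1 r q B l B1 Y Y' k₀ e' :=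
    ⟨_, rfl⟩
  have hB : ∀ g ∈ I, (law F).real (Bd g.1 g.2.1 g.2.2.1 g.2.2.2) ≤ p := by
    rintro ⟨g, j, i, i'⟩ hg
    obtain ⟨hg1, hj, hi, hi'⟩ := (hmem g j i i').1 hg
    have hj' : j ≤ K := by omega
    have t1 := htp j
    have t2 := htl j hj'
    rw [hBd]
    change (law F).real (bad17 F d L n' K N z cc h μ eL a1 r q B l B1 Y Y' k₀ e' g j i i') ≤ p
    have q1 : (law F).real {η | l < VV F d η 0 (tw L n' j).toNat} ≤ p := p1 _ (by omega) (by omega)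
    have q2 : (law F).real {η | l < VV F d η 0 ((N : ℤ) - tw L n' j).toNat} ≤ p := p1 _ (by omega) (by omega)
    have q3 : (law F).real {η | l < VV F d η 0 L} ≤ p := p1 _ (by omega) (by omega)
    interval_cases g
    · exact p0
    · exact q1
    · exact (Vr_gt17 F d _ _ _).le.trans q2
    · exact p3 j hj'
    · exact (X_gt17 F d _ _ _ _).le.trans (p4 j hj')
    · exact (VV_gt17 F d _ _ _).le.trans q1
    · exact (X_le17 F d _ _ _ _).le.trans (p6 j hj')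
    · exact (X_gt17 F d _ _ _ _).le.trans (p7 j hj')
    · exact (Vr_gt17 F d _ _ _).le.trans q2
    · exact (X_gt17 F d _ _ _ _).le.trans p9
    · exact (X_gt17 F d _ _ _ _).le.trans p10
    · exact p11 _
    · exact (X_lt17 F d _ _ _ _).le.trans (p11 _)
    · exact (X_lt17 F d _ _ _ _).le.trans (p11 _)
    · exact (Vr_gt17 F d _ _ _).le.trans q3
  obtain ⟨η, hη⟩ := exists_good17 I (fun g => Bd g.1 g.2.1 g.2.2.1 g.2.2.2) hB (by rw [hIc]; exact hcard)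
  have key : ∀ g j i i' : ℕ, g < 15 → j ≤ K → i ≤ J → i' ≤ J →
      η ∉ bad17 F d L n' K N z cc h μ eL a1 r q B l B1 Y Y' k₀ e' g j i i' := fun g j i i' h1 h2 h3 h4 => by
    rw [← hBd]
    exact hη (g, j, i, i') ((hmem g j i i').2 ⟨h1, by omega, by omega, by omega⟩)
  refine ⟨η, ?_, ?_, ?_, ?_, ?_, ?_, ?_, ?_⟩
  · rw [← hN]
    exact not_lt.1 (key 0 0 0 0 (by omega) (by omega) (by omega) (by omega))
  · rw [← hN]
    intro w hw hexc j hj x hx hxT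
    have k1 : ¬ l < VV F d η 0 (tw L n' j).toNat := key 1 j 0 0 (by omega) hj (by omega) (by omega)
    have k2 : ¬ l < Vr F d η ((N : ℤ), z) (N - tw L n' j).toNat := key 2 j 0 0 (by omega) hj (by omega) (by omega)
    have k3 : ¬ X F d η 0 (tw L n' j).toNat (Y j) ≤ B1 := key 3 j 0 0 (by omega) hj (by omega) (by omega)
    have k4 : ¬ l < X F d η (0, k₀ j) (tw L n' j).toNat (Y j - k₀ j) := key 4 j 0 0 (by omega) hj (by omega) (by omega)
    have k5 : ¬ l < VV F d η (0, k₀ j) (tw L n' j).toNat := key 5 j 0 0 (by omega) hj (by omega) (by omega)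
    have k6 : ¬ X F d η (tw L n' j, Y' j) (N - tw L n' j).toNat (z - Y' j) ≤ B1 :=
      key 6 j 0 0 (by omega) hj (by omega) (by omega)
    have k7 : ¬ l < X F d η (tw L n' j, Y' j) (N - tw L n' j).toNat (e' j - Y' j) :=
      key 7 j 0 0 (by omega) hj (by omega) (by omega)
    have k8 : ¬ l < Vr F d η ((N : ℤ), e' j) (N - tw L n' j).toNat := key 8 j 0 0 (by omega) hj (by omega) (by omega)
    rw [not_lt] at k1 k2 k4 k5 k7 k8
    rw [not_le] at k3 k6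
    have t2 := htl j hj
    refine pos17 hd η (htp j) (by omega) hB1 k1 k2 k3 k4 k5 k6 k7 k8 (lo := cc j) (hi := cc j + J * μ) ?_ w hw hexc hx hxT
    have h1 := hs j hj
    push_cast
    exact h1
  · intro j hj i hi
    exact ⟨not_lt.1 (key 9 j i 0 (by omega) hj hi (by omega)), not_lt.1 (key 10 j i 0 (by omega) hj hi (by omega))⟩
  · intro i hi
    exact not_lt.1 (key 11 0 i 0 (by omega) (by omega) hi (by omega))
  · intro j hj i hi i' hi'
    exact not_lt.1 (key 12 j i i' (by omega) hj.le hi hi')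
  · intro i hi
    exact not_lt.1 (key 13 0 i 0 (by omega) (by omega) hi (by omega))
  · intro j hj i hi
    exact not_lt.1 (key 14 j i 0 (by omega) hj.le hi (by omega))
  · rw [← hN]
    have k2 : ¬ l < Vr F d η ((N : ℤ), z) (N - tw L n' K).toNat := key 2 K 0 0 (by omega) le_rfl (by omega) (by omega)
    rw [not_lt] at k2
    have e : ((N : ℤ) - tw L n' K).toNat = L := by
      rw [hN, Nw_cast hn.le]
      unfold tw
      have : ((K : ℤ) + 2) * L - (K + 1) * n' - ((K : ℤ) + 1) * ((L : ℤ) - n') = L := by ring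
      rw [this]
      omega
    rw [e] at k2
    exact k2

end Pool.Agent.W_1b8d5d_h17p
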