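import Pool.Agent.W_1b8d5d_h17p.HookX17

/-!
MP_1b8d5d_pr, Track P, section 6. `K + 1` junctions at once, EXACT exchange with references: the new pieces are exchanged at
common vertices, there is no error term; the crossing hypothesis has a margin. (helper17)
-/

namespace Pool.Agent.W_1b8d5d_h17p

open MeasureTheory Set Pool.Agent.W_1b8d5d_h85 Pool.Agent.W_1b8d5d_p Pool.Agent.W_1b8d5d_p66
open Pool.Agent.W_1b8d5d_sc (split_first split_last)

variable {c : Co} {a b : ℝ} {τ : Env}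

/-- The margin. -/
def m0 (c : Co) : ℤ := c.M * c.R + 1

theorem m0_pos (c : Co) : 1 ≤ m0 c := by
  have h1 := c.M_pos
  have h2 := c.R_pos
  unfold m0
  nlinarith

theorem snd_lt {z z' : V} (h : c.ps z + m0 c ≤ c.ps z') (ht : |c.tm z - c.tm z'| ≤ c.M) : z.2 < z'.2 := by
  rw [c.snd_eq z, c.snd_eq z']
  have hp := c.hp
  have hM := c.M_pos
  have hs : |c.s| ≤ c.R := by
    unfold Co.R
    have := abs_nonneg c.r
    omega
  have h1 : (c.tm z - c.tm z') * c.s ≤ c.M * c.R := by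
    calc (c.tm z - c.tm z') * c.s ≤ |(c.tm z - c.tm z') * c.s| := le_abs_self _
      _ = |c.tm z - c.tm z'| * |c.s| := abs_mul _ _
      _ ≤ c.M * c.R := mul_le_mul ht hs (abs_nonneg _) (by omega)
  have h2 : m0 c * 1 ≤ (c.ps z' - c.ps z) * c.p :=
    mul_le_mul (by omega) hp (by norm_num) (by have := m0_pos c; omega)
  unfold m0 at h2
  nlinarith

/-- **CROSSING** of a walk through the strip and a walk in the strip. -/
theorem cross_strip {A B : ℤ} {u v x y : V} (P : grid.Walk u v) (Q : grid.Walk x y)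
    (hP : ∀ z ∈ P.support, (z = u ∨ A ≤ c.tm z) ∧ (z = v ∨ c.tm z ≤ B)) (hu : A - c.M < c.tm u ∧ c.tm u ≤ A)
    (hv : B ≤ c.tm v ∧ c.tm v < B + c.M) (hQ : ∀ z ∈ Q.support, A ≤ c.tm z ∧ c.tm z ≤ B) (hx : c.tm x = A)
    (hy : c.tm y = B) (h : (c.ps x + m0 c ≤ c.ps u ∧ c.ps v + m0 c ≤ c.ps y) ∨
      (c.ps u + m0 c ≤ c.ps x ∧ c.ps y + m0 c ≤ c.ps v)) : ∃ z, z ∈ P.support ∧ z ∈ Q.support := by
  have hp := c.hp
  have hM := c.M_pos
  have key : ∀ u v : V, u.2 = v.2 → c.tm u ≤ c.tm v → u.1 ≤ v.1 := by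
    intro u v huv h
    unfold Co.tm at h
    rw [huv] at h
    by_contra hcon
    push Not at hcon
    have := mul_lt_mul_of_pos_left hcon (by linarith : (0 : ℤ) < c.p)
    linarith
  have hAB : A ≤ B := by
    have := hQ x Q.start_mem_support
    linarith [this.1, this.2]
  have t1 : |c.tm u - c.tm x| ≤ c.M := by rw [hx, abs_le]; constructor <;> omega
  have t1' : |c.tm x - c.tm u| ≤ c.M := by rw [abs_sub_comm]; exact t1
  have t2 : |c.tm v - c.tm y| ≤ c.M := by rw [hy, abs_le]; constructor <;> omega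
  have t2' : |c.tm y - c.tm v| ≤ c.M := by rw [abs_sub_comm]; exact t2
  rcases h with ⟨h1, h2⟩ | ⟨h1, h2⟩
  · -- `x` below `u`, `v` below `y`
    have e1 : x.2 < u.2 := snd_lt h1 t1'
    have e2 : v.2 < y.2 := snd_lt h2 t2
    obtain ⟨z, hz, hz'⟩ := cross_rays Q P e1 e2
      (fun z hz h => by
        rcases (hP z hz).1 with rfl | h3
        · omega
        · exact key _ _ h.symm (by rw [hx]; exact h3))
      (fun z hz h => by
        rcases (hP z hz).2 with rfl | h3
        · omega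
        · exact key _ _ h (by rw [hy]; exact h3))
      (fun z hz h => key _ _ h.symm (hu.2.trans (hQ z hz).1))
      (fun z hz h => key _ _ h ((hQ z hz).2.trans hv.1))
      (fun h => key _ _ h (by rw [hx]; exact hAB.trans hv.1))
      (fun h => key _ _ h.symm (by rw [hy]; exact hu.2.trans hAB))
    exact ⟨z, hz', hz⟩
  · have e1 : u.2 < x.2 := snd_lt h1 t1
    have e2 : y.2 < v.2 := snd_lt h2 t2'
    exact cross_rays P Q e1 e2
      (fun z hz h => key _ _ h.symm (hu.2.trans (hQ z hz).1))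
      (fun z hz h => key _ _ h ((hQ z hz).2.trans hv.1))
      (fun z hz h => by
        rcases (hP z hz).1 with rfl | h3
        · omega
        · exact key _ _ h.symm (by rw [hx]; exact h3))
      (fun z hz h => by
        rcases (hP z hz).2 with rfl | h3
        · omega
        · exact key _ _ h (by rw [hy]; exact h3))
      (fun h => key _ _ h (by rw [hy]; exact hu.2.trans hAB))
      (fun h => key _ _ h.symm (by rw [hx]; exact hAB.trans hv.1))

/-- Edges of a slab by the times of the vertices. -/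
theorem mem_slab17 {t t₃ : ℤ} {x y m m' : V} {W : grid.Walk x y}
    (hl : ∀ z ∈ W.support, c.L * t ≤ c.tm z ∧ (c.tm z = c.L * t → z = m))
    (hu : ∀ z ∈ W.support, c.tm z ≤ c.L * t₃ ∧ (c.tm z = c.L * t₃ → z = m')) : ∀ e ∈ wedges W, e ∈ c.slab t t₃ := by
  intro e he
  obtain ⟨a1, a2⟩ := wedges_support W he
  have h1 := c.tm_edge e
  have hne := add_dir_ne e.1 e.2
  refine ⟨(hl _ a1).1, (hu _ a2).1, ?_, ?_⟩
  · by_contra h
    push Not at h
    have b1 : c.tm e.1 = c.L * t₃ := le_antisymm (hu _ a1).1 h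
    have b2 : c.tm (e.1 + dir e.2) = c.L * t₃ := le_antisymm (hu _ a2).1 (by omega)
    exact hne (((hu _ a2).2 b2).trans ((hu _ a1).2 b1).symm)
  · by_contra h
    push Not at h
    have b2 : c.tm (e.1 + dir e.2) = c.L * t := le_antisymm h (hl _ a2).1
    have b1 : c.tm e.1 = c.L * t := le_antisymm (by omega) (hl _ a1).1
    exact hne (((hl _ a2).2 b2).trans ((hl _ a1).2 b1).symm)

/-- The part of the walk through the strip `(A, B)` from `u` to `v`, cost `x`; `Z` = the set of the vertices of the walk. -/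
def Mid (c : Co) (τ : Env) (S : Set Edge) (Z : V → Prop) (A B : ℤ) (u v : V) (x : ℝ) : Prop :=
  ∃ (u₀ v₀ : V) (_ : grid.Adj u u₀) (J : grid.Walk u₀ v₀) (_ : grid.Adj v₀ v),
    x = τ (ke s(u, u₀)) + cost τ J + τ (ke s(v₀, v)) ∧ ke s(u, u₀) ∈ S ∧ ke s(v₀, v) ∈ S ∧
      (∀ e ∈ wedges J, e ∈ S) ∧ ∀ z ∈ J.support, Z z ∧ A < c.tm z ∧ c.tm z < B

/-- Cut of the part through the strip at a vertex of the closed strip. -/
theorem splitJ {A B : ℤ} {u v : V} {u₀ v₀ : V} (h : grid.Adj u u₀)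
    (J : grid.Walk u₀ v₀) (h' : grid.Adj v₀ v)
    (hJ : ∀ z ∈ J.support, A < c.tm z ∧ c.tm z < B) (hu : c.tm u ≤ A) (hv : B ≤ c.tm v) {m : V}
    (hm : m = u ∨ m ∈ J.support ∨ m = v) (hmA : A ≤ c.tm m) (hmB : c.tm m ≤ B) (hAB : A < B) :
    ∃ (P₁ : grid.Walk u m) (P₂ : grid.Walk m v), cost τ P₁ + cost τ P₂ = τ (ke s(u, u₀)) + cost τ J + τ (ke s(v₀, v)) ∧
      (∀ z ∈ P₁.support, (z = u ∨ A < c.tm z) ∧ c.tm z ≤ B ∧ (c.tm z = B → z = m)) ∧
      (∀ z ∈ P₂.support, (z = v ∨ c.tm z < B) ∧ A ≤ c.tm z ∧ (c.tm z = A → z = m)) := by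
  classical
  have full : cost τ (SimpleGraph.Walk.cons h (J.append (.cons h' .nil))) =
      τ (ke s(u, u₀)) + cost τ J + τ (ke s(v₀, v)) := by
    rw [cost_cons, cost_append, cost_cons]
    simp [cost, wedges]
    ring
  have fullsup : ∀ z ∈ (SimpleGraph.Walk.cons h (J.append (.cons h' .nil))).support, z = u ∨ z ∈ J.support ∨ z = v := by
    intro z hz
    rw [SimpleGraph.Walk.support_cons, List.mem_cons, SimpleGraph.Walk.mem_support_append_iff,
      SimpleGraph.Walk.support_cons, List.mem_cons, SimpleGraph.Walk.support_nil, List.mem_singleton] at hz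
    rcases hz with hz | hz | rfl | hz
    · exact Or.inl hz
    · exact Or.inr (Or.inl hz)
    · exact Or.inr (Or.inl J.end_mem_support)
    · exact Or.inr (Or.inr hz)
  rcases hm with rfl | hm | rfl
  · -- `m = u`
    refine ⟨.nil, .cons h (J.append (.cons h' .nil)), ?_, ?_, ?_⟩
    · rw [full]
      simp [cost, wedges]
    · intro z hz
      rw [SimpleGraph.Walk.support_nil, List.mem_singleton] at hz
      subst hz
      exact ⟨Or.inl rfl, hmB, fun _ => rfl⟩
    · intro z hz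
      rcases fullsup z hz with rfl | h1 | rfl
      · exact ⟨Or.inr (by omega), hmA, fun _ => rfl⟩
      · have := hJ z h1
        exact ⟨Or.inr this.2, this.1.le, fun h2 => by omega⟩
      · exact ⟨Or.inl rfl, by omega, fun h2 => by omega⟩
  · -- `m` inside
    refine ⟨.cons h (J.takeUntil m hm), (J.dropUntil m hm).append (.cons h' .nil), ?_, ?_, ?_⟩
    · have h1 : cost τ J = cost τ (J.takeUntil m hm) + cost τ (J.dropUntil m hm) := by
        rw [← cost_append, J.take_spec hm]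
      rw [cost_cons, cost_append, cost_cons, h1]
      simp [cost, wedges]
      ring
    · intro z hz
      rw [SimpleGraph.Walk.support_cons, List.mem_cons] at hz
      rcases hz with rfl | hz
      · exact ⟨Or.inl rfl, by omega, fun h2 => by omega⟩
      · have := hJ z (J.support_takeUntil_subset_support hm hz)
        exact ⟨Or.inr this.1, this.2.le, fun h2 => by omega⟩
    · intro z hz
      rw [SimpleGraph.Walk.mem_support_append_iff, SimpleGraph.Walk.support_cons, List.mem_cons,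
        SimpleGraph.Walk.support_nil, List.mem_singleton] at hz
      rcases hz with hz | rfl | rfl
      · have := hJ z (J.support_dropUntil_subset_support hm hz)
        exact ⟨Or.inr this.2, this.1.le, fun h2 => by omega⟩
      · have := hJ z J.end_mem_support
        exact ⟨Or.inr this.2, this.1.le, fun h2 => by omega⟩
      · exact ⟨Or.inl rfl, by omega, fun h2 => by omega⟩
  · -- `m = v`
    refine ⟨.cons h (J.append (.cons h' .nil)), .nil, ?_, ?_, ?_⟩
    · rw [full]
      simp [cost, wedges]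
    · intro z hz
      rcases fullsup z hz with rfl | h1 | rfl
      · exact ⟨Or.inl rfl, by omega, fun h2 => by omega⟩
      · have := hJ z h1
        exact ⟨Or.inr this.1, this.2.le, fun h2 => by omega⟩
      · exact ⟨Or.inr (by omega), hmB, fun _ => rfl⟩
    · intro z hz
      rw [SimpleGraph.Walk.support_nil, List.mem_singleton] at hz
      subst hz
      exact ⟨Or.inl rfl, hmA, fun h2 => by omega⟩

/-- **THE EXCHANGE AT ONE JUNCTION, EXACT.** -/
theorem junction17 (ha : 0 < a) (hτ : Bd a b τ) {S : Set Edge} {Z : V → Prop} {t : ℤ} {R : ℕ} (hR : 1 ≤ R) {u v : V}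
    {x : ℝ} (hM : Mid c τ S Z (c.L * t) (c.L * (t + R)) u v x) (hu : c.L * t - c.M < c.tm u ∧ c.tm u ≤ c.L * t)
    (hv : c.L * (t + R) ≤ c.tm v ∧ c.tm v < c.L * (t + R) + c.M) {z z' : ℤ}
    (h : (z + m0 c ≤ c.ps u ∧ c.ps v + m0 c ≤ z') ∨ (c.ps u + m0 c ≤ z ∧ z' + m0 c ≤ c.ps v)) :
    ∃ (Φ : grid.Walk (c.vt (t, z)) v) (Ψ : grid.Walk u (c.vt (t + R, z'))),
      cost τ Φ + cost τ Ψ = x + TT c τ (t, z) R (z' - z) ∧ (∀ e ∈ wedges Φ, e ∈ c.slab t (t + R + 1)) ∧
        (∀ e ∈ wedges Ψ, e ∈ c.slab (t - 1) (t + R)) := by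
  classical
  have hL := c.L_eq
  have hMp := c.M_pos
  have hLp := c.L_pos
  have g1 : c.L * t + c.L ≤ c.L * (t + R) := by
    have : c.L * (t + 1) ≤ c.L * (t + R) := mul_le_mul_of_nonneg_left (by omega) (by omega)
    linarith [mul_add c.L t 1]
  have g2 : c.L * (t + R + 1) = c.L * (t + R) + c.L := by ring
  have g3 : c.L * (t - 1) = c.L * t - c.L := by ring
  obtain ⟨u₀, v₀, hadj, J, hadj', hx, hS1, hS2, hS3, hJ⟩ := hM
  -- the minimal walk of the reference
  have hne : Nonempty (WK (c.slab t (t + R)) (c.vt (t, z)) (c.vt (t + R, z'))) :=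
    Co.slab_ne (by omega) ⟨by rw [Co.tm_vt], by rw [Co.tm_vt]; simp only; omega⟩
      ⟨by rw [Co.tm_vt]; simp only; omega, by rw [Co.tm_vt]⟩
  obtain ⟨ρ, -, hρS, hρ⟩ := TR_min hτ ha hne
  rw [TR_slab_eq c τ (t := t + R) rfl] at hρ
  have hρt : ∀ w ∈ ρ.support, c.L * t ≤ c.tm w ∧ c.tm w ≤ c.L * (t + R) := Co.tm_of_slab hρS
    ⟨by rw [Co.tm_vt], by rw [Co.tm_vt]; simp only; omega⟩
  -- the crossing
  obtain ⟨m, hm, hmρ⟩ := cross_strip (c := c) (A := c.L * t) (B := c.L * (t + R))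
    (SimpleGraph.Walk.cons hadj (J.append (.cons hadj' .nil))) ρ (by
      intro w hw
      rw [SimpleGraph.Walk.support_cons, List.mem_cons, SimpleGraph.Walk.mem_support_append_iff,
        SimpleGraph.Walk.support_cons, List.mem_cons, SimpleGraph.Walk.support_nil, List.mem_singleton] at hw
      rcases hw with rfl | hw | rfl | rfl
      · exact ⟨Or.inl rfl, Or.inr (by omega)⟩
      · have := hJ w hw
        exact ⟨Or.inr this.2.1.le, Or.inr this.2.2.le⟩
      · have := hJ w J.end_mem_support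
        exact ⟨Or.inr this.2.1.le, Or.inr this.2.2.le⟩
      · exact ⟨Or.inr (by omega), Or.inl rfl⟩) hu hv hρt (by rw [Co.tm_vt]) (by rw [Co.tm_vt])
    (by rw [Co.ps_vt, Co.ps_vt]; exact h)
  have hm' : m = u ∨ m ∈ J.support ∨ m = v := by
    rw [SimpleGraph.Walk.support_cons, List.mem_cons, SimpleGraph.Walk.mem_support_append_iff,
      SimpleGraph.Walk.support_cons, List.mem_cons, SimpleGraph.Walk.support_nil, List.mem_singleton] at hm
    rcases hm with rfl | hm | rfl | rfl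
    · exact Or.inl rfl
    · exact Or.inr (Or.inl hm)
    · exact Or.inr (Or.inl J.end_mem_support)
    · exact Or.inr (Or.inr rfl)
  obtain ⟨P₁, P₂, hP, hP₁, hP₂⟩ := splitJ (c := c) (τ := τ) hadj J hadj'
    (fun w hw => (hJ w hw).2) hu.2 hv.1 hm' (hρt m hmρ).1 (hρt m hmρ).2 (by omega)
  obtain ⟨ρ₁, ρ₂, hρ12⟩ : ∃ (ρ₁ : grid.Walk (c.vt (t, z)) m) (ρ₂ : grid.Walk m (c.vt (t + R, z'))), ρ = ρ₁.append ρ₂ :=
    ⟨ρ.takeUntil m hmρ, ρ.dropUntil m hmρ, (ρ.take_spec hmρ).symm⟩
  have hcρ : cost τ ρ = cost τ ρ₁ + cost τ ρ₂ := by rw [hρ12, cost_append]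
  have hρ1S : ∀ e ∈ wedges ρ₁, e ∈ c.slab t (t + R) := fun e he => hρS e (by
    rw [hρ12, wedges_append, List.mem_append]; exact Or.inl he)
  have hρ2S : ∀ e ∈ wedges ρ₂, e ∈ c.slab t (t + R) := fun e he => hρS e (by
    rw [hρ12, wedges_append, List.mem_append]; exact Or.inr he)
  have hP1S : ∀ e ∈ wedges P₁, e ∈ c.slab (t - 1) (t + R) := by
    refine mem_slab17 (m := m) (m' := m) (fun w hw => ?_) (fun w hw => (hP₁ w hw).2)
    rcases (hP₁ w hw).1 with rfl | h1
    · exact ⟨by omega, fun h2 => by omega⟩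
    · exact ⟨by omega, fun h2 => by omega⟩
  have hP2S : ∀ e ∈ wedges P₂, e ∈ c.slab t (t + R + 1) := by
    refine mem_slab17 (m := m) (m' := m) (fun w hw => (hP₂ w hw).2) (fun w hw => ?_)
    rcases (hP₂ w hw).1 with rfl | h1
    · exact ⟨by omega, fun h2 => by omega⟩
    · exact ⟨by omega, fun h2 => by omega⟩
  refine ⟨ρ₁.append P₂, P₁.append ρ₂, ?_, ?_, ?_⟩
  · rw [cost_append, cost_append, hx, ← hP, ← hρ, hcρ]
    ring
  · intro e he
    rw [wedges_append, List.mem_append] at he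
    exact he.elim (fun h => Co.slab_mono le_rfl (by omega) (hρ1S e h)) (hP2S e)
  · intro e he
    rw [wedges_append, List.mem_append] at he
    exact he.elim (hP1S e) (fun h => Co.slab_mono (by omega) le_rfl (hρ2S e h))

/-- THE WALK DECOMPOSITION, with the vertices `u j` (last visit of a time at most `L (t j)` before) and `v j` (first visit of a
time at least `L (t j + R j)`). -/
theorem hook_walk2 {S : Set Edge} {y : V} : ∀ (K : ℕ) (t : ℕ → ℤ) (R : ℕ → ℕ) {x : V} (w : grid.Walk x y)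
    (_ : ∀ e ∈ wedges w, e ∈ S) (_ : 0 < K → c.tm x ≤ c.L * t 0) (_ : ∀ j < K, 1 ≤ R j)
    (_ : ∀ j, j + 1 < K → t j + R j + 1 ≤ t (j + 1)) (_ : ∀ j < K, c.L * (t j + R j) ≤ c.tm y),
    ∃ (u v : ℕ → V) (X Y : ℕ → ℝ),
      (∑ j ∈ Finset.range K, (Y j + X j)) + Y K = cost τ w ∧
      (∀ j < K, (u j ∈ w.support ∧ v j ∈ w.support) ∧ (c.L * t j - c.M < c.tm (u j) ∧ c.tm (u j) ≤ c.L * t j) ∧
        c.L * (t j + R j) ≤ c.tm (v j) ∧ c.tm (v j) < c.L * (t j + R j) + c.M) ∧
      (∀ j < K, Mid c τ S (fun z => z ∈ w.support) (c.L * t j) (c.L * (t j + R j)) (u j) (v j) (X j)) ∧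
      (∀ j < K, ∃ G : grid.Walk (pv x v j) (u j), cost τ G = Y j ∧ (∀ e ∈ wedges G, e ∈ S) ∧
        ∀ z ∈ G.support, z ∈ w.support ∧ c.tm z < c.L * (t j + R j)) ∧
      (∃ G : grid.Walk (pv x v K) y, cost τ G = Y K ∧ (∀ e ∈ wedges G, e ∈ S) ∧ ∀ z ∈ G.support, z ∈ w.support) := by
  have hL := c.L_eq
  have hM := c.M_pos
  have hLp := c.L_pos
  intro K
  induction K with
  | zero =>
    intro t R x w hS _ _ _ _
    refine ⟨fun _ => x, fun _ => x, fun _ => 0, fun _ => cost τ w, by simp, ?_, ?_, ?_, ⟨w, rfl, hS, fun z hz => hz⟩⟩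
    all_goals intro j hj; omega
  | succ K ih =>
    intro t R x w hS hx hR ht hy
    have hx0 := hx (by omega)
    have hR0 := hR 0 (by omega)
    have hy0 := hy 0 (by omega)
    have g1 : c.L * t 0 + c.L ≤ c.L * (t 0 + R 0) := by
      have : c.L * (t 0 + 1) ≤ c.L * (t 0 + R 0) := mul_le_mul_of_nonneg_left (by omega) (by omega)
      linarith [mul_add c.L (t 0) 1]
    -- the first vertex of time at least `L (t 0 + R 0)`
    obtain ⟨x', v₀, w₁, hadj, w₂, hw, hw₁, hv₀⟩ := split_first (fun z => c.L * (t 0 + R 0) ≤ c.tm z) w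
      (by omega) ⟨_, w.end_mem_support, hy0⟩
    have hw₁lt : ∀ z ∈ w₁.support, c.tm z < c.L * (t 0 + R 0) := fun z hz => not_le.1 (hw₁ z hz)
    have had := Pool.Agent.W_1b8d5d_p66.tm_adj (c := c) hadj
    rw [abs_le] at had
    have hx'lt := hw₁lt x' w₁.end_mem_support
    have hx'1 : c.L * t 0 < c.tm x' := by omega
    -- the last vertex of time at most `L (t 0)` before
    obtain ⟨u', u₀, w₁₁, hadu, w₁₂, hwu, hw₁₂, hu'⟩ := split_last (fun z => c.L * t 0 < c.tm z) w₁
      ⟨_, w₁.start_mem_support, by omega⟩ hx'1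
    rw [not_lt] at hu'
    have hadu' := Pool.Agent.W_1b8d5d_p66.tm_adj (c := c) hadu
    rw [abs_le] at hadu'
    have hu₀ := hw₁₂ u₀ w₁₂.start_mem_support
    -- the rest
    have ew : w = w₁₁.append (.cons hadu (w₁₂.append (.cons hadj w₂))) := by
      rw [hw, hwu, ← SimpleGraph.Walk.append_assoc]
      rfl
    have sup : ∀ z, z ∈ w.support ↔ z ∈ w₁₁.support ∨ z ∈ w₁₂.support ∨ z ∈ w₂.support := by
      intro z
      rw [ew, SimpleGraph.Walk.mem_support_append_iff, SimpleGraph.Walk.support_cons, List.mem_cons,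
        SimpleGraph.Walk.mem_support_append_iff, SimpleGraph.Walk.support_cons, List.mem_cons]
      constructor
      · rintro (h | rfl | h | rfl | h)
        · exact Or.inl h
        · exact Or.inl w₁₁.end_mem_support
        · exact Or.inr (Or.inl h)
        · exact Or.inr (Or.inl w₁₂.end_mem_support)
        · exact Or.inr (Or.inr h)
      · rintro (h | h | h)
        · exact Or.inl h
        · exact Or.inr (Or.inr (Or.inl h))
        · exact Or.inr (Or.inr (Or.inr (Or.inr h)))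
    have edg : ∀ e, e ∈ wedges w ↔ e ∈ wedges w₁₁ ∨ e = ke s(u', u₀) ∨ e ∈ wedges w₁₂ ∨ e = ke s(x', v₀) ∨
        e ∈ wedges w₂ := by
      intro e
      rw [ew, wedges_append, List.mem_append, Pool.Agent.W_1b8d5d_p66.mem_cons, wedges_append, List.mem_append,
        Pool.Agent.W_1b8d5d_p66.mem_cons]
    have cw : cost τ w = cost τ w₁₁ + (τ (ke s(u', u₀)) + (cost τ w₁₂ + (τ (ke s(x', v₀)) + cost τ w₂))) := by
      rw [ew, cost_append, cost_cons, cost_append, cost_cons]
    -- the induction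
    obtain ⟨u, v, X, Y, h1, h2, h3, h4, h5⟩ := ih (fun j => t (j + 1)) (fun j => R (j + 1)) w₂
      (fun e he => hS e ((edg e).2 (Or.inr (Or.inr (Or.inr (Or.inr he))))))
      (fun hK => by
        have := ht 0 (by omega)
        have h6 : c.L * (t 0 + R 0 + 1) ≤ c.L * t (0 + 1) := mul_le_mul_of_nonneg_left this (by omega)
        have h7 : c.L * (t 0 + R 0 + 1) = c.L * (t 0 + R 0) + c.L := by ring
        omega)
      (fun j hj => hR (j + 1) (by omega)) (fun j hj => ht (j + 1) (by omega)) (fun j hj => hy (j + 1) (by omega))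
    have up : ∀ {z}, z ∈ w₂.support → z ∈ w.support := fun hz => (sup _).2 (Or.inr (Or.inr hz))
    refine ⟨ns u' u, ns v₀ v, ns (τ (ke s(u', u₀)) + cost τ w₁₂ + τ (ke s(x', v₀))) X, ns (cost τ w₁₁) Y, ?_, ?_, ?_, ?_, ?_⟩
    · rw [Finset.sum_range_succ']
      simp only [ns]
      rw [cw, ← h1]
      ring
    · intro j hj
      rcases j with _ | j
      · simp only [ns]
        exact ⟨⟨(sup _).2 (Or.inl w₁₁.end_mem_support), up w₂.start_mem_support⟩, ⟨by omega, hu'⟩, hv₀, by omega⟩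
      · obtain ⟨⟨k1, k2⟩, k3⟩ := h2 j (by omega)
        exact ⟨⟨up k1, up k2⟩, k3⟩
    · intro j hj
      rcases j with _ | j
      · refine ⟨u₀, x', hadu, w₁₂, hadj, rfl, hS _ ((edg _).2 (Or.inr (Or.inl rfl))),
          hS _ ((edg _).2 (Or.inr (Or.inr (Or.inr (Or.inl rfl))))),
          fun e he => hS e ((edg e).2 (Or.inr (Or.inr (Or.inl he)))), fun z hz => ⟨?_, hw₁₂ z hz, ?_⟩⟩
        · exact (sup z).2 (Or.inr (Or.inl hz))
        · refine hw₁lt z ?_
          rw [hwu, SimpleGraph.Walk.mem_support_append_iff, SimpleGraph.Walk.support_cons, List.mem_cons]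
          exact Or.inr (Or.inr hz)
      · obtain ⟨k1, k2, k3, k4, k5, k6, k7, k8, k9, k10⟩ := h3 j (by omega)
        exact ⟨k1, k2, k3, k4, k5, k6, k7, k8, k9, fun z hz => ⟨up (k10 z hz).1, (k10 z hz).2⟩⟩
    · intro j hj
      rcases j with _ | _ | j
      · refine ⟨w₁₁, rfl, fun e he => hS e ((edg e).2 (Or.inl he)), fun z hz => ⟨(sup z).2 (Or.inl hz), hw₁lt z ?_⟩⟩
        rw [hwu, SimpleGraph.Walk.mem_support_append_iff]
        exact Or.inl hz
      · obtain ⟨J, j1, j2, j3⟩ := h4 0 (by omega)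
        exact ⟨J, j1, j2, fun z hz => ⟨up (j3 z hz).1, (j3 z hz).2⟩⟩
      · obtain ⟨J, j1, j2, j3⟩ := h4 (j + 1) (by omega)
        exact ⟨J, j1, j2, fun z hz => ⟨up (j3 z hz).1, (j3 z hz).2⟩⟩
    · rcases K with _ | K
      · obtain ⟨J, j1, j2, j3⟩ := h5
        exact ⟨J, j1, j2, fun z hz => up (j3 z hz)⟩
      · obtain ⟨J, j1, j2, j3⟩ := h5
        exact ⟨J, j1, j2, fun z hz => up (j3 z hz)⟩

/-- The value of a piece: the passage time, or (`o = some k`: a return to the position `k` at the time `t` after the visit of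
the time `t + R`) the price of the return and the passage time from `k`. -/
noncomputable def ET (c : Co) (a b : ℝ) (τ : Env) (o : Option ℤ) (t : ℤ) (R : ℕ) (z : ℤ) (n : ℕ) (z' : ℤ) : ℝ :=
  match o with
  | none => TT c τ (t, z) n (z' - z)
  | some k => max (a * (c.M * |(k : ℝ) - z|)) (a * (2 * R)) - 2 * C17 c b + TT c τ (t, k) n (z' - k)

/-- The same for the excess. -/
noncomputable def EX (F : Fm) (κ : ℝ) (d : Dr) (η : Env) (o : Option ℤ) (t : ℤ) (R : ℕ) (z : ℤ) (n : ℕ) (z' : ℤ) : ℝ :=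
  match o with
  | none => X F d η (t, z) n (z' - z)
  | some k => κ * R + κ / 2 * (F.co.M * |(k : ℝ) - z|) - 2 * C17 F.co F.b + X F d η (t, k) n (z' - k)

theorem EX_le_ET {F : Fm} {κ : ℝ} {d : Dr} (hd : Adm F κ d) (η : Env) (o : Option ℤ) (t : ℤ) (R : ℕ) (z : ℤ) (n : ℕ)
    (z' : ℤ) : EX F κ d η o t R z n z' ≤
      ET F.co F.a F.b (F.tau η) o t R z n z' - (al F.co d * n + be F.co d * (z' - z)) := by
  have h := PX_le_PT hd η o t R z n z'
  rcases o with _ | k
  · exact h
  · simp only [PX, PT] at h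
    simp only [EX, ET]
    linarith

/-- **A piece between two junctions**: from `z` at the time `t` to `z'` at the time `t₃`; `G` from `v` to `u`, `Φ` to `v`, `Ψ`
from `u`. -/
theorem pieceE (ha : 0 < a) (hab : a ≤ b) (hτ : Bd a b τ) {s N t t' t₃ : ℤ} {R : ℕ} (hR : 1 ≤ R) (ht' : t + R < t')
    (ht₃ : t' ≤ t₃) {v p : V} (hv : c.L * (t + R) ≤ c.tm v ∧ c.tm v < c.L * (t + R) + c.M)
    (hp : c.L * t < c.tm p) (G : grid.Walk v p) (hG : ∀ e ∈ wedges G, e ∈ c.slab s N)
    (h2 : t₃ = N ∨ ∀ z ∈ G.support, c.tm z < c.L * t₃) :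
    ∃ o : Option ℤ, (∀ k, o = some k → ∃ z ∈ G.support, c.ps z = k ∧ c.L * t < c.tm z ∧ c.tm z ≤ c.L * t + c.M) ∧
      ∀ (z z' : ℤ) (Φ : grid.Walk (c.vt (t, z)) v) (Ψ : grid.Walk p (c.vt (t₃, z'))),
        (∀ e ∈ wedges Φ, e ∈ c.slab t t₃) → (∀ e ∈ wedges Ψ, e ∈ c.slab t t₃) →
        ET c a b τ o t R z (t₃ - t).toNat z' ≤ cost τ Φ + cost τ G + cost τ Ψ := by
  have hb : 0 < b := ha.trans_le hab
  have hL := c.L_eq
  have hM := c.M_pos
  have hLp := c.L_pos
  have g1 : c.L * t + c.L ≤ c.L * (t + R) := by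
    have : c.L * (t + 1) ≤ c.L * (t + R) := mul_le_mul_of_nonneg_left (by omega) (by omega)
    linarith [mul_add c.L t 1]
  have g2 : c.L * (t + R) + c.L ≤ c.L * t₃ := by
    have : c.L * (t + R + 1) ≤ c.L * t₃ := mul_le_mul_of_nonneg_left (by omega) (by omega)
    linarith [mul_add c.L (t + R) 1]
  have eD : ∀ z z' : ℤ, TR (c.slab t t₃) τ (c.vt (t, z)) (c.vt (t₃, z')) = TT c τ (t, z) (t₃ - t).toNat (z' - z) :=
    fun z z' => TR_slab_eq c τ (by omega) z z'
  by_cases hret : ∀ z ∈ G.support, c.L * t < c.tm z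
  · refine ⟨none, fun k hk => absurd hk (by simp), fun z z' Φ Ψ hΦ hΨ => ?_⟩
    simp only [ET]
    rw [← eD]
    have hGS : ∀ e ∈ wedges G, e ∈ c.slab t t₃ := slab_walk hG (Or.inr hret) (h2.imp id id)
    have h := TR_le hτ ha.le (S := c.slab t t₃) (Φ.append (G.append Ψ)) (fun e he => by
      rw [wedges_append, wedges_append, List.mem_append, List.mem_append] at he
      rcases he with he | he | he
      · exact hΦ e he
      · exact hGS e he
      · exact hΨ e he)
    rw [cost_append, cost_append] at h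
    linarith
  · push Not at hret
    obtain ⟨z₀, hz₀, hz₀t⟩ := hret
    obtain ⟨q', k, G₁, hadk, G₂, hGk, hG₂, hq'⟩ := split_last (fun z => c.L * t < c.tm z) G ⟨z₀, hz₀, not_lt.2 hz₀t⟩ hp
    rw [not_lt] at hq'
    have hadk' := Pool.Agent.W_1b8d5d_p66.tm_adj (c := c) hadk
    rw [abs_le] at hadk'
    have hk := hG₂ k G₂.start_mem_support
    have hkG : k ∈ G.support := by
      rw [hGk, SimpleGraph.Walk.mem_support_append_iff, SimpleGraph.Walk.support_cons, List.mem_cons]
      exact Or.inr (Or.inr G₂.start_mem_support)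
    have hcG : cost τ G = cost τ G₁ + (τ (ke s(q', k)) + cost τ G₂) := by rw [hGk, cost_append, cost_cons]
    have G₂sup : ∀ z ∈ G₂.support, z ∈ G.support := fun z hz => by
      rw [hGk, SimpleGraph.Walk.mem_support_append_iff, SimpleGraph.Walk.support_cons, List.mem_cons]
      exact Or.inr (Or.inr hz)
    have hG₂S : ∀ e ∈ wedges G₂, e ∈ c.slab t t₃ := slab_walk (fun e he => hG e (by
      rw [hGk, wedges_append, List.mem_append, Pool.Agent.W_1b8d5d_p66.mem_cons]
      exact Or.inr (Or.inr he))) (Or.inr hG₂) (h2.imp id fun h z hz => h z (G₂sup z hz))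
    have hkt : |c.tm k - c.L * t| ≤ c.M := by rw [abs_le]; constructor <;> omega
    have neark := nm_near (c := c) hkt
    obtain ⟨p4, hp4, lp4⟩ := conn_near (c := c) hb (z := k) (s := t) (t := t₃) (n := t) (by omega)
      ⟨le_rfl, by omega⟩ ⟨hk.le, by omega⟩ hkt
    -- the walk from `v` to `k`
    obtain ⟨wr, hwr⟩ : ∃ wr : grid.Walk v k, wr = G₁.append (.cons hadk .nil) := ⟨_, rfl⟩
    have hcr : cost τ wr = cost τ G₁ + τ (ke s(q', k)) := by
      rw [hwr, cost_append, cost_cons]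
      simp [cost, wedges]
    have h11 : a * nm (c.vt (t, c.ps k) - k) ≤ C17 c b - 4 * a := by
      unfold C17
      have h6 : a * (nm (c.vt (t, c.ps k) - k) + 4) ≤ b * K0 c := by
        have h7 : a * (nm (c.vt (t, c.ps k) - k) + 4) ≤ a * K0 c := mul_le_mul_of_nonneg_left neark ha.le
        have h8 : a * K0 c ≤ b * K0 c := mul_le_mul_of_nonneg_right hab (by linarith [K0_pos (c := c)])
        linarith
      linarith
    refine ⟨some (c.ps k), fun k' hk' => ⟨k, hkG, Option.some.inj hk', hk, by omega⟩, fun z z' Φ Ψ hΦ hΨ => ?_⟩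
    simp only [ET]
    rw [← eD]
    have hT : TR (c.slab t t₃) τ (c.vt (t, c.ps k)) (c.vt (t₃, z')) ≤ C17 c b + cost τ G₂ + cost τ Ψ := by
      have h := TR_le hτ ha.le (S := c.slab t t₃) (p4.reverse.append (G₂.append Ψ)) (fun e he => by
        rw [wedges_append, wedges_append, List.mem_append, List.mem_append, wedges_reverse, List.mem_reverse] at he
        rcases he with he | he | he
        · exact hp4 e he
        · exact hG₂S e he
        · exact hΨ e he)
      rw [cost_append, cost_append, cost_reverse] at h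
      have h4 := cost_le hτ p4
      linarith
    have hΦl := nm_le_cost hτ ha.le Φ
    have hwl := nm_le_cost hτ ha.le wr
    rw [hcr] at hwl
    have m1 : a * (c.M * |(c.ps k : ℝ) - z|) ≤ cost τ Φ + (cost τ G₁ + τ (ke s(q', k))) + C17 c b := by
      rw [← nm_lat' (c := c) t z (c.ps k)]
      have e : c.vt (t, c.ps k) - c.vt (t, z) = (c.vt (t, c.ps k) - k) + ((k - v) + (v - c.vt (t, z))) := by abel
      have h8 := nm_add_le (c.vt (t, c.ps k) - k) ((k - v) + (v - c.vt (t, z)))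
      have h9 := nm_add_le (k - v) (v - c.vt (t, z))
      rw [← e] at h8
      have h13 : nm (c.vt (t, c.ps k) - c.vt (t, z)) ≤ nm (c.vt (t, c.ps k) - k) + (nm (k - v) +
          nm (v - c.vt (t, z))) := by linarith
      have h14 := mul_le_mul_of_nonneg_left h13 ha.le
      linarith
    have m2 : a * (2 * R) ≤ cost τ Φ + (cost τ G₁ + τ (ke s(q', k))) + C17 c b := by
      have hMr : (0 : ℝ) < c.M := by exact_mod_cast (by omega : 0 < c.M)
      have f1 := c.abs_tm_le (v - c.vt (t, z))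
      rw [Co.tm_sub, Co.tm_vt] at f1
      have f2 := c.abs_tm_le (k - v)
      rw [Co.tm_sub] at f2
      have f3 : (c.M : ℝ) * R ≤ c.M * nm (v - c.vt (t, z)) := by
        refine le_trans ?_ f1
        have : c.M * R ≤ |c.tm v - c.L * (t, z).1| := by
          simp only
          have h20 : c.L * (t + R) = c.L * t + c.L * R := by ring
          have h21 : c.M * (R : ℤ) ≤ c.L * R := mul_le_mul_of_nonneg_right (by omega) (by omega)
          refine le_trans ?_ (le_abs_self _)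
          omega
        exact_mod_cast this
      have f4 : (c.M : ℝ) * (R - 1) ≤ c.M * nm (k - v) := by
        refine le_trans ?_ f2
        have : c.M * ((R : ℤ) - 1) ≤ |c.tm k - c.tm v| := by
          refine le_trans ?_ (neg_le_abs _)
          have h20 : c.M * ((R : ℤ) - 1) = c.M * R - c.M := by ring
          have h21 : c.M * (R : ℤ) ≤ c.L * R := mul_le_mul_of_nonneg_right (by omega) (by omega)
          have h22 : c.L * (t + R) = c.L * t + c.L * R := by ring
          omega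
        exact_mod_cast this
      have f5 := le_of_mul_le_mul_left f3 hMr
      have f6 := le_of_mul_le_mul_left f4 hMr
      have f7 := mul_le_mul_of_nonneg_left f5 ha.le
      have f8 := mul_le_mul_of_nonneg_left f6 ha.le
      have f9 : a ≤ C17 c b := hab.trans (C17_pos hb)
      linarith
    rcases max_cases (a * (c.M * |(c.ps k : ℝ) - z|)) (a * (2 * R)) with ⟨h, -⟩ | ⟨h, -⟩ <;> rw [h] <;> linarith

/-- **`K + 1` JUNCTIONS AT ONCE, EXACT.** -/
theorem hookET (ha : 0 < a) (hab : a ≤ b) (hτ : Bd a b τ) (K : ℕ) (t : ℕ → ℤ) (R : ℕ → ℕ) (A : Pt) (N : ℕ) (y : ℤ)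
    (w : grid.Walk (c.vt A) (c.vt (A + ((N : ℤ), y)))) (hw : ∀ e ∈ wedges w, e ∈ c.slab A.1 (A.1 + N))
    (h0 : A.1 < t 0) (hR : ∀ j ≤ K, 1 ≤ R j) (ht : ∀ j < K, t j + R j < t (j + 1)) (hN : t K + R K < A.1 + N) :
    ∃ (u v : ℕ → V) (o : ℕ → Option ℤ),
      (∀ j ≤ K, (u j ∈ w.support ∧ v j ∈ w.support) ∧ (c.L * t j - c.M < c.tm (u j) ∧ c.tm (u j) ≤ c.L * t j) ∧
        c.L * (t j + R j) ≤ c.tm (v j) ∧ c.tm (v j) < c.L * (t j + R j) + c.M) ∧
      (∀ j ≤ K, ∀ k, o j = some k → ∃ z ∈ w.support, c.ps z = k ∧ c.L * t j < c.tm z ∧ c.tm z ≤ c.L * t j + c.M) ∧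
      ∀ zm zp : ℕ → ℤ, (∀ j ≤ K, (zm j + m0 c ≤ c.ps (u j) ∧ c.ps (v j) + m0 c ≤ zp j) ∨
          (c.ps (u j) + m0 c ≤ zm j ∧ zp j + m0 c ≤ c.ps (v j))) →
        TT c τ A (t 0 + R 0 - A.1).toNat (zp 0 - A.2) +
          ∑ j ∈ Finset.range K, ET c a b τ (o j) (t j) (R j) (zm j) (t (j + 1) + R (j + 1) - t j).toNat (zp (j + 1)) +
          ET c a b τ (o K) (t K) (R K) (zm K) (A.1 + N - t K).toNat (A.2 + y) ≤
        cost τ w + ∑ j ∈ Finset.range (K + 1), TT c τ (t j, zm j) (R j) (zp j - zm j) := by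
  classical
  have hb : 0 < b := ha.trans_le hab
  have hL := c.L_eq
  have hM := c.M_pos
  have hLp := c.L_pos
  have mono : ∀ {i j : ℤ}, i ≤ j → c.L * i ≤ c.L * j := fun h => mul_le_mul_of_nonneg_left h (by omega)
  have step : ∀ {i j : ℤ}, i + 1 ≤ j → c.L * i + c.L ≤ c.L * j := fun {i j} h => by
    have h1 := mono h
    linarith [mul_add c.L i 1]
  -- the times grow
  have tN : ∀ j ≤ K, t j + R j < A.1 + N := by
    intro j hj
    have : ∀ i, j + i ≤ K → t j + R j ≤ t (j + i) + R (j + i) := by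
      intro i
      induction i with
      | zero => intro _; exact le_rfl
      | succ i ih =>
        intro hi
        have h1 := ih (by omega)
        have h2 := ht (j + i) (by omega)
        have h3 : t (j + i + 1) = t (j + (i + 1)) := by rw [add_assoc]
        have h4 : R (j + i + 1) = R (j + (i + 1)) := by rw [add_assoc]
        omega
    have h1 := this (K - j) (by omega)
    rw [show j + (K - j) = K by omega] at h1
    omega
  have tA : ∀ j ≤ K, A.1 < t j := by
    intro j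
    induction j with
    | zero => intro _; exact h0
    | succ j ih =>
      intro hj
      have h1 := ih (by omega)
      have h2 := ht j (by omega)
      omega
  obtain ⟨u, v, Xx, Y, s1, s2, s3, s4, s5⟩ := hook_walk2 (c := c) (S := c.slab A.1 (A.1 + N)) (τ := τ) (K + 1) t R w hw
    (fun _ => by rw [Co.tm_vt]; exact mono h0.le) (fun j hj => hR j (by omega)) (fun j hj => ht j (by omega))
    (fun j hj => by rw [Co.tm_vt]; simp only [Prod.fst_add]; exact mono (tN j (by omega)).le)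
  -- the pieces between the junctions
  have hmid : ∀ j < K, ∃ o : Option ℤ, (∀ k, o = some k → ∃ z ∈ w.support, c.ps z = k ∧ c.L * t j < c.tm z ∧
      c.tm z ≤ c.L * t j + c.M) ∧ ∀ (z z' : ℤ) (Φ : grid.Walk (c.vt (t j, z)) (v j))
        (Ψ : grid.Walk (u (j + 1)) (c.vt (t (j + 1) + R (j + 1), z'))),
        (∀ e ∈ wedges Φ, e ∈ c.slab (t j) (t j + R j + 1)) →
        (∀ e ∈ wedges Ψ, e ∈ c.slab (t (j + 1) - 1) (t (j + 1) + R (j + 1))) →
        ET c a b τ o (t j) (R j) z (t (j + 1) + R (j + 1) - t j).toNat z' ≤ cost τ Φ + Y (j + 1) + cost τ Ψ := by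
    intro j hj
    obtain ⟨G, j1, j2, j3⟩ := s4 (j + 1) (by omega)
    obtain ⟨-, ⟨g1, g2⟩, g3, g4⟩ := s2 (j + 1) (by omega)
    obtain ⟨-, ⟨f1, f2⟩, f3, f4⟩ := s2 j (by omega)
    have hRj := hR j (by omega)
    have hRj' := hR (j + 1) (by omega)
    have htj := ht j hj
    have hst := step (i := t j) (j := t (j + 1)) (by omega)
    simp only [pv] at G j1 j2 j3
    obtain ⟨o, o1, o2⟩ := pieceE (c := c) (τ := τ) ha hab hτ (s := A.1) (N := A.1 + N) (t := t j) (t' := t (j + 1))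
      (t₃ := t (j + 1) + R (j + 1)) hRj htj (by omega) (v := v j) (p := u (j + 1)) ⟨f3, f4⟩ (by omega) G j2
      (Or.inr fun z hz => (j3 z hz).2)
    refine ⟨o, fun k hk => ?_, fun z z' Φ Ψ hΦ hΨ => ?_⟩
    · obtain ⟨z, z1, z2⟩ := o1 k hk
      exact ⟨z, (j3 z z1).1, z2⟩
    · rw [← j1]
      exact o2 z z' Φ Ψ (fun e he => Co.slab_mono le_rfl (by omega) (hΦ e he))
        (fun e he => Co.slab_mono (by omega) le_rfl (hΨ e he))
  -- the last piece
  have hlast : ∃ o : Option ℤ, (∀ k, o = some k → ∃ z ∈ w.support, c.ps z = k ∧ c.L * t K < c.tm z ∧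
      c.tm z ≤ c.L * t K + c.M) ∧ ∀ (z : ℤ) (Φ : grid.Walk (c.vt (t K, z)) (v K)),
        (∀ e ∈ wedges Φ, e ∈ c.slab (t K) (t K + R K + 1)) →
        ET c a b τ o (t K) (R K) z (A.1 + N - t K).toNat (A.2 + y) ≤ cost τ Φ + Y (K + 1) := by
    obtain ⟨G, j1, j2, j3⟩ := s5
    obtain ⟨-, ⟨f1, f2⟩, f3, f4⟩ := s2 K (by omega)
    have hRK := hR K le_rfl
    simp only [pv] at G j1 j2 j3
    have eE : A + ((N : ℤ), y) = (A.1 + N, A.2 + y) := by ext <;> simp
    have hp : c.L * t K < c.tm (c.vt (A + ((N : ℤ), y))) := by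
      rw [Co.tm_vt]
      simp only [Prod.fst_add]
      have := step (i := t K) (j := A.1 + N) (by omega)
      omega
    obtain ⟨o, o1, o2⟩ := pieceE (c := c) (τ := τ) ha hab hτ (s := A.1) (N := A.1 + N) (t := t K) (t' := A.1 + N)
      (t₃ := A.1 + N) hRK hN le_rfl (v := v K) (p := c.vt (A + ((N : ℤ), y))) ⟨f3, f4⟩ hp G j2 (Or.inl rfl)
    refine ⟨o, fun k hk => ?_, fun z Φ hΦ => ?_⟩
    · obtain ⟨z, z1, z2⟩ := o1 k hk
      exact ⟨z, j3 z z1, z2⟩
    · rw [← j1]
      have h := o2 z (A.2 + y) Φ (SimpleGraph.Walk.nil.copy rfl (by rw [eE]))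
        (fun e he => Co.slab_mono le_rfl (by omega) (hΦ e he)) (by
          intro e he
          exfalso
          revert he
          generalize_proofs pf
          simp [wedges])
      have h0' : cost τ ((SimpleGraph.Walk.nil : grid.Walk (c.vt (A + ((N : ℤ), y))) _).copy rfl
          (show c.vt (A + ((N : ℤ), y)) = c.vt (A.1 + N, A.2 + y) by rw [eE])) = 0 := by
        simp [cost, wedges]
      linarith
  choose! om ho1 ho2 using hmid
  obtain ⟨ol, hl1, hl2⟩ := hlast
  refine ⟨u, v, fun j => if j < K then om j else ol, fun j hj => s2 j (by omega), ?_, ?_⟩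
  · intro j hj k hk
    by_cases h : j < K
    · simp only [if_pos h] at hk
      exact ho1 j h k hk
    · simp only [if_neg h] at hk
      obtain rfl : j = K := by omega
      exact hl1 k hk
  · intro zm zp hz
    have hJ : ∀ j, j ≤ K → ∃ (Φ : grid.Walk (c.vt (t j, zm j)) (v j)) (Ψ : grid.Walk (u j) (c.vt (t j + R j, zp j))),
        cost τ Φ + cost τ Ψ = Xx j + TT c τ (t j, zm j) (R j) (zp j - zm j) ∧
        (∀ e ∈ wedges Φ, e ∈ c.slab (t j) (t j + R j + 1)) ∧
        (∀ e ∈ wedges Ψ, e ∈ c.slab (t j - 1) (t j + R j)) := fun j hj =>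
      junction17 ha hτ (hR j hj) (s3 j (by omega)) (s2 j (by omega)).2.1 (s2 j (by omega)).2.2 (hz j hj)
    choose! Φ Ψ hc hΦ hΨ using hJ
    -- the first piece
    have a1 : TT c τ A (t 0 + R 0 - A.1).toNat (zp 0 - A.2) ≤ Y 0 + cost τ (Ψ 0) := by
      obtain ⟨G, j1, j2, j3⟩ := s4 0 (by omega)
      have e0 := TR_slab_eq c τ (s := A.1) (t := t 0 + R 0) (n := (t 0 + R 0 - A.1).toNat)
        (by have := tA 0 (by omega); omega) A.2 (zp 0)
      change TT c τ (A.1, A.2) _ _ ≤ _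
      rw [← e0, ← j1]
      have hG' : ∀ e ∈ wedges G, e ∈ c.slab A.1 (t 0 + R 0) :=
        slab_walk j2 (Or.inl rfl) (Or.inr fun z hz => (j3 z hz).2)
      have h := TR_le hτ ha.le (S := c.slab A.1 (t 0 + R 0)) (G.append (Ψ 0)) (fun e he => by
        rw [wedges_append, List.mem_append] at he
        exact he.elim (hG' e) fun h => Co.slab_mono (by omega) le_rfl (hΨ 0 (by omega) e h))
      rw [cost_append] at h
      exact h
    have a2 : ∑ j ∈ Finset.range K, ET c a b τ (if j < K then om j else ol) (t j) (R j) (zm j)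
        (t (j + 1) + R (j + 1) - t j).toNat (zp (j + 1)) ≤ ∑ j ∈ Finset.range K,
        (cost τ (Φ j) + Y (j + 1) + cost τ (Ψ (j + 1))) := by
      refine Finset.sum_le_sum fun j hj => ?_
      rw [Finset.mem_range] at hj
      rw [if_pos hj]
      exact ho2 j hj (zm j) (zp (j + 1)) (Φ j) (Ψ (j + 1)) (hΦ j (by omega)) (hΨ (j + 1) (by omega))
    have a3 := hl2 (zm K) (Φ K) (hΦ K le_rfl)
    have a4 : ∑ j ∈ Finset.range (K + 1), (cost τ (Φ j) + cost τ (Ψ j)) = ∑ j ∈ Finset.range (K + 1), (Xx j +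
        TT c τ (t j, zm j) (R j) (zp j - zm j)) :=
      Finset.sum_congr rfl fun j hj => hc j (by rw [Finset.mem_range] at hj; omega)
    have b1 : ∑ j ∈ Finset.range (K + 1), cost τ (Ψ j) =
        ∑ j ∈ Finset.range K, cost τ (Ψ (j + 1)) + cost τ (Ψ 0) := Finset.sum_range_succ' _ _
    have b2 : ∑ j ∈ Finset.range (K + 1), cost τ (Φ j) =
        ∑ j ∈ Finset.range K, cost τ (Φ j) + cost τ (Φ K) := Finset.sum_range_succ _ _
    have b3 : ∑ j ∈ Finset.range (K + 1), (Y j + Xx j) + Y (K + 1) =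
        ∑ j ∈ Finset.range (K + 1), Xx j + (∑ j ∈ Finset.range K, Y (j + 1) + Y 0) + Y (K + 1) := by
      rw [Finset.sum_add_distrib, Finset.sum_range_succ' Y]
      ring
    rw [Finset.sum_add_distrib, Finset.sum_add_distrib] at a4
    simp only [Finset.sum_add_distrib] at a2
    simp only [lt_irrefl, if_false]
    rw [b1, b2] at a4
    rw [b3] at s1
    linarith

/-- **`K + 1` JUNCTIONS AT ONCE, EXCESSES, EXACT.** The walk `w` from `A` to `A + (N, y)` in the slab; windows `[t j, t j + R j]`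
(`j ≤ K`), pairwise disjoint, gaps at least one block. `u j` = the last vertex of time at most `t j` before the first visit
`v j` of the time `t j + R j`. References `(t j, zm j) → (t j + R j, zp j)`, crossed with the margin `m0`. -/
theorem hookE {F : Fm} {κ : ℝ} {d : Dr} (hd : Adm F κ d) (η : Env) (K : ℕ) (t : ℕ → ℤ) (R : ℕ → ℕ) (A : Pt) (N : ℕ) (y : ℤ)
    (w : grid.Walk (F.co.vt A) (F.co.vt (A + ((N : ℤ), y)))) (hw : ∀ e ∈ wedges w, e ∈ F.co.slab A.1 (A.1 + N))
    (h0 : A.1 < t 0) (hR : ∀ j ≤ K, 1 ≤ R j) (ht : ∀ j < K, t j + R j < t (j + 1)) (hN : t K + R K < A.1 + N) :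
    ∃ (u v : ℕ → V) (o : ℕ → Option ℤ),
      (∀ j ≤ K, (u j ∈ w.support ∧ v j ∈ w.support) ∧
        (F.co.L * t j - F.co.M < F.co.tm (u j) ∧ F.co.tm (u j) ≤ F.co.L * t j) ∧
        F.co.L * (t j + R j) ≤ F.co.tm (v j) ∧ F.co.tm (v j) < F.co.L * (t j + R j) + F.co.M) ∧
      (∀ j ≤ K, ∀ k, o j = some k → ∃ z ∈ w.support, F.co.ps z = k ∧ F.co.L * t j < F.co.tm z ∧
        F.co.tm z ≤ F.co.L * t j + F.co.M) ∧
      ∀ zm zp : ℕ → ℤ, (∀ j ≤ K, (zm j + m0 F.co ≤ F.co.ps (u j) ∧ F.co.ps (v j) + m0 F.co ≤ zp j) ∨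
          (F.co.ps (u j) + m0 F.co ≤ zm j ∧ zp j + m0 F.co ≤ F.co.ps (v j))) →
        X F d η A (t 0 + R 0 - A.1).toNat (zp 0 - A.2) +
          ∑ j ∈ Finset.range K, EX F κ d η (o j) (t j) (R j) (zm j) (t (j + 1) + R (j + 1) - t j).toNat (zp (j + 1)) +
          EX F κ d η (o K) (t K) (R K) (zm K) (A.1 + N - t K).toNat (A.2 + y) ≤
        cost (F.tau η) w - d.H (F.co.vt ((N : ℤ), y)) +
          ∑ j ∈ Finset.range (K + 1), X F d η (t j, zm j) (R j) (zp j - zm j) := by
  obtain ⟨u, v, o, h1, h2, h3⟩ := hookET (c := F.co) F.a0 F.ab (bd_tau F η) K t R A N y w hw h0 hR ht hN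
  refine ⟨u, v, o, h1, h2, fun zm zp hz => ?_⟩
  have h4 := h3 zm zp hz
  -- the times grow
  have tt : ∀ j ≤ K, A.1 < t j := by
    intro j
    induction j with
    | zero => intro _; exact h0
    | succ j ih =>
      intro hj
      have g1 := ih (by omega)
      have g2 := ht j (by omega)
      omega
  have q2 : ∀ j ∈ Finset.range K, EX F κ d η (o j) (t j) (R j) (zm j) (t (j + 1) + R (j + 1) - t j).toNat (zp (j + 1)) ≤
      ET F.co F.a F.b (F.tau η) (o j) (t j) (R j) (zm j) (t (j + 1) + R (j + 1) - t j).toNat (zp (j + 1)) -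
        (al F.co d * (t (j + 1) + R (j + 1) - t j) + be F.co d * (zp (j + 1) - zm j)) := by
    intro j hj
    rw [Finset.mem_range] at hj
    have g := EX_le_ET hd η (o j) (t j) (R j) (zm j) (t (j + 1) + R (j + 1) - t j).toNat (zp (j + 1))
    have e : (((t (j + 1) + R (j + 1) - t j).toNat : ℕ) : ℝ) = (t (j + 1) : ℝ) + R (j + 1) - t j := by
      have : (((t (j + 1) + R (j + 1) - t j).toNat : ℕ) : ℤ) = t (j + 1) + R (j + 1) - t j :=
        Int.toNat_of_nonneg (by have := ht j hj; omega)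
      exact_mod_cast this
    rw [e] at g
    exact g
  have q2' := Finset.sum_le_sum q2
  rw [Finset.sum_sub_distrib] at q2'
  have q3 := EX_le_ET hd η (o K) (t K) (R K) (zm K) (A.1 + N - t K).toNat (A.2 + y)
  have e3 : (((A.1 + N - t K).toNat : ℕ) : ℝ) = (A.1 : ℝ) + N - t K := by
    have : (((A.1 + N - t K).toNat : ℕ) : ℤ) = A.1 + N - t K := Int.toNat_of_nonneg (by omega)
    exact_mod_cast this
  rw [e3] at q3
  have q1 : X F d η A (t 0 + R 0 - A.1).toNat (zp 0 - A.2) = TT F.co (F.tau η) A (t 0 + R 0 - A.1).toNat (zp 0 - A.2) -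
      (al F.co d * (t 0 + R 0 - A.1) + be F.co d * (zp 0 - A.2)) := by
    unfold X
    have e : (((t 0 + R 0 - A.1).toNat : ℕ) : ℝ) = (t 0 : ℝ) + R 0 - A.1 := by
      have : (((t 0 + R 0 - A.1).toNat : ℕ) : ℤ) = t 0 + R 0 - A.1 := Int.toNat_of_nonneg (by omega)
      exact_mod_cast this
    rw [e]
    push_cast
    ring
  have q4 : ∑ j ∈ Finset.range (K + 1), X F d η (t j, zm j) (R j) (zp j - zm j) =
      ∑ j ∈ Finset.range (K + 1), TT F.co (F.tau η) (t j, zm j) (R j) (zp j - zm j) -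
        ∑ j ∈ Finset.range (K + 1), (al F.co d * R j + be F.co d * (zp j - zm j)) := by
    rw [← Finset.sum_sub_distrib]
    refine Finset.sum_congr rfl fun j _ => ?_
    unfold X
    push_cast
    ring
  have q5 : d.H (F.co.vt ((N : ℤ), y)) = al F.co d * N + be F.co d * y := by
    rw [Co.H_vt]
    simp
  -- the sum of the displacements
  have q6 : ∑ j ∈ Finset.range K, (al F.co d * ((t (j + 1) : ℝ) + R (j + 1) - t j) + be F.co d * ((zp (j + 1) : ℝ) - zm j)) =
      ∑ j ∈ Finset.range (K + 1), (al F.co d * (R j : ℝ) + be F.co d * ((zp j : ℝ) - zm j)) +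
        al F.co d * ((t K : ℝ) - t 0 - R 0) + be F.co d * ((zm K : ℝ) - zp 0) := by
    clear h4 q2 q2' q3 e3 q1 q4 q5 h1 h2 h3 hz tt hN ht hR
    induction K with
    | zero => simp; ring
    | succ K ih =>
      rw [Finset.sum_range_succ, ih, Finset.sum_range_succ _ (K + 1)]
      ring
  rw [q6] at q2'
  rw [q1, q4, q5]
  push_cast at q3 ⊢
  linarith

end Pool.Agent.W_1b8d5d_h17p
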