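import Pool.Agent.W_1b8d5d_p.Cut66

/-!
MP_1b8d5d_pr, Track P, section 6. `K` junctions at once: the decomposition of a walk at the windows
`[t j, t j + R j]` (`j < K`) of block times. (helper17)
-/

namespace Pool.Agent.W_1b8d5d_h17p

open MeasureTheory Set Pool.Agent.W_1b8d5d_h85 Pool.Agent.W_1b8d5d_p Pool.Agent.W_1b8d5d_p66
open Pool.Agent.W_1b8d5d_sc (split_first split_last)

variable {c : Co} {a b : ℝ} {τ : Env}

/-- The previous vertex: `x`, `v 0`, `v 1`, ... -/
def pv (x : V) (v : ℕ → V) : ℕ → V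
  | 0 => x
  | j + 1 => v j

/-- The first vertex `g 0 := y`, then `g`. -/
def ns {α : Type*} (y : α) (g : ℕ → α) : ℕ → α
  | 0 => y
  | j + 1 => g j

/-- THE WALK DECOMPOSITION. -/
theorem hook_walk {S : Set Edge} {y : V} : ∀ (K : ℕ) (t : ℕ → ℤ) (R : ℕ → ℕ) {x : V} (w : grid.Walk x y)
    (_ : ∀ e ∈ wedges w, e ∈ S) (_ : 0 < K → c.tm x ≤ c.L * t 0) (_ : ∀ j < K, 1 ≤ R j)
    (_ : ∀ j, j + 1 < K → t j + R j + 1 ≤ t (j + 1)) (_ : ∀ j < K, c.L * (t j + R j) ≤ c.tm y),
    ∃ (u v : ℕ → V) (X Y : ℕ → ℝ),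
      (∑ j ∈ Finset.range K, (Y j + X j)) + Y K = cost τ w ∧
      (∀ j < K, c.L * t j < c.tm (u j) ∧ c.tm (u j) ≤ c.L * t j + c.M ∧ c.L * (t j + R j) - c.M ≤ c.tm (v j) ∧
        c.tm (v j) < c.L * (t j + R j)) ∧
      (∀ j < K, ∃ J : grid.Walk (u j) (v j), cost τ J = X j ∧ (∀ e ∈ wedges J, e ∈ S) ∧
        ∀ z ∈ J.support, z ∈ w.support ∧ c.L * t j < c.tm z ∧ c.tm z < c.L * (t j + R j)) ∧
      (∀ j < K, ∃ G : grid.Walk (pv x v j) (u j), cost τ G = Y j ∧ (∀ e ∈ wedges G, e ∈ S) ∧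
        ∀ z ∈ G.support, z ∈ w.support ∧ c.tm z < c.L * (t j + R j)) ∧
      (∃ G : grid.Walk (pv x v K) y, cost τ G = Y K ∧ (∀ e ∈ wedges G, e ∈ S) ∧ ∀ z ∈ G.support, z ∈ w.support) := by
  have hL := c.L_eq
  have hM := c.M_pos
  have hLp := c.L_pos
  intro K
  induction K with
  | zero =>
    intro t R x w hS _ _ _ _
    refine ⟨fun _ => x, fun _ => x, fun _ => 0, fun _ => cost τ w, by simp, ?_, ?_, ?_, ⟨w, rfl, hS, fun z hz => hz⟩⟩
    all_goals intro j hj; omega
  | succ K ih =>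
    intro t R x w hS hx hR ht hy
    have hx0 := hx (by omega)
    have hR0 := hR 0 (by omega)
    have hy0 := hy 0 (by omega)
    have g1 : c.L * t 0 + c.L ≤ c.L * (t 0 + R 0) := by
      have : c.L * (t 0 + 1) ≤ c.L * (t 0 + R 0) := mul_le_mul_of_nonneg_left (by omega) (by omega)
      linarith [mul_add c.L (t 0) 1]
    -- the first vertex of time at least `L (t 0 + R 0)`
    obtain ⟨x', v₀, w₁, hadj, w₂, hw, hw₁, hv₀⟩ := split_first (fun z => c.L * (t 0 + R 0) ≤ c.tm z) w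
      (by omega) ⟨_, w.end_mem_support, hy0⟩
    have hw₁lt : ∀ z ∈ w₁.support, c.tm z < c.L * (t 0 + R 0) := fun z hz => not_le.1 (hw₁ z hz)
    have had := tm_adj (c := c) hadj
    rw [abs_le] at had
    have hx'lt := hw₁lt x' w₁.end_mem_support
    have hx'1 : c.L * t 0 < c.tm x' := by omega
    -- the last vertex of time at most `L (t 0)` before
    obtain ⟨u', u₀, w₁₁, hadu, w₁₂, hwu, hw₁₂, hu'⟩ := split_last (fun z => c.L * t 0 < c.tm z) w₁
      ⟨_, w₁.start_mem_support, by omega⟩ hx'1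
    rw [not_lt] at hu'
    have hadu' := tm_adj (c := c) hadu
    rw [abs_le] at hadu'
    have hu₀ := hw₁₂ u₀ w₁₂.start_mem_support
    -- the rest
    obtain ⟨w', hw'⟩ : ∃ w' : grid.Walk x' y, w' = .cons hadj w₂ := ⟨_, rfl⟩
    obtain ⟨G₀, hG₀⟩ : ∃ G₀ : grid.Walk x u₀, G₀ = w₁₁.append (.cons hadu .nil) := ⟨_, rfl⟩
    have ew : w = G₀.append (w₁₂.append w') := by
      rw [hw, ← hw', hwu, ← SimpleGraph.Walk.append_assoc, hG₀, ← SimpleGraph.Walk.append_assoc]
      rfl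
    have sup : ∀ z, z ∈ w.support ↔ z ∈ G₀.support ∨ z ∈ w₁₂.support ∨ z ∈ w'.support := by
      intro z
      rw [ew, SimpleGraph.Walk.mem_support_append_iff, SimpleGraph.Walk.mem_support_append_iff]
    have edg : ∀ e, e ∈ wedges w ↔ e ∈ wedges G₀ ∨ e ∈ wedges w₁₂ ∨ e ∈ wedges w' := by
      intro e
      rw [ew, wedges_append, wedges_append, List.mem_append, List.mem_append]
    have cw : cost τ w = cost τ G₀ + (cost τ w₁₂ + cost τ w') := by rw [ew, cost_append, cost_append]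
    have w₁sup : ∀ z, z ∈ w₁.support ↔ z ∈ w₁₁.support ∨ z ∈ w₁₂.support := by
      intro z
      rw [hwu, SimpleGraph.Walk.mem_support_append_iff, SimpleGraph.Walk.support_cons, List.mem_cons]
      constructor
      · rintro (h | rfl | h)
        · exact Or.inl h
        · exact Or.inl w₁₁.end_mem_support
        · exact Or.inr h
      · rintro (h | h)
        · exact Or.inl h
        · exact Or.inr (Or.inr h)
    have G₀sup : ∀ z ∈ G₀.support, z ∈ w₁.support := by
      intro z hz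
      rw [hG₀, SimpleGraph.Walk.mem_support_append_iff, SimpleGraph.Walk.support_cons, List.mem_cons,
        SimpleGraph.Walk.support_nil, List.mem_singleton] at hz
      rw [w₁sup]
      rcases hz with hz | rfl | rfl
      · exact Or.inl hz
      · exact Or.inl w₁₁.end_mem_support
      · exact Or.inr w₁₂.start_mem_support
    -- the induction
    obtain ⟨u, v, X, Y, h1, h2, h3, h4, h5⟩ := ih (fun j => t (j + 1)) (fun j => R (j + 1)) w'
      (fun e he => hS e ((edg e).2 (Or.inr (Or.inr he))))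
      (fun hK => by
        have := ht 0 (by omega)
        have h6 : c.L * (t 0 + R 0 + 1) ≤ c.L * t (0 + 1) := mul_le_mul_of_nonneg_left this (by omega)
        have h7 : c.L * (t 0 + R 0 + 1) = c.L * (t 0 + R 0) + c.L := by ring
        omega)
      (fun j hj => hR (j + 1) (by omega)) (fun j hj => ht (j + 1) (by omega)) (fun j hj => hy (j + 1) (by omega))
    refine ⟨ns u₀ u, ns x' v, ns (cost τ w₁₂) X, ns (cost τ G₀) Y, ?_, ?_, ?_, ?_, ?_⟩
    · rw [Finset.sum_range_succ']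
      simp only [ns]
      rw [cw, ← h1]
      ring
    · intro j hj
      rcases j with _ | j
      · simp only [ns]
        exact ⟨hu₀, by omega, by omega, hx'lt⟩
      · exact h2 j (by omega)
    · intro j hj
      rcases j with _ | j
      · refine ⟨w₁₂, rfl, fun e he => hS e ((edg e).2 (Or.inr (Or.inl he))), fun z hz => ⟨?_, hw₁₂ z hz, ?_⟩⟩
        · exact (sup z).2 (Or.inr (Or.inl hz))
        · exact hw₁lt z ((w₁sup z).2 (Or.inr hz))
      · obtain ⟨J, j1, j2, j3⟩ := h3 j (by omega)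
        exact ⟨J, j1, j2, fun z hz => ⟨(sup z).2 (Or.inr (Or.inr (j3 z hz).1)), (j3 z hz).2⟩⟩
    · intro j hj
      rcases j with _ | _ | j
      · refine ⟨G₀, rfl, fun e he => hS e ((edg e).2 (Or.inl he)), fun z hz => ⟨?_, hw₁lt z (G₀sup z hz)⟩⟩
        exact (sup z).2 (Or.inl hz)
      · obtain ⟨J, j1, j2, j3⟩ := h4 0 (by omega)
        exact ⟨J, j1, j2, fun z hz => ⟨(sup z).2 (Or.inr (Or.inr (j3 z hz).1)), (j3 z hz).2⟩⟩
      · obtain ⟨J, j1, j2, j3⟩ := h4 (j + 1) (by omega)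
        exact ⟨J, j1, j2, fun z hz => ⟨(sup z).2 (Or.inr (Or.inr (j3 z hz).1)), (j3 z hz).2⟩⟩
    · rcases K with _ | K
      · obtain ⟨J, j1, j2, j3⟩ := h5
        exact ⟨J, j1, j2, fun z hz => (sup z).2 (Or.inr (Or.inr (j3 z hz)))⟩
      · obtain ⟨J, j1, j2, j3⟩ := h5
        exact ⟨J, j1, j2, fun z hz => (sup z).2 (Or.inr (Or.inr (j3 z hz)))⟩

/-! ### The pieces -/

/-- The constant of a connector. -/
noncomputable def C17 (c : Co) (b : ℝ) : ℝ := b * K0 c

theorem C17_pos (hb : 0 < b) : b ≤ C17 c b := by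
  have := K0_pos (c := c)
  unfold C17
  nlinarith

/-- A connector between a vertex and the grid point next to it. -/
theorem conn_near (hb : 0 < b) {z : V} {s t n : ℤ} (hst : s < t) (hn : s ≤ n ∧ n ≤ t)
    (hz : c.L * s ≤ c.tm z ∧ c.tm z ≤ c.L * t) (h : |c.tm z - c.L * n| ≤ c.M) :
    ∃ w : grid.Walk z (c.vt (n, c.ps z)), (∀ e ∈ wedges w, e ∈ c.slab s t) ∧ b * (w.length : ℝ) ≤ C17 c b := by
  have hL := c.L_pos
  have h1 : c.L * s ≤ c.L * n := mul_le_mul_of_nonneg_left hn.1 (by omega)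
  have h2 : c.L * n ≤ c.L * t := mul_le_mul_of_nonneg_left hn.2 (by omega)
  obtain ⟨w, hw, lw⟩ := Co.slab_conn (c := c) hst (x := z) (y := c.vt (n, c.ps z)) hz
    ⟨by rw [Co.tm_vt]; exact h1, by rw [Co.tm_vt]; exact h2⟩
  exact ⟨w, hw, mul_le_mul_of_nonneg_left (lw.trans (nm_near h)) hb.le⟩

/-- **(C)** The end of a piece. -/
theorem piece_end (ha : 0 < a) (hab : a ≤ b) (hτ : Bd a b τ) {t t' : ℤ} {R' : ℕ} (ht : t ≤ t') (hR' : 1 ≤ R')
    {q u : V} (hu : c.L * t' < c.tm u ∧ c.tm u ≤ c.L * t' + c.M) (hne : Nonempty (WK (c.slab t (t' + R')) q u)) (z' : ℤ) :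
    TR (c.slab t (t' + R')) τ q (c.vt (t' + R', z')) ≤ TR (c.slab t (t' + R')) τ q u + C17 c b +
      TR (c.slab t' (t' + R')) τ (c.vt (t', c.ps u)) (c.vt (t' + R', z')) := by
  have hb : 0 < b := ha.trans_le hab
  have hL := c.L_eq
  have hM := c.M_pos
  have hLp := c.L_pos
  have g1 : c.L * t' + c.L ≤ c.L * (t' + R') := by
    have : c.L * (t' + 1) ≤ c.L * (t' + R') := mul_le_mul_of_nonneg_left (by omega) (by omega)
    linarith [mul_add c.L t' 1]
  obtain ⟨p, hp, lp⟩ := conn_near (c := c) hb (z := u) (s := t') (t := t' + R') (n := t') (by omega)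
    ⟨le_rfl, by omega⟩ ⟨hu.1.le, by omega⟩ (by rw [abs_le]; constructor <;> omega)
  have sub : c.slab t' (t' + R') ⊆ c.slab t (t' + R') := Co.slab_mono ht le_rfl
  have n1 : Nonempty (WK (c.slab t (t' + R')) q (c.vt (t', c.ps u))) :=
    WK_append hne ⟨⟨p, fun e he => sub (hp e he)⟩⟩ (le_refl _) (le_refl _)
  have n2 : Nonempty (WK (c.slab t' (t' + R')) (c.vt (t', c.ps u)) (c.vt (t' + R', z'))) :=
    Co.slab_ne (by omega) ⟨by rw [Co.tm_vt], by rw [Co.tm_vt]; simp only; omega⟩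
      ⟨by rw [Co.tm_vt]; simp only; omega, by rw [Co.tm_vt]⟩
  have h1 := TR_triangle (S := c.slab t (t' + R')) (S' := c.slab t' (t' + R')) (S'' := c.slab t (t' + R')) hτ ha.le
    n1 n2 (le_refl _) sub
  have h2 := TR_concat_le (S := c.slab t (t' + R')) (x := q) hτ ha.le p (fun e he => sub (hp e he)) hne
  linarith

/-- **(A)** A piece which does not return. -/
theorem piece_good (ha : 0 < a) (hab : a ≤ b) (hτ : Bd a b τ) {s N t t₃ : ℤ} {R : ℕ} (hR : 1 ≤ R) (ht₃ : t + R < t₃)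
    {v p : V} (hv : c.L * (t + R) - c.M ≤ c.tm v ∧ c.tm v < c.L * (t + R)) (G : grid.Walk v p)
    (hG : ∀ e ∈ wedges G, e ∈ c.slab s N) (h1 : ∀ z ∈ G.support, c.L * t < c.tm z)
    (h2 : t₃ = N ∨ ∀ z ∈ G.support, c.tm z < c.L * t₃) (z : ℤ) :
    TR (c.slab t t₃) τ (c.vt (t, z)) p ≤ TR (c.slab t (t + R)) τ (c.vt (t, z)) (c.vt (t + R, c.ps v)) + cost τ G +
      C17 c b := by
  have hb : 0 < b := ha.trans_le hab
  have hL := c.L_eq
  have hM := c.M_pos
  have hLp := c.L_pos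
  have g1 : c.L * t + c.L ≤ c.L * (t + R) := by
    have : c.L * (t + 1) ≤ c.L * (t + R) := mul_le_mul_of_nonneg_left (by omega) (by omega)
    linarith [mul_add c.L t 1]
  obtain ⟨q, hq, lq⟩ := conn_near (c := c) hb (z := v) (s := t) (t := t + R) (n := t + R) (by omega)
    ⟨by omega, le_rfl⟩ ⟨by omega, hv.2.le⟩ (by rw [abs_le]; constructor <;> omega)
  have sub : c.slab t (t + R) ⊆ c.slab t t₃ := Co.slab_mono le_rfl ht₃.le
  have hG' : ∀ e ∈ wedges G, e ∈ c.slab t t₃ := slab_walk hG (Or.inr h1) (h2.imp id id)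
  have hqG : ∀ e ∈ wedges (q.reverse.append G), e ∈ c.slab t t₃ := by
    intro e he
    rw [wedges_append, List.mem_append, wedges_reverse, List.mem_reverse] at he
    exact he.elim (fun h => sub (hq e h)) (hG' e)
  have n1 : Nonempty (WK (c.slab t (t + R)) (c.vt (t, z)) (c.vt (t + R, c.ps v))) :=
    Co.slab_ne (by omega) ⟨by rw [Co.tm_vt], by rw [Co.tm_vt]; simp only; omega⟩
      ⟨by rw [Co.tm_vt]; simp only; omega, by rw [Co.tm_vt]⟩
  have h3 := TR_triangle (S := c.slab t (t + R)) (S' := c.slab t t₃) (S'' := c.slab t t₃) hτ ha.le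
    n1 ⟨⟨q.reverse.append G, hqG⟩⟩ sub (le_refl _)
  have h4 := TR_le hτ ha.le (q.reverse.append G) hqG
  rw [cost_append, cost_reverse] at h4
  have h5 := cost_le hτ q
  linarith

/-- **(B)** A piece which returns. -/
theorem piece_ret (ha : 0 < a) (hab : a ≤ b) (hτ : Bd a b τ) {s N t t₃ : ℤ} {R : ℕ} (hR : 1 ≤ R) (ht₃ : t + R < t₃)
    {v p : V} (hv : c.L * (t + R) - c.M ≤ c.tm v ∧ c.tm v < c.L * (t + R)) (hp : c.L * t < c.tm p) (G : grid.Walk v p)
    (hG : ∀ e ∈ wedges G, e ∈ c.slab s N) (h1 : ∃ z ∈ G.support, c.tm z ≤ c.L * t)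
    (h2 : t₃ = N ∨ ∀ z ∈ G.support, c.tm z < c.L * t₃) :
    ∃ (k : V) (Y : ℝ), k ∈ G.support ∧ c.L * t < c.tm k ∧ c.tm k ≤ c.L * t + c.M ∧
      TR (c.slab t t₃) τ (c.vt (t, c.ps k)) p ≤ Y + C17 c b ∧ Nonempty (WK (c.slab t t₃) (c.vt (t, c.ps k)) p) ∧
      (∀ z : ℤ, a * (c.M * |(c.ps k : ℝ) - z|) + Y ≤
        TR (c.slab t (t + R)) τ (c.vt (t, z)) (c.vt (t + R, c.ps v)) + cost τ G + 2 * C17 c b) ∧
      (∀ z : ℤ, a * (2 * R) + Y ≤
        TR (c.slab t (t + R)) τ (c.vt (t, z)) (c.vt (t + R, c.ps v)) + cost τ G + 2 * C17 c b) := by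
  have hb : 0 < b := ha.trans_le hab
  have hL := c.L_eq
  have hM := c.M_pos
  have hLp := c.L_pos
  have g1 : c.L * t + c.L ≤ c.L * (t + R) := by
    have : c.L * (t + 1) ≤ c.L * (t + R) := mul_le_mul_of_nonneg_left (by omega) (by omega)
    linarith [mul_add c.L t 1]
  have g2 : c.L * (t + R) + c.L ≤ c.L * t₃ := by
    have : c.L * (t + R + 1) ≤ c.L * t₃ := mul_le_mul_of_nonneg_left (by omega) (by omega)
    linarith [mul_add c.L (t + R) 1]
  obtain ⟨z₀, hz₀, hz₀t⟩ := h1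
  obtain ⟨q', k, G₁, hadk, G₂, hGk, hG₂, hq'⟩ := split_last (fun z => c.L * t < c.tm z) G ⟨z₀, hz₀, not_lt.2 hz₀t⟩ hp
  rw [not_lt] at hq'
  have hadk' := tm_adj (c := c) hadk
  rw [abs_le] at hadk'
  have hk := hG₂ k G₂.start_mem_support
  have hkG : k ∈ G.support := by
    rw [hGk, SimpleGraph.Walk.mem_support_append_iff, SimpleGraph.Walk.support_cons, List.mem_cons]
    exact Or.inr (Or.inr G₂.start_mem_support)
  have hcG : cost τ G = cost τ G₁ + (τ (ke s(q', k)) + cost τ G₂) := by rw [hGk, cost_append, cost_cons]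
  have G₂sup : ∀ z ∈ G₂.support, z ∈ G.support := fun z hz => by
    rw [hGk, SimpleGraph.Walk.mem_support_append_iff, SimpleGraph.Walk.support_cons, List.mem_cons]
    exact Or.inr (Or.inr hz)
  have hG₂S : ∀ e ∈ wedges G₂, e ∈ c.slab t t₃ := slab_walk (fun e he => hG e (by
    rw [hGk, wedges_append, List.mem_append, mem_cons]
    exact Or.inr (Or.inr he))) (Or.inr hG₂) (h2.imp id fun h z hz => h z (G₂sup z hz))
  have hkt : |c.tm k - c.L * t| ≤ c.M := by rw [abs_le]; constructor <;> omega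
  have hvt : |c.tm v - c.L * (t + R)| ≤ c.M := by rw [abs_le]; constructor <;> omega
  have neark := nm_near (c := c) hkt
  have nearv := nm_near (c := c) hvt
  obtain ⟨p4, hp4, lp4⟩ := conn_near (c := c) hb (z := k) (s := t) (t := t₃) (n := t) (by omega)
    ⟨le_rfl, by omega⟩ ⟨hk.le, by omega⟩ hkt
  have hw4 : ∀ e ∈ wedges (p4.reverse.append G₂), e ∈ c.slab t t₃ := fun e he => by
    rw [wedges_append, List.mem_append, wedges_reverse, List.mem_reverse] at he
    exact he.elim (hp4 e) (hG₂S e)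
  have b4 : TR (c.slab t t₃) τ (c.vt (t, c.ps k)) p ≤ cost τ G₂ + C17 c b := by
    have h := TR_le hτ ha.le (p4.reverse.append G₂) hw4
    rw [cost_append, cost_reverse] at h
    have h4 := cost_le hτ p4
    linarith
  refine ⟨k, cost τ G₂, hkG, hk, by omega, b4, ⟨⟨_, hw4⟩⟩, ?_⟩
  -- the walk from `v` to `k`
  obtain ⟨wr, hwr⟩ : ∃ wr : grid.Walk v k, wr = G₁.append (.cons hadk .nil) := ⟨_, rfl⟩
  have hcr : cost τ wr = cost τ G₁ + τ (ke s(q', k)) := by
    rw [hwr, cost_append, cost_cons]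
    simp [cost, wedges]
  have aC : ∀ r : ℝ, r + 4 ≤ K0 c → a * r ≤ C17 c b - 4 * a := by
    intro r hr
    unfold C17
    have h6 : a * (r + 4) ≤ b * K0 c := by
      have h7 : a * (r + 4) ≤ a * K0 c := mul_le_mul_of_nonneg_left hr ha.le
      have h8 : a * K0 c ≤ b * K0 c := mul_le_mul_of_nonneg_right hab (by linarith [K0_pos (c := c)])
      linarith
    linarith
  have h11 := aC _ neark
  have h10 := aC _ nearv
  have both : (∀ z : ℤ, a * (c.M * |(c.ps k : ℝ) - z|) + cost τ G₂ ≤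
        TR (c.slab t (t + R)) τ (c.vt (t, z)) (c.vt (t + R, c.ps v)) + cost τ G + 2 * C17 c b) ∧
      (∀ z : ℤ, a * (2 * R) + cost τ G₂ ≤
        TR (c.slab t (t + R)) τ (c.vt (t, z)) (c.vt (t + R, c.ps v)) + cost τ G + 2 * C17 c b) := by
    rw [← forall_and]
    intro z
    have hT := TR_lower (S := c.slab t (t + R)) (x := c.vt (t, z)) (y := c.vt (t + R, c.ps v)) hτ ha.le
      (Co.slab_ne (by omega) ⟨by rw [Co.tm_vt], by rw [Co.tm_vt]; simp only; omega⟩
        ⟨by rw [Co.tm_vt]; simp only; omega, by rw [Co.tm_vt]⟩)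
    have h7 := nm_le_cost hτ ha.le wr
    constructor
    · rw [← nm_lat' (c := c) t z (c.ps k)]
      have e : c.vt (t, c.ps k) - c.vt (t, z) = (c.vt (t, c.ps k) - k) + ((k - v) +
          ((v - c.vt (t + R, c.ps v)) + (c.vt (t + R, c.ps v) - c.vt (t, z)))) := by abel
      have h8 := nm_add_le (c.vt (t, c.ps k) - k) ((k - v) +
          ((v - c.vt (t + R, c.ps v)) + (c.vt (t + R, c.ps v) - c.vt (t, z))))
      have h9 := nm_add_le (k - v) ((v - c.vt (t + R, c.ps v)) + (c.vt (t + R, c.ps v) - c.vt (t, z)))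
      have h12 := nm_add_le (v - c.vt (t + R, c.ps v)) (c.vt (t + R, c.ps v) - c.vt (t, z))
      rw [← e] at h8
      rw [nm_sub_comm v] at h12
      have h13 : nm (c.vt (t, c.ps k) - c.vt (t, z)) ≤ nm (c.vt (t, c.ps k) - k) + (nm (k - v) +
          (nm (c.vt (t + R, c.ps v) - v) + nm (c.vt (t + R, c.ps v) - c.vt (t, z)))) := by linarith
      have h14 := mul_le_mul_of_nonneg_left h13 ha.le
      linarith
    · -- the time up to `L (t + R)` and back
      have hMr : (0 : ℝ) < c.M := by exact_mod_cast (by omega : 0 < c.M)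
      have f1 := c.abs_tm_le (c.vt (t + R, c.ps v) - c.vt (t, z))
      rw [Co.tm_sub, Co.tm_vt, Co.tm_vt] at f1
      have f2 := c.abs_tm_le (k - v)
      rw [Co.tm_sub] at f2
      have f3 : (c.M : ℝ) * R ≤ c.M * nm (c.vt (t + R, c.ps v) - c.vt (t, z)) := by
        refine le_trans ?_ f1
        have : c.M * R ≤ |c.L * (t + R) - c.L * t| := by
          rw [show c.L * (t + R) - c.L * t = c.L * R by ring]
          refine le_trans ?_ (le_abs_self _)
          exact mul_le_mul_of_nonneg_right (by omega) (by omega)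
        exact_mod_cast this
      have f4 : (c.M : ℝ) * (R - 2) ≤ c.M * nm (k - v) := by
        refine le_trans ?_ f2
        have : c.M * ((R : ℤ) - 2) ≤ |c.tm k - c.tm v| := by
          refine le_trans ?_ (neg_le_abs _)
          have h20 : c.M * ((R : ℤ) - 2) = c.M * R - 2 * c.M := by ring
          have h21 : c.M * (R : ℤ) ≤ c.L * R := mul_le_mul_of_nonneg_right (by omega) (by omega)
          have h22 : c.L * (t + R) = c.L * t + c.L * R := by ring
          omega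
        exact_mod_cast this
      have f5 := le_of_mul_le_mul_left f3 hMr
      have f6 := le_of_mul_le_mul_left f4 hMr
      have f7 := mul_le_mul_of_nonneg_left f5 ha.le
      have f8 := mul_le_mul_of_nonneg_left f6 ha.le
      have f9 : a ≤ C17 c b := hab.trans (C17_pos hb)
      linarith
  exact both

end Pool.Agent.W_1b8d5d_h17p
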