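import Pool.Agent.W_1b8d5d_h17p.CoreX17
import Pool.Agent.W_1b8d5d_p.VMean
import Pool.Agent.W_1b8d5d_p.Unit1

/-!
MP_1b8d5d_pr, Track P, section 6 (inner edge, row 646 section 3): from the probabilities at one octave to a cheap displacement.
(helper17)
-/

namespace Pool.Agent.W_1b8d5d_h17p

open MeasureTheory Set Pool.Agent.W_1b8d5d_h85 Pool.Agent.W_1b8d5d_p Pool.Agent.W_1b8d5d_p66

variable {F : Fm} {κ : ℝ} {d : Dr}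

/-- **THE INNER EDGE, WITHOUT THE NUMBERS.** -/
theorem inner17 (hd : Adm F κ d) (ht : Touch F d) {L n' K J : ℕ} (hn1 : 1 ≤ n') (hn : 2 * n' < L) {z : ℤ} {cc : ℕ → ℤ}
    {h μ : ℤ} (hμ : 1 ≤ μ) {a1 r q B l B1 p : ℝ} (hq : 0 ≤ q) (hBl : B + l ≤ κ * n') (hp : 0 ≤ p)
    (hcard : (15 * ((K + 1) * ((J + 1) * (J + 1))) : ℕ) * p < 1)
    (hB1 : a1 + 16 * C17 F.co F.b + 3 * l < B1) {Y Y' k₀ e' : ℕ → ℤ}
    (p0 : (law F).real {η | a1 < X F d η 0 (Nw L n' K) z} ≤ p)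
    (p1 : ∀ m : ℕ, 1 ≤ m → m ≤ Nw L n' K → (law F).real {η | l < VV F d η 0 m} ≤ p)
    (p3 : ∀ j ≤ K, (law F).real {η | X F d η 0 (tw L n' j).toNat (Y j) ≤ B1} ≤ p)
    (p4 : ∀ j ≤ K, (law F).real {η | l < X F d η 0 (tw L n' j).toNat (Y j - k₀ j)} ≤ p)
    (p6 : ∀ j ≤ K, (law F).real {η | X F d η 0 (Nw L n' K - tw L n' j).toNat (z - Y' j) ≤ B1} ≤ p)
    (p7 : ∀ j ≤ K, (law F).real {η | l < X F d η 0 (Nw L n' K - tw L n' j).toNat (e' j - Y' j)} ≤ p)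
    (p9 : (law F).real {η | r < X F d η 0 n' h} ≤ p) (p10 : (law F).real {η | r < X F d η 0 n' (h - μ)} ≤ p)
    (p11 : ∀ D : ℤ, (law F).real {η | X F d η 0 L D < min (e F d L D) B - q} ≤ p)
    (hs : ∀ j ≤ K, (0 ≤ k₀ j ∧ e' j ≤ z ∧ (cc j : ℝ) ≤ Y' j - (a1 + 16 * C17 F.co F.b + 2 * l) / (κ * F.co.M) ∧
        (Y j : ℝ) + (a1 + 16 * C17 F.co F.b + 2 * l) / (κ * F.co.M) < cc j + J * μ) ∨
      (k₀ j ≤ 0 ∧ z ≤ e' j ∧ (cc j : ℝ) ≤ Y j - (a1 + 16 * C17 F.co F.b + 2 * l) / (κ * F.co.M) ∧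
        (Y' j : ℝ) + (a1 + 16 * C17 F.co F.b + 2 * l) / (κ * F.co.M) < cc j + J * μ))
    (hSB : a1 + (K + 1) * r + (K + 2) * q + 6 * (K + 1) * C17 F.co F.b < B) (hB0 : 0 ≤ B) {i₁ i₂ : ℤ}
    (h1 : (K + 2) * i₁ ≤ z + (K + 1) * (h - μ)) (h2 : z + (K + 1) * h ≤ (K + 2) * i₂) :
    ∃ i, i₁ ≤ i ∧ i ≤ i₂ ∧ e F d L i ≤ max (e F d L (xs F d L))
      ((a1 + (K + 1) * r + (K + 2) * q + 6 * (K + 1) * C17 F.co F.b) / (K + 2)) := by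
  have hL1 : 1 ≤ L := by omega
  obtain ⟨η, hη⟩ := good17 hd (by omega : n' < L) (eL := e F d L) hp hcard hB1 p0 p1 p3 p4 p6 p7 p9 p10 p11 hs
  obtain ⟨dd, a1', a2, a3⟩ := core17 hd hn1 hn hμ hq hBl hη
  have h := endM17 (e_conv F d hL1) (e_nonneg' ht hL1) (n := K + 2) (by omega) dd (xs_le hd hL1) hSB hB0 a1'
    (i₁ := i₁) (i₂ := i₂) (by push_cast; exact h1.trans a2) (by push_cast; exact a3.trans h2)
  push_cast at h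
  exact h

end Pool.Agent.W_1b8d5d_h17p
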