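import Pool.Agent.W_1b8d5d_h17p.Quant17

/-!
MP_1b8d5d_pr, Track P, the extension (NC) of the class of laws: from the law to the quantile function; the laws with
`P(1 - X ≤ s)` between two multiples of `s ^ α` near `0`. (helper17)
-/

namespace Pool.Agent.W_1b8d5d_h17p

open MeasureTheory Set Pool.Agent.W_1b8d5d_z

/-- The condition (NC) for a quantile function. -/
def NCQ (Q : ℝ → ℝ) (θ C : ℝ) : Prop := ∀ u v, 0 ≤ u → u ≤ v → v < 1 → v - u ≤ θ * (1 - u) →
  (1 - u) * (Q v - Q u) ≤ C * ∫ w in v..1, (Q w - Q v)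

/-- The condition (NC) for a law on `[0, 1]` (`1` = the lucky end). -/
def NCL (ν : Measure ℝ) (θ C : ℝ) : Prop := ∀ q q', 0 ≤ q → q ≤ q' → q' ≤ 1 →
  ν.real (Ioi q) ≤ (1 + θ) * ν.real (Ici q') →
    ∃ y, q' ≤ y ∧ y ≤ 1 ∧ (q' - q) * ν.real (Ici q') ≤ C * ((y - q') * ν.real (Ici y))

section quant

variable {Q : ℝ → ℝ} {ν : Measure ℝ} [IsProbabilityMeasure ν]

theorem quant_F1 (hm : Monotone Q) (hQ : U01.map Q = ν) {u : ℝ} (h0 : 0 ≤ u) (_ : u ≤ 1) : 1 - u ≤ ν.real (Ici (Q u)) := by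
  rw [← hQ, measureReal_def, Measure.map_apply hm.measurable measurableSet_Ici]
  have h2 : U01 (Icc u 1) ≤ U01 (Q ⁻¹' Ici (Q u)) := measure_mono fun w hw => hm hw.1
  have h3 : U01 (Icc u 1) = ENNReal.ofReal (1 - u) := by
    rw [Measure.restrict_apply measurableSet_Icc, inter_eq_left.2 (Icc_subset_Icc h0 le_rfl), Real.volume_Icc]
  rw [h3] at h2
  exact (ENNReal.ofReal_le_iff_le_toReal (measure_ne_top _ _)).1 h2

theorem quant_F2 (hm : Monotone Q) (hQ : U01.map Q = ν) {u : ℝ} (h0 : 0 ≤ u) (h1 : u ≤ 1) : ν.real (Ioi (Q u)) ≤ 1 - u := by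
  rw [← hQ, measureReal_def, Measure.map_apply hm.measurable measurableSet_Ioi]
  have h2 : U01 (Q ⁻¹' Ioi (Q u)) ≤ U01 (Ioi u) := measure_mono fun w (hw : Q u < Q w) => by
    by_contra hcon
    exact absurd (hm (not_lt.1 hcon)) (not_le.2 hw)
  have h3 : U01 (Ioi u) = ENNReal.ofReal (1 - u) := by
    rw [Measure.restrict_apply measurableSet_Ioi]
    have : Ioi u ∩ Icc 0 1 = Ioc u 1 := by
      ext w
      simp only [mem_inter_iff, mem_Ioi, mem_Icc, mem_Ioc]
      constructor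
      · rintro ⟨a1, a2, a3⟩; exact ⟨a1, a3⟩
      · rintro ⟨a1, a2⟩; exact ⟨a1, by linarith, a2⟩
    rw [this, Real.volume_Ioc]
  rw [h3] at h2
  exact ENNReal.toReal_le_of_le_ofReal (by linarith) h2

theorem quant_int (hm : Monotone Q) (hQ : U01.map Q = ν) {v y : ℝ} (h0 : 0 ≤ v) (h1 : v ≤ 1) (hy : Q v ≤ y) :
    (y - Q v) * ν.real (Ici y) ≤ ∫ w in v..1, (Q w - Q v) := by
  rcases hy.eq_or_lt with rfl | hy'
  · rw [sub_self, zero_mul]
    exact intervalIntegral.integral_nonneg h1 fun w hw => by linarith [hm hw.1]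
  have hS : MeasurableSet (Q ⁻¹' Ici y) := hm.measurable measurableSet_Ici
  have e1 : (y - Q v) * ν.real (Ici y) = ∫ w in v..1, (Q ⁻¹' Ici y).indicator (fun _ => y - Q v) w := by
    rw [intervalIntegral.integral_of_le h1, integral_indicator hS, setIntegral_const, smul_eq_mul, mul_comm]
    congr 1
    rw [measureReal_restrict_apply hS, ← hQ, measureReal_def, measureReal_def, Measure.map_apply hm.measurable measurableSet_Ici,
      Measure.restrict_apply hS]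
    congr 2
    ext w
    simp only [mem_inter_iff, mem_preimage, mem_Ici, mem_Icc, mem_Ioc]
    constructor
    · rintro ⟨a1, a2, a3⟩
      refine ⟨a1, ?_, a3⟩
      by_contra hcon
      exact absurd (hm (not_lt.1 hcon)) (not_le.2 (hy'.trans_le a1))
    · rintro ⟨a1, a2, a3⟩
      exact ⟨a1, by linarith, a3⟩
  rw [e1]
  refine intervalIntegral.integral_mono_on h1 ?_ ?_ ?_
  · rw [intervalIntegrable_iff_integrableOn_Ioc_of_le h1]
    exact ((integrable_const _).indicator hS)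
  · exact (hm.intervalIntegrable).sub intervalIntegrable_const
  · intro w hw
    by_cases hw' : w ∈ Q ⁻¹' Ici y
    · rw [indicator_of_mem hw']
      have : y ≤ Q w := hw'
      linarith
    · rw [indicator_of_notMem hw']
      linarith [hm hw.1]

/-- The condition for the law gives the condition for the quantile function. -/
theorem ncq_of_ncl (hm : Monotone Q) (h01 : ∀ u, Q u ∈ Icc (0 : ℝ) 1) (hQ : U01.map Q = ν) {θ C : ℝ} (hθ : 0 < θ) (hC : 0 ≤ C)
    (h : NCL ν θ C) : NCQ Q (θ / (1 + θ)) ((1 + θ) * C) := by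
  intro u v hu huv hv huv'
  have hθ1 : (0 : ℝ) < 1 + θ := by linarith
  have h1 : 1 - u ≤ (1 + θ) * (1 - v) := by
    have e : θ / (1 + θ) * (1 - u) = (1 - u) - (1 - u) / (1 + θ) := by field_simp; ring
    rw [e] at huv'
    have h2 : (1 - u) / (1 + θ) ≤ 1 - v := by linarith
    rw [div_le_iff₀ hθ1] at h2
    linarith
  have f1 := quant_F1 hm hQ (hu.trans huv) hv.le
  have f2 := quant_F2 hm hQ hu (huv.trans hv.le)
  have hQQ := hm huv
  obtain ⟨y, y1, y2, y3⟩ := h (Q u) (Q v) (h01 u).1 hQQ (h01 v).2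
    (f2.trans (h1.trans (mul_le_mul_of_nonneg_left f1 hθ1.le)))
  have h3 := quant_int hm hQ (hu.trans huv) hv.le y1
  have h4 : 0 ≤ Q v - Q u := by linarith
  have a1 : (1 - u) * (Q v - Q u) ≤ (1 + θ) * ν.real (Ici (Q v)) * (Q v - Q u) :=
    mul_le_mul_of_nonneg_right (h1.trans (mul_le_mul_of_nonneg_left f1 hθ1.le)) h4
  have a2 : C * ((y - Q v) * ν.real (Ici y)) ≤ C * ∫ w in v..1, (Q w - Q v) := mul_le_mul_of_nonneg_left h3 hC
  have a3 := mul_le_mul_of_nonneg_left (y3.trans a2) hθ1.le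
  calc (1 - u) * (Q v - Q u) ≤ (1 + θ) * ((Q v - Q u) * ν.real (Ici (Q v))) := by
        rw [mul_comm (Q v - Q u), ← mul_assoc]; exact a1
    _ ≤ (1 + θ) * (C * ∫ w in v..1, (Q w - Q v)) := a3
    _ = _ := by rw [mul_assoc]

end quant

/-- **POWER LAWS AT THE LUCKY END**: `c₁ s ^ α ≤ ν [1 - s, ∞) ≤ c₂ s ^ α` for `0 ≤ s ≤ ε`. -/
theorem ncl_of_pow (ν : Measure ℝ) [IsProbabilityMeasure ν] {α c₁ c₂ ε : ℝ} (hα : 0 < α) (hc₁ : 0 < c₁) (hε : 0 < ε)
    (hε1 : ε ≤ 1) (h1 : ∀ s, 0 ≤ s → s ≤ ε → c₁ * s ^ α ≤ ν.real (Ici (1 - s)))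
    (h2 : ∀ s, 0 ≤ s → s ≤ ε → ν.real (Ici (1 - s)) ≤ c₂ * s ^ α) : ∃ C, 0 ≤ C ∧ NCL ν 1 C := by
  have hc₂ : 0 < c₂ := by
    have h3 := (h1 ε hε.le le_rfl).trans (h2 ε hε.le le_rfl)
    have h4 : 0 < ε ^ α := Real.rpow_pos_of_pos hε α
    have h5 : c₁ ≤ c₂ := le_of_mul_le_mul_right h3 h4
    linarith
  obtain ⟨R, hR⟩ : ∃ R, R = (2 * c₂ / c₁) ^ (1 / α) := ⟨_, rfl⟩
  have hR0 : 0 < R := by rw [hR]; exact Real.rpow_pos_of_pos (by positivity) _
  have hRα : R ^ α = 2 * c₂ / c₁ := by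
    rw [hR, ← Real.rpow_mul (by positivity), one_div, inv_mul_cancel₀ hα.ne', Real.rpow_one]
  obtain ⟨C1, hC1⟩ : ∃ C1, C1 = 1 / ((ε / 2) * (c₁ * (ε / 2) ^ α)) := ⟨_, rfl⟩
  obtain ⟨C2, hC2⟩ : ∃ C2, C2 = 2 * R / ε * c₂ / ((1 / 2) * (c₁ * (1 / 2) ^ α)) := ⟨_, rfl⟩
  have p1 : 0 < (ε / 2) ^ α := Real.rpow_pos_of_pos (by positivity) α
  have p2 : (0 : ℝ) < (1 / 2) ^ α := Real.rpow_pos_of_pos (by norm_num) α
  have hC1' : 0 < C1 := by rw [hC1]; positivity
  have hC2' : 0 < C2 := by rw [hC2]; positivity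
  refine ⟨max C1 C2, hC1'.le.trans (le_max_left _ _), ?_⟩
  intro q q' hq hqq hq' hν
  obtain ⟨s, hs⟩ : ∃ s, s = 1 - q' := ⟨_, rfl⟩
  obtain ⟨t, ht⟩ : ∃ t, t = 1 - q := ⟨_, rfl⟩
  have e1 : q' = 1 - s := by rw [hs]; ring
  have e2 : q = 1 - t := by rw [ht]; ring
  have hs0 : 0 ≤ s := by linarith
  have hst : s ≤ t := by linarith
  have ht1 : t ≤ 1 := by linarith
  rcases le_or_gt ε s with hεs | hεs
  · refine ⟨1 - ε / 2, by linarith, by linarith, ?_⟩
    have g1 := h1 (ε / 2) (by linarith) (by linarith)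
    have g2 : (q' - q) * ν.real (Ici q') ≤ 1 * 1 :=
      mul_le_mul (by linarith) measureReal_le_one measureReal_nonneg zero_le_one
    have g3 : (ε / 2) * (c₁ * (ε / 2) ^ α) ≤ (1 - ε / 2 - q') * ν.real (Ici (1 - ε / 2)) :=
      mul_le_mul (by linarith) g1 (by positivity) (by linarith)
    have g4 : C1 * ((ε / 2) * (c₁ * (ε / 2) ^ α)) = 1 := by rw [hC1]; field_simp
    have g5 : C1 * ((ε / 2) * (c₁ * (ε / 2) ^ α)) ≤
        max C1 C2 * ((1 - ε / 2 - q') * ν.real (Ici (1 - ε / 2))) :=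
      mul_le_mul (le_max_left _ _) g3 (by positivity) (hC1'.le.trans (le_max_left _ _))
    linarith
  · refine ⟨1 - s / 2, by linarith, by linarith, ?_⟩
    obtain ⟨t', ht'⟩ : ∃ t', t' = min t ε := ⟨_, rfl⟩
    have t1 : t' ≤ t := ht' ▸ min_le_left _ _
    have t2 : t' ≤ ε := ht' ▸ min_le_right _ _
    have t0 : 0 ≤ t' := by rw [ht']; exact le_min (hs0.trans hst) hε.le
    have t3 : t * ε ≤ t' := by
      rw [ht']
      refine le_min ?_ ?_
      · nlinarith
      · nlinarith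
    have g0 : c₁ * (t' / 2) ^ α ≤ 2 * (c₂ * s ^ α) := by
      rcases t0.eq_or_lt with h0 | h0
      · rw [← h0, zero_div, Real.zero_rpow hα.ne', mul_zero]
        have : 0 ≤ s ^ α := Real.rpow_nonneg hs0 α
        positivity
      · have a1 := h1 (t' / 2) (by linarith) (by linarith)
        have a2 : ν.real (Ici (1 - t' / 2)) ≤ ν.real (Ioi q) := measureReal_mono fun w (hw : 1 - t' / 2 ≤ w) => by
          have : q < w := by linarith
          exact this
        have a3 := h2 s hs0 hεs.le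
        rw [← e1] at a3
        linarith
    have g1 : t' / 2 ≤ R * s := by
      rw [← Real.rpow_le_rpow_iff (by positivity) (by positivity) hα, Real.mul_rpow hR0.le hs0, hRα]
      have : c₁ * (t' / 2) ^ α ≤ c₁ * (2 * c₂ / c₁ * s ^ α) := by
        have e : c₁ * (2 * c₂ / c₁ * s ^ α) = 2 * (c₂ * s ^ α) := by field_simp
        rw [e]; exact g0
      exact le_of_mul_le_mul_left this hc₁
    have g2 : t ≤ 2 * R / ε * s := by
      rw [div_mul_eq_mul_div, le_div_iff₀ hε]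
      linarith
    have g3 := h2 s hs0 hεs.le
    rw [← e1] at g3
    have g4 := h1 (s / 2) (by linarith) (by linarith)
    have sα : 0 ≤ s ^ α := Real.rpow_nonneg hs0 α
    have g5 : (q' - q) * ν.real (Ici q') ≤ (2 * R / ε * s) * (c₂ * s ^ α) :=
      mul_le_mul (by linarith) g3 measureReal_nonneg (by positivity)
    have g6 : (s / 2) * (c₁ * (s / 2) ^ α) ≤ (1 - s / 2 - q') * ν.real (Ici (1 - s / 2)) :=
      mul_le_mul (by linarith) g4 (by positivity) (by linarith)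
    have e3 : (s / 2) ^ α = s ^ α * (1 / 2) ^ α := by
      rw [← Real.mul_rpow hs0 (by norm_num)]
      congr 1
      ring
    have g7 : (2 * R / ε * s) * (c₂ * s ^ α) = C2 * ((s / 2) * (c₁ * (s / 2) ^ α)) := by
      rw [e3, hC2]
      field_simp
    have g8 : C2 * ((s / 2) * (c₁ * (s / 2) ^ α)) ≤ max C1 C2 * ((1 - s / 2 - q') * ν.real (Ici (1 - s / 2))) :=
      mul_le_mul (le_max_right _ _) g6 (by positivity) (hC1'.le.trans (le_max_left _ _))
    linarith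

end Pool.Agent.W_1b8d5d_h17p
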