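import Pool.Agent.W_1b8d5d_p.ZDefs
import Mathlib.Probability.CDF

/-!
MP_1b8d5d_pr, Track P, the extension (NC) of the class of laws: the quantile function of an arbitrary law on `[0, 1]`, and laws
with the condition (NC). (helper17)
-/

namespace Pool.Agent.W_1b8d5d_h17p

open MeasureTheory Set Pool.Agent.W_1b8d5d_z

/-- **THE QUANTILE FUNCTION** of an arbitrary law on `[0, 1]`. -/
theorem exists_quant (ν : Measure ℝ) [IsProbabilityMeasure ν] (h0 : ν (Iio 0) = 0) (h1 : ν (Ioi 1) = 0) :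
    ∃ Q : ℝ → ℝ, Monotone Q ∧ (∀ u, Q u ∈ Icc (0 : ℝ) 1) ∧ U01.map Q = ν ∧
      ∀ u x, 0 ≤ x → x ≤ 1 → (Q u ≤ x ↔ min u 1 ≤ ν.real (Iic x)) := by
  classical
  have hH1 : ν.real (Iic 1) = 1 := by
    have h4 : ν.real (Iic 1)ᶜ = 0 := by
      rw [compl_Iic]
      simp [Measure.real, h1]
    have h5 := probReal_compl_eq_one_sub (μ := ν) (measurableSet_Iic (a := (1 : ℝ)))
    linarith
  have hHm : ∀ x y : ℝ, x ≤ y → ν.real (Iic x) ≤ ν.real (Iic y) := fun x y h =>
    measureReal_mono (Iic_subset_Iic.2 h)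
  obtain ⟨Q, hQ⟩ : ∃ Q : ℝ → ℝ, Q = fun u => sInf {x | x ∈ Icc (0 : ℝ) 1 ∧ min u 1 ≤ ν.real (Iic x)} := ⟨_, rfl⟩
  have hne : ∀ u, ({x | x ∈ Icc (0 : ℝ) 1 ∧ min u 1 ≤ ν.real (Iic x)} : Set ℝ).Nonempty := fun u =>
    ⟨1, ⟨zero_le_one, le_rfl⟩, by rw [hH1]; exact min_le_right _ _⟩
  have hbd : ∀ u, BddBelow ({x | x ∈ Icc (0 : ℝ) 1 ∧ min u 1 ≤ ν.real (Iic x)} : Set ℝ) := fun u =>
    ⟨0, fun x hx => hx.1.1⟩
  have hQ0 : ∀ u, Q u ∈ Icc (0 : ℝ) 1 := by
    intro u
    rw [hQ]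
    exact ⟨le_csInf (hne u) fun x hx => hx.1.1, csInf_le (hbd u) ⟨⟨zero_le_one, le_rfl⟩, by
      rw [hH1]; exact min_le_right _ _⟩⟩
  -- right continuity
  have hatt : ∀ u, min u 1 ≤ ν.real (Iic (Q u)) := by
    intro u
    have hc := (ProbabilityTheory.cdf ν).right_continuous (Q u)
    have hc' : Filter.Tendsto (fun x => ν.real (Iic x)) (nhdsWithin (Q u) (Ici (Q u))) (nhds (ν.real (Iic (Q u)))) := by
      have : (fun x => ν.real (Iic x)) = fun x => ProbabilityTheory.cdf ν x := by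
        ext x
        rw [ProbabilityTheory.cdf_eq_real]
      rw [this, ← ProbabilityTheory.cdf_eq_real]
      exact hc
    have hc'' := hc'.mono_left (nhdsWithin_mono _ (Ioi_subset_Ici_self))
    refine ge_of_tendsto hc'' ?_
    filter_upwards [self_mem_nhdsWithin] with x hx
    have hx' : Q u < x := hx
    rw [hQ] at hx'
    obtain ⟨y, hy, hyx⟩ := exists_lt_of_csInf_lt (hne u) hx'
    exact hy.2.trans (hHm y x hyx.le)
  have hchar : ∀ u x, 0 ≤ x → x ≤ 1 → (Q u ≤ x ↔ min u 1 ≤ ν.real (Iic x)) := by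
    intro u x hx0 hx1
    constructor
    · intro h
      exact (hatt u).trans (hHm _ _ h)
    · intro h
      rw [hQ]
      exact csInf_le (hbd u) ⟨⟨hx0, hx1⟩, h⟩
  have hmono : Monotone Q := by
    intro u v huv
    rw [hchar u (Q v) (hQ0 v).1 (hQ0 v).2]
    exact (min_le_min huv le_rfl).trans (hatt v)
  refine ⟨Q, hmono, hQ0, ?_, hchar⟩
  have : IsProbabilityMeasure (U01.map Q) := Measure.isProbabilityMeasure_map hmono.measurable.aemeasurable
  refine Measure.ext_of_Iic _ _ fun x => ?_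
  rw [Measure.map_apply hmono.measurable measurableSet_Iic]
  rcases lt_or_ge x 0 with hx | hx
  · have e1 : Q ⁻¹' Iic x = ∅ := by
      ext u
      simp only [mem_preimage, mem_Iic, mem_empty_iff_false, iff_false, not_le]
      exact hx.trans_le (hQ0 u).1
    rw [e1, measure_empty]
    exact (measure_mono_null (fun y (hy : y ≤ x) => lt_of_le_of_lt hy hx) h0).symm
  rcases le_or_gt 1 x with hx1 | hx1
  · have e1 : Q ⁻¹' Iic x = univ := by
      ext u
      simp only [mem_preimage, mem_Iic, mem_univ, iff_true]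
      exact (hQ0 u).2.trans hx1
    rw [e1, measure_univ]
    have h5 : ν.real (Iic x) = 1 := le_antisymm measureReal_le_one (hH1.ge.trans (hHm 1 x hx1))
    rw [← ENNReal.ofReal_toReal (measure_ne_top ν (Iic x))]
    change 1 = ENNReal.ofReal (ν.real (Iic x))
    rw [h5, ENNReal.ofReal_one]
  · have hp0 : 0 ≤ ν.real (Iic x) := measureReal_nonneg
    have hp1 : ν.real (Iic x) ≤ 1 := measureReal_le_one
    have e1 : Q ⁻¹' Iic x ∩ Icc 0 1 = Icc 0 (ν.real (Iic x)) := by
      ext u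
      simp only [mem_inter_iff, mem_preimage, mem_Iic, mem_Icc]
      rw [hchar u x hx hx1.le]
      constructor
      · rintro ⟨h3, h4, h5⟩
        rw [min_eq_left h5] at h3
        exact ⟨h4, h3⟩
      · rintro ⟨h3, h4⟩
        rw [min_eq_left (h4.trans hp1)]
        exact ⟨h4, h3, h4.trans hp1⟩
    rw [Measure.restrict_apply (hmono.measurable measurableSet_Iic), e1, Real.volume_Icc, sub_zero]
    exact ENNReal.ofReal_toReal (measure_ne_top ν (Iic x))

end Pool.Agent.W_1b8d5d_h17p
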