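import Pool.Agent.W_1b8d5d_h17p.WinP17
import Pool.Agent.W_1b8d5d_h17p.HookE17
import Pool.Agent.W_1b8d5d_p.SlDefs

/-!
MP_1b8d5d_pr, Track P2 (row 653, step (3b)): MEET. A slab walk which uses an edge of the lucky strip `D` behind the fence `P` is
dominated by a walk from the foot of the fence. Deterministic. (helper17)
-/

namespace Pool.Agent.W_1b8d5d_h17p

open MeasureTheory Set Pool.Agent.W_1b8d5d_h85 Pool.Agent.W_1b8d5d_p Pool.Agent.W_1b8d5d_p66
open Pool.Agent.W_1b8d5d_sc (split_first split_last)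

variable {F : Fm} {κ : ℝ} {d : Dr}

theorem wedges_cons17 {x y z : V} (h : grid.Adj x y) (w : grid.Walk y z) :
    wedges (SimpleGraph.Walk.cons h w) = ke s(x, y) :: wedges w := by
  unfold wedges
  rw [SimpleGraph.Walk.edges_cons, List.map_cons]

theorem ends_ke17 {u v : V} (h : grid.Adj u v) :
    (u = (ke s(u, v)).1 ∧ v = (ke s(u, v)).1 + dir (ke s(u, v)).2) ∨
      (v = (ke s(u, v)).1 ∧ u = (ke s(u, v)).1 + dir (ke s(u, v)).2) := by
  obtain ⟨h1, h2⟩ := wedges_support (SimpleGraph.Walk.cons h .nil) (e := ke s(u, v)) (by rw [wedges_cons17]; simp)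
  have hne := add_dir_ne (ke s(u, v)).1 (ke s(u, v)).2
  simp only [SimpleGraph.Walk.support_cons, SimpleGraph.Walk.support_nil, List.mem_cons, List.not_mem_nil, or_false] at h1 h2
  rcases h1 with h1 | h1 <;> rcases h2 with h2 | h2
  · exact absurd (h2.trans h1.symm) hne
  · exact Or.inl ⟨h1.symm, h2.symm⟩
  · exact Or.inr ⟨h1.symm, h2.symm⟩
  · exact absurd (h2.trans h1.symm) hne

/-- The first edge of a walk in a set. -/
theorem first_edge17 (S : Edge → Prop) {x y : V} (w : grid.Walk x y) (h : ∃ e ∈ wedges w, S e) :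
    ∃ (u v : V) (w₁ : grid.Walk x u) (h : grid.Adj u v) (w₂ : grid.Walk v y), w = w₁.append (.cons h w₂) ∧
      (∀ e ∈ wedges w₁, ¬ S e) ∧ S (ke s(u, v)) := by
  classical
  induction w with
  | nil =>
    obtain ⟨e, he, -⟩ := h
    simp [wedges] at he
  | @cons x v y h' w ih =>
    by_cases h1 : S (ke s(x, v))
    · exact ⟨x, v, .nil, h', w, rfl, by simp [wedges], h1⟩
    · have h2 : ∃ e ∈ wedges w, S e := by
        obtain ⟨e, he, hs⟩ := h
        rw [wedges_cons17, List.mem_cons] at he
        rcases he with rfl | he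
        · exact absurd hs h1
        · exact ⟨e, he, hs⟩
      obtain ⟨u', v', w₁, h'', w₂, e1, e2, e3⟩ := ih h2
      refine ⟨u', v', .cons h' w₁, h'', w₂, ?_, ?_, e3⟩
      · rw [SimpleGraph.Walk.cons_append, ← e1]
      · intro e he
        rw [wedges_cons17, List.mem_cons] at he
        rcases he with rfl | he
        · exact h1
        · exact e2 e he

/-- The edges of the slab walk up to the first vertex near the row `H`. -/
theorem upto17 (c : Co) {H n : ℕ} {x v u : V} {w : grid.Walk x u} (h : grid.Adj u v) (he : ∀ e ∈ wedges (w.append (.cons h .nil)), e ∈ c.slab 0 n)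
    (h1 : ∀ z ∈ w.support, c.tm z ≤ c.L * H - c.M) (h2 : c.tm v ≤ c.L * H) :
    ∀ e ∈ wedges (w.append (.cons h .nil)), e ∈ c.slab 0 H := by
  intro e hm
  obtain ⟨a1, a2⟩ := wedges_support _ hm
  obtain ⟨f1, f2, f3, f4⟩ := he e hm
  have hM := c.M_pos
  have hne := add_dir_ne e.1 e.2
  have ht := c.tm_edge e
  have key : ∀ z ∈ (w.append (.cons h .nil)).support, c.tm z ≤ c.L * H - c.M ∨ z = v := by
    intro z hz
    rw [SimpleGraph.Walk.mem_support_append_iff] at hz
    rcases hz with hz | hz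
    · exact Or.inl (h1 z hz)
    · simp only [SimpleGraph.Walk.support_cons, SimpleGraph.Walk.support_nil, List.mem_cons, List.not_mem_nil, or_false] at hz
      rcases hz with rfl | rfl
      · exact Or.inl (h1 _ w.end_mem_support)
      · exact Or.inr rfl
  refine ⟨f1, ?_, ?_, f4⟩
  · rcases key _ a2 with h3 | h3
    · omega
    · rw [h3]; exact h2
  · rcases key _ a1 with h3 | h3
    · omega
    · rcases key _ a2 with h4 | h4
      · omega
      · exact absurd (h4.trans h3.symm) hne

/-- **MEET.** `P` = the fence from `(0, L0)` to `(H, k2)`, off `D`; `D` = the strip, below the row `h1 < H`; every vertex `z` of an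
edge of `D` is on the fence or can be continued to the row `H` on the other side of the fence than `(0, x0)`, and can be reached
from `(0, L0)` at the price `Ca`. A slab walk from `(0, x0)` which uses an edge of `D` meets the fence before, or it returns from
the row `H`. -/
theorem meet17 (hd : Adm F κ d) (η : Env) {n H : ℕ} {h1 : ℤ} (hHn : H ≤ n) (hh : h1 + 1 ≤ H) (h0 : 0 ≤ h1) (D : Finset Edge)
    {x0 L0 k2 : ℤ} (P : grid.Walk (F.co.vt (0, L0)) (F.co.vt ((H : ℤ), k2)))
    (hP : ∀ e ∈ wedges P, e ∈ F.co.slab 0 H ∧ e ∉ D) {Ca Cv Y : ℝ}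
    (hT : ∀ e ∈ D, ∀ z, (z = e.1 ∨ z = e.1 + dir e.2) → F.co.tm z ≤ F.co.L * h1 ∧
      (z ∈ P.support ∨ ∃ (v : V) (Q : grid.Walk z v), (∀ u ∈ Q.support, u ∉ P.support) ∧
        (∀ u ∈ Q.support, 0 ≤ F.co.tm u ∧ (u = v ∨ F.co.tm u ≤ F.co.L * H)) ∧
        F.co.L * H ≤ F.co.tm v ∧ F.co.tm v < F.co.L * H + F.co.M ∧
        ((x0 + m0 F.co ≤ L0 ∧ k2 + m0 F.co ≤ F.co.ps v) ∨ (L0 + m0 F.co ≤ x0 ∧ F.co.ps v + m0 F.co ≤ k2))) ∧
      ∃ G : grid.Walk (F.co.vt (0, L0)) z, (∀ e ∈ wedges G, e ∈ F.co.slab 0 n) ∧ exc F d η G ≤ Ca)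
    (hY : ∀ w' : grid.Walk (F.co.vt (0, x0)) (F.co.vt ((H : ℤ), k2)), (∀ e ∈ wedges w', e ∈ F.co.slab 0 n ∧ e ∉ D) →
      Y ≤ exc F d η w')
    (hV : OffLe F d D H x0 Cv η) {y : ℤ} (w : grid.Walk (F.co.vt (0, x0)) (F.co.vt ((n : ℤ), y)))
    (hw : ∀ e ∈ wedges w, e ∈ F.co.slab 0 n) (hwD : ∃ e ∈ wedges w, e ∈ D) :
    -exc F d η w ≤ VV F d η (0, L0) n +
      max (exc F d η P - Y) (Ca + Cv + 2 * C17 F.co F.b - κ * ((H : ℝ) - h1 - 1)) := by
  classical
  have hM := F.co.M_pos
  have hL := F.co.L_eq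
  have hLp := F.co.L_pos
  have hb := b_pos F
  have hH1 : 1 ≤ H := by omega
  have hn1 : 1 ≤ n := by omega
  have mono : ∀ {i j : ℤ}, i ≤ j → F.co.L * i ≤ F.co.L * j := fun h => mul_le_mul_of_nonneg_left h (by omega)
  have hHL : F.co.L ≤ F.co.L * H := by
    have := mono (i := 1) (j := (H : ℤ)) (by omega)
    rwa [mul_one] at this
  have hHL1 : F.co.L * (H - 1) = F.co.L * H - F.co.L := by ring
  have hh1 : F.co.L * h1 ≤ F.co.L * H - F.co.L := by
    rw [← hHL1]
    exact mono (by omega)
  obtain ⟨u, v, w₁, h, w₂, hww, hw1, huv⟩ := first_edge17 (· ∈ D) w hwD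
  rw [hww] at hw ⊢
  have hwa : ∀ e ∈ wedges w₁, e ∈ F.co.slab 0 n := fun e he => hw e (by rw [wedges_append]; exact List.mem_append_left _ he)
  have hwb : ∀ e ∈ wedges (SimpleGraph.Walk.cons h w₂), e ∈ F.co.slab 0 n := fun e he =>
    hw e (by rw [wedges_append]; exact List.mem_append_right _ he)
  have hend : u = (ke s(u, v)).1 ∨ u = (ke s(u, v)).1 + dir (ke s(u, v)).2 := by
    rcases ends_ke17 h with h3 | h3
    · exact Or.inl h3.1
    · exact Or.inr h3.2
  obtain ⟨hu1, hu2, G, hG, hGa⟩ := hT _ huv u hend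
  have hPn : ∀ e ∈ wedges P, e ∈ F.co.slab 0 n := fun e he => Co.slab_mono le_rfl (by omega) (hP e he).1
  have ht0 : F.co.tm (F.co.vt (0, x0)) = 0 := by rw [Co.tm_vt]; simp
  have hwt : ∀ z ∈ w₁.support, F.co.L * 0 ≤ F.co.tm z ∧ F.co.tm z ≤ F.co.L * n := Co.tm_of_slab hwa
    ⟨by rw [ht0, mul_zero], by rw [ht0]; positivity⟩
  rw [exc_append]
  -- the walk meets the fence
  have meet : (∃ q ∈ w₁.support, q ∈ P.support) → -(exc F d η w₁ + exc F d η (.cons h w₂)) ≤
      VV F d η (0, L0) n + (exc F d η P - Y) := by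
    rintro ⟨q, hq1, hq2⟩
    have e1 : exc F d η w₁ = exc F d η (w₁.takeUntil q hq1) + exc F d η (w₁.dropUntil q hq1) := by
      rw [← exc_append, SimpleGraph.Walk.take_spec]
    have e2 : exc F d η P = exc F d η (P.takeUntil q hq2) + exc F d η (P.dropUntil q hq2) := by
      rw [← exc_append, SimpleGraph.Walk.take_spec]
    have s1 : ∀ e ∈ wedges (w₁.takeUntil q hq1), e ∈ wedges w₁ := fun e he => by
      have : wedges w₁ = wedges (w₁.takeUntil q hq1) ++ wedges (w₁.dropUntil q hq1) := by
        rw [← wedges_append, SimpleGraph.Walk.take_spec]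
      rw [this]; exact List.mem_append_left _ he
    have s2 : ∀ e ∈ wedges (w₁.dropUntil q hq1), e ∈ wedges w₁ := fun e he => by
      have : wedges w₁ = wedges (w₁.takeUntil q hq1) ++ wedges (w₁.dropUntil q hq1) := by
        rw [← wedges_append, SimpleGraph.Walk.take_spec]
      rw [this]; exact List.mem_append_right _ he
    have s3 : ∀ e ∈ wedges (P.takeUntil q hq2), e ∈ wedges P := fun e he => by
      have : wedges P = wedges (P.takeUntil q hq2) ++ wedges (P.dropUntil q hq2) := by
        rw [← wedges_append, SimpleGraph.Walk.take_spec]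
      rw [this]; exact List.mem_append_left _ he
    have s4 : ∀ e ∈ wedges (P.dropUntil q hq2), e ∈ wedges P := fun e he => by
      have : wedges P = wedges (P.takeUntil q hq2) ++ wedges (P.dropUntil q hq2) := by
        rw [← wedges_append, SimpleGraph.Walk.take_spec]
      rw [this]; exact List.mem_append_right _ he
    have a1 := hY ((w₁.takeUntil q hq1).append (P.dropUntil q hq2)) (fun e he => by
      rw [wedges_append, List.mem_append] at he
      rcases he with he | he
      · exact ⟨hwa e (s1 e he), hw1 e (s1 e he)⟩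
      · exact ⟨hPn e (s4 e he), (hP e (s4 e he)).2⟩)
    rw [exc_append] at a1
    have a2 := neg_exc_le_VV hd η hn1 ((P.takeUntil q hq2).append ((w₁.dropUntil q hq1).append (.cons h w₂))) (fun e he => by
      rw [wedges_append, wedges_append, List.mem_append, List.mem_append] at he
      rcases he with he | he | he
      · exact hPn e (s3 e he)
      · exact hwa e (s2 e he)
      · exact hwb e he)
    rw [exc_append, exc_append] at a2
    linarith
  by_cases hcase : ∃ z ∈ w₁.support, F.co.L * H - F.co.M < F.co.tm z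
  · -- deep return
    obtain ⟨u', v', w₃, h', w₄, hw34, g1, g2⟩ := split_first (fun z => F.co.L * H - F.co.M < F.co.tm z) w₁
      (by rw [ht0]; omega) hcase
    have hv' : v' ∈ w₁.support := by
      rw [hw34]
      simp
    have hu' : F.co.tm u' ≤ F.co.L * H - F.co.M := not_lt.1 (g1 u' w₃.end_mem_support)
    have hstep : F.co.tm v' ≤ F.co.tm u' + F.co.M := by
      have e3 : |(F.co.tm (v' - u') : ℝ)| ≤ F.co.M * nm (v' - u') := F.co.abs_tm_le _
      have e4 : nm (v' - u') ≤ 1 := by
        have := nm_le_length (SimpleGraph.Walk.cons h' .nil)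
        simpa using this
      have e5 : (F.co.tm (v' - u') : ℝ) ≤ F.co.M := by
        have hM' : (0 : ℝ) ≤ F.co.M := by exact_mod_cast (by omega : (0 : ℤ) ≤ F.co.M)
        have := le_abs_self (F.co.tm (v' - u') : ℝ)
        nlinarith
      rw [Co.tm_sub] at e5
      have e6 : F.co.tm v' - F.co.tm u' ≤ F.co.M := by exact_mod_cast e5
      omega
    have hv2 : F.co.tm v' ≤ F.co.L * H := by omega
    -- the first part
    have hwg : w₁ = (w₃.append (.cons h' .nil)).append w₄ := by
      rw [hw34, ← SimpleGraph.Walk.append_assoc]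
      rfl
    have hge : ∀ e ∈ wedges (w₃.append (.cons h' .nil)), e ∈ wedges w₁ := fun e he => by
      rw [hwg, wedges_append]; exact List.mem_append_left _ he
    have hg1 := upto17 F.co (H := H) (n := n) h' (fun e he => hwa e (hge e he)) (fun z hz => not_lt.1 (g1 z hz)) hv2
    obtain ⟨p, hp, lp⟩ := conn_near (c := F.co) hb (z := v') (s := (H : ℤ) - 1) (t := (H : ℤ)) (n := (H : ℤ)) (by omega)
      ⟨by omega, le_rfl⟩ ⟨by rw [hHL1]; omega, hv2⟩ (by rw [abs_le]; constructor <;> omega)
    have hpD : ∀ e ∈ wedges p, e ∉ D := by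
      intro e he heD
      have f1 := (hT e heD _ (Or.inr rfl)).1
      have f2 := (hp e he).2.2.2
      rw [hHL1] at f2
      omega
    have a1 := hV (F.co.ps v') ((w₃.append (.cons h' .nil)).append p) (fun e he => by
      rw [wedges_append, List.mem_append] at he
      rcases he with he | he
      · exact ⟨hg1 e he, hw1 e (hge e he)⟩
      · exact ⟨Co.slab_mono (by omega) le_rfl (hp e he), hpD e he⟩)
    rw [exc_append] at a1
    have a2 : exc F d η p ≤ 2 * C17 F.co F.b := by
      have c1 := cost_le (bdp F η) p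
      have c2 := conn_H hd (z := v') (n := (H : ℤ)) (by rw [abs_le]; constructor <;> omega)
      have c3 := neg_abs_le (d.H (F.co.vt ((H : ℤ), F.co.ps v') - v'))
      unfold exc
      linarith
    have a3 := exc_ge hd η w₄ (T := 0) (by push_cast; omega)
    have a4 : (H : ℝ) - h1 - 1 ≤ nm (u - v') := by
      have e3 := F.co.abs_tm_le (u - v')
      rw [Co.tm_sub] at e3
      have e4 : F.co.L * ((H : ℤ) - h1) - F.co.M ≤ F.co.tm v' - F.co.tm u := by
        have : F.co.L * ((H : ℤ) - h1) = F.co.L * H - F.co.L * h1 := by ring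
        omega
      have e5 : F.co.M * ((H : ℤ) - h1 - 1) ≤ F.co.tm v' - F.co.tm u := by
        have e6 : (F.co.M : ℤ) * ((H : ℤ) - h1) ≤ F.co.L * ((H : ℤ) - h1) :=
          mul_le_mul_of_nonneg_right (by omega) (by omega)
        linarith
      have e6 : (F.co.M : ℝ) * ((H : ℝ) - h1 - 1) ≤ F.co.tm v' - F.co.tm u := by exact_mod_cast e5
      have e7 := neg_abs_le ((F.co.tm u - F.co.tm v' : ℤ) : ℝ)
      push_cast at e3 e7
      have e8 : (F.co.M : ℝ) * ((H : ℝ) - h1 - 1) ≤ F.co.M * nm (u - v') := by linarith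
      exact le_of_mul_le_mul_left e8 (by exact_mod_cast (by omega : (0 : ℤ) < F.co.M))
    have a5 := neg_exc_le_VV hd η hn1 (G.append (.cons h w₂)) (fun e he => by
      rw [wedges_append, List.mem_append] at he
      rcases he with he | he
      · exact hG e he
      · exact hwb e he)
    rw [exc_append] at a5
    have a6 : exc F d η w₁ = exc F d η (w₃.append (.cons h' .nil)) + exc F d η w₄ := by
      rw [← exc_append, ← hwg]
    have a7 := mul_le_mul_of_nonneg_left a4 hd.κ0.le
    refine le_trans ?_ (add_le_add_right (le_max_right _ _) _)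
    push_cast at a3
    linarith
  · push Not at hcase
    refine le_trans (meet ?_) (add_le_add_right (le_max_left _ _) _)
    rcases hu2 with hu2 | ⟨v', Q, q1, q2, q3, q4, q5⟩
    · exact ⟨u, w₁.end_mem_support, hu2⟩
    · have hPt : ∀ z ∈ P.support, F.co.L * 0 ≤ F.co.tm z ∧ F.co.tm z ≤ F.co.L * H := Co.tm_of_slab (fun e he => (hP e he).1)
        ⟨by rw [Co.tm_vt], by rw [Co.tm_vt]; simp only [mul_zero]; positivity⟩
      obtain ⟨z, hz1, hz2⟩ := cross_strip (c := F.co) (A := 0) (B := F.co.L * H) (w₁.append Q) P (fun z hz => by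
          rw [SimpleGraph.Walk.mem_support_append_iff] at hz
          rcases hz with hz | hz
          · exact ⟨Or.inr (by have := (hwt z hz).1; rwa [mul_zero] at this), Or.inr (by have := hcase z hz; omega)⟩
          · exact ⟨Or.inr (q2 z hz).1, (q2 z hz).2⟩) (by rw [ht0]; constructor <;> omega) ⟨q3, q4⟩ (fun z hz => by
          have := hPt z hz
          rwa [mul_zero] at this) (by rw [Co.tm_vt]; simp) (by rw [Co.tm_vt]) (by
          rw [Co.ps_vt, Co.ps_vt, Co.ps_vt]
          rcases q5 with q5 | q5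
          · exact Or.inr q5
          · exact Or.inl q5)
      rw [SimpleGraph.Walk.mem_support_append_iff] at hz1
      rcases hz1 with hz1 | hz1
      · exact ⟨z, hz1, hz2⟩
      · exact absurd hz2 (q1 z hz1)

end Pool.Agent.W_1b8d5d_h17p
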