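import Pool.Agent.W_1b8d5d_h17p.HookX17
import Pool.Agent.W_1b8d5d_p.FrPiece

/-!
MP_1b8d5d_pr, Track P, section 6 (inner edge, row 646 section 3): the positions of a slab walk at a time, deterministic.
(helper17)
-/

namespace Pool.Agent.W_1b8d5d_h17p

open MeasureTheory Set Pool.Agent.W_1b8d5d_h85 Pool.Agent.W_1b8d5d_p Pool.Agent.W_1b8d5d_p66
open Pool.Agent.W_1b8d5d_sc (split_first split_last)

variable {F : Fm} {κ : ℝ} {d : Dr} {η : Env}

/-- Lateral distances. -/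
theorem nm_ge_ps (c : Co) (z : V) : c.M * |(c.ps z : ℝ)| - c.R * |(c.tm z : ℝ)| ≤ nm z := by
  have h1 : c.vt (0, c.ps z) = z + -(z - c.vt (0, c.ps z)) := by abel
  have h2 := nm_add_le z (-(z - c.vt (0, c.ps z)))
  rw [← h1, nm_neg, c.nm_lat] at h2
  have h3 := c.nm_le (z - c.vt (0, c.ps z))
  rw [Co.ps_sub, Co.tm_sub, Co.ps_vt, Co.tm_vt] at h3
  simp only [mul_zero, sub_zero, sub_self, Int.cast_zero, abs_zero, add_zero] at h3
  linarith

/-- The connector between a vertex and the next grid point costs at most `C17`. -/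
theorem conn_H (hd : Adm F κ d) {z : V} {n : ℤ} (h : |F.co.tm z - F.co.L * n| ≤ F.co.M) :
    |d.H (F.co.vt (n, F.co.ps z) - z)| ≤ C17 F.co F.b := by
  refine (H_abs_le hd _).trans ?_
  unfold C17
  exact mul_le_mul_of_nonneg_left (by linarith [nm_near (c := F.co) h]) (b_pos F).le

theorem exc_cons17 (d : Dr) (η : Env) {x y z : V} (h : grid.Adj x y) (w : grid.Walk y z) :
    exc F d η (.cons h w) = exc F d η (SimpleGraph.Walk.cons h .nil) + exc F d η w := by
  rw [← exc_append]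
  rfl

/-- A part of a walk with times nearly equal. -/
theorem exc_level (hd : Adm F κ d) (η : Env) {x y : V} (w : grid.Walk x y) (h : F.co.tm y ≤ F.co.tm x + 2 * F.co.M)
    (h' : |F.co.tm y - F.co.tm x| ≤ 2 * F.co.M) :
    κ * (F.co.M * |(F.co.ps y : ℝ) - F.co.ps x|) - 6 * C17 F.co F.b ≤ exc F d η w := by
  have hM := F.co.M_pos
  have hR := F.co.R_pos
  have hb := b_pos F
  have hκ := hd.κ0
  have hκb : κ ≤ F.b := hd.κ_lt.trans F.ab
  have h1 := hd.back' (z := y - x) (t := (2 * F.co.M).toNat) (by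
    rw [Co.tm_sub, Int.toNat_of_nonneg (by omega)]
    omega)
  have h2 : (((2 * F.co.M).toNat : ℕ) : ℝ) = 2 * F.co.M := by
    have : (((2 * F.co.M).toNat : ℕ) : ℤ) = 2 * F.co.M := Int.toNat_of_nonneg (by omega)
    exact_mod_cast this
  rw [h2] at h1
  have h3 := nm_le_cost (bd_tau F η) F.a0.le w
  have h4 := nm_ge_ps F.co (y - x)
  rw [Co.ps_sub, Co.tm_sub] at h4
  have h5 : |((F.co.tm y - F.co.tm x : ℤ) : ℝ)| ≤ 2 * F.co.M := by exact_mod_cast h'
  have hRr : (1 : ℝ) ≤ F.co.R := by exact_mod_cast hR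
  have hMr : (1 : ℝ) ≤ F.co.M := by exact_mod_cast hM
  have h6 := mul_le_mul_of_nonneg_left h5 (by linarith : (0 : ℝ) ≤ F.co.R)
  have h7 : (F.co.M : ℝ) * |((F.co.ps y - F.co.ps x : ℤ) : ℝ)| - F.co.R * (2 * F.co.M) ≤ nm (y - x) := by linarith
  have h8 := mul_le_mul_of_nonneg_left h7 hκ.le
  have h9 : κ * (F.co.R * (2 * F.co.M)) ≤ F.b * (F.co.R * (2 * F.co.M)) :=
    mul_le_mul_of_nonneg_right hκb (by positivity)
  have h10 : F.b * (F.co.M : ℝ) ≤ F.b * (F.co.R * F.co.M) := by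
    refine mul_le_mul_of_nonneg_left ?_ hb.le
    nlinarith
  unfold exc C17 K0
  push_cast at h8
  nlinarith

/-- **POSITIONS (Z), (W).** A slab walk from `A` to `A + (N, z)`, a time `T` inside, a vertex `x` of the walk with a time next
to `L T`. -/
theorem posW (hd : Adm F κ d) (η : Env) {A : Pt} {N : ℕ} {z : ℤ}
    (w : grid.Walk (F.co.vt A) (F.co.vt (A + ((N : ℤ), z)))) (hw : ∀ e ∈ wedges w, e ∈ F.co.slab A.1 (A.1 + N))
    {T : ℤ} (hT : A.1 < T) (hT' : T < A.1 + N) {x : V} (hx : x ∈ w.support) (hxT : |F.co.tm x - F.co.L * T| ≤ F.co.M) :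
    ∃ k k' : ℤ, X F d η A (T - A.1).toNat (k - A.2) + X F d η (T, k') (A.1 + N - T).toNat (A.2 + z - k') +
      κ * (F.co.M * (|(F.co.ps x : ℝ) - k| + |(F.co.ps x : ℝ) - k'|)) ≤ exc F d η w + 16 * C17 F.co F.b := by
  classical
  have hL := F.co.L_eq
  have hM := F.co.M_pos
  have hLp := F.co.L_pos
  have hb := b_pos F
  have mono : ∀ {i j : ℤ}, i + 1 ≤ j → F.co.L * i + F.co.L ≤ F.co.L * j := fun {i j} h => by
    have h1 : F.co.L * (i + 1) ≤ F.co.L * j := mul_le_mul_of_nonneg_left h (by omega)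
    linarith [mul_add F.co.L i 1]
  have g1 := mono (i := A.1) (j := T) (by omega)
  have g2 := mono (i := T) (j := A.1 + N) (by omega)
  have tA : F.co.tm (F.co.vt A) = F.co.L * A.1 := Co.tm_vt _ _
  have tE : F.co.tm (F.co.vt (A + ((N : ℤ), z))) = F.co.L * (A.1 + N) := by rw [Co.tm_vt]; rfl
  have hwt : ∀ z ∈ w.support, F.co.L * A.1 ≤ F.co.tm z ∧ F.co.tm z ≤ F.co.L * (A.1 + N) := Co.tm_of_slab hw
    ⟨tA.ge, by omega⟩
  rw [abs_le] at hxT
  -- the two parts
  obtain ⟨wa, wb, hab⟩ : ∃ (wa : grid.Walk (F.co.vt A) x) (wb : grid.Walk x (F.co.vt (A + ((N : ℤ), z)))),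
      w = wa.append wb := ⟨w.takeUntil x hx, w.dropUntil x hx, (w.take_spec hx).symm⟩
  -- first visit
  obtain ⟨x', u, w₁, hadj, w₂, h1, h1', hu⟩ := split_first (fun v => F.co.L * T - F.co.M ≤ F.co.tm v) wa
    (by omega) ⟨x, wa.end_mem_support, by omega⟩
  have hadj' := Pool.Agent.W_1b8d5d_p66.tm_adj (c := F.co) hadj
  rw [abs_le] at hadj'
  have hx' : ¬ F.co.L * T - F.co.M ≤ F.co.tm x' := h1' x' w₁.end_mem_support
  -- last departure
  obtain ⟨q, u', w₃, hadk, w₄, h2, h2', hq⟩ := split_last (fun v => F.co.L * T + F.co.M < F.co.tm v) wb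
    ⟨x, wb.start_mem_support, by omega⟩ (by omega)
  have hadk' := Pool.Agent.W_1b8d5d_p66.tm_adj (c := F.co) hadk
  rw [abs_le] at hadk'
  have hu' : F.co.L * T + F.co.M < F.co.tm u' := h2' u' w₄.start_mem_support
  -- the outer walks
  obtain ⟨wA, hwA⟩ : ∃ wA : grid.Walk (F.co.vt A) u, wA = w₁.append (.cons hadj .nil) := ⟨_, rfl⟩
  obtain ⟨wE, hwE⟩ : ∃ wE : grid.Walk q (F.co.vt (A + ((N : ℤ), z))), wE = .cons hadk w₄ := ⟨_, rfl⟩
  have ew : w = wA.append (w₂.append (w₃.append wE)) := by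
    rw [hab, h1, h2, hwA, hwE, ← SimpleGraph.Walk.append_assoc, ← SimpleGraph.Walk.append_assoc]
    rfl
  have memA : ∀ e ∈ wedges wA, e ∈ F.co.slab A.1 (A.1 + N) := fun e he => hw e (by
    rw [ew, wedges_append, List.mem_append]; exact Or.inl he)
  have memE : ∀ e ∈ wedges wE, e ∈ F.co.slab A.1 (A.1 + N) := fun e he => hw e (by
    rw [ew, wedges_append, wedges_append, wedges_append, List.mem_append, List.mem_append, List.mem_append]
    exact Or.inr (Or.inr (Or.inr he)))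
  have supA : ∀ v ∈ wA.support, F.co.tm v < F.co.L * T := by
    intro v hv
    rw [hwA, SimpleGraph.Walk.mem_support_append_iff, SimpleGraph.Walk.support_cons, List.mem_cons,
      SimpleGraph.Walk.support_nil, List.mem_singleton] at hv
    rcases hv with hv | rfl | rfl
    · have h3 : ¬ F.co.L * T - F.co.M ≤ F.co.tm v := h1' v hv
      omega
    · omega
    · omega
  have supE : ∀ v ∈ wE.support, F.co.L * T < F.co.tm v := by
    intro v hv
    rw [hwE, SimpleGraph.Walk.support_cons, List.mem_cons] at hv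
    rcases hv with rfl | hv
    · omega
    · have h3 : F.co.L * T + F.co.M < F.co.tm v := h2' v hv
      omega
  have hA := slab_walk memA (Or.inl rfl) (t' := T) (Or.inr supA)
  have hE := slab_walk memE (s' := T) (Or.inr supE) (Or.inl rfl)
  have nu : |F.co.tm u - F.co.L * T| ≤ F.co.M := by rw [abs_le]; constructor <;> omega
  have nq : |F.co.tm q - F.co.L * T| ≤ F.co.M := by rw [abs_le]; constructor <;> omega
  have htA : ∀ v ∈ wA.support, F.co.L * A.1 ≤ F.co.tm v := fun v hv => (hwt v (by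
    rw [ew, SimpleGraph.Walk.mem_support_append_iff]; exact Or.inl hv)).1
  have htq : F.co.tm q ≤ F.co.L * (A.1 + N) := (hwt q (by
    rw [ew, SimpleGraph.Walk.mem_support_append_iff, SimpleGraph.Walk.mem_support_append_iff,
      SimpleGraph.Walk.mem_support_append_iff]
    exact Or.inr (Or.inr (Or.inr wE.start_mem_support)))).2
  refine ⟨F.co.ps u, F.co.ps q, ?_⟩
  -- the first part
  have c1 : X F d η A (T - A.1).toNat (F.co.ps u - A.2) ≤ exc F d η wA + 2 * C17 F.co F.b := by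
    obtain ⟨p, hp, lp⟩ := conn_near (c := F.co) hb (z := u) (s := A.1) (t := T) (n := T) hT
      ⟨hT.le, le_rfl⟩ ⟨htA _ wA.end_mem_support, by omega⟩ nu
    have h3 := TR_le_conn (bd_tau F η) F.a0.le wA hA p hp
    have h4 := TR_slab_eq F.co (F.tau η) (s := A.1) (t := T) (n := (T - A.1).toNat) (by omega) A.2 (F.co.ps u)
    change TR (F.co.slab A.1 T) (F.tau η) (F.co.vt A) _ = TT F.co (F.tau η) A _ _ at h4
    rw [h4] at h3
    have h5 := conn_H hd nu
    have e : F.co.vt (T, F.co.ps u) - F.co.vt A = (u - F.co.vt A) + (F.co.vt (T, F.co.ps u) - u) := by abel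
    have e' : F.co.vt (((T - A.1).toNat : ℤ), F.co.ps u - A.2) = F.co.vt (T, F.co.ps u) - F.co.vt A := by
      rw [← Co.vt_sub]
      congr 1
      ext
      · simp only [Prod.fst_sub]; omega
      · simp
    rw [X_eq, e', e, H_add]
    unfold exc
    rw [abs_le] at h5
    linarith
  have c2 : X F d η (T, F.co.ps q) (A.1 + N - T).toNat (A.2 + z - F.co.ps q) ≤ exc F d η wE + 2 * C17 F.co F.b := by
    obtain ⟨p, hp, lp⟩ := conn_near (c := F.co) hb (z := q) (s := T) (t := A.1 + N) (n := T) hT'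
      ⟨le_rfl, hT'.le⟩ ⟨(supE _ wE.start_mem_support).le, htq⟩ nq
    have h3 := TR_cons_le (S := F.co.slab T (A.1 + N)) (z := F.co.vt (A + ((N : ℤ), z))) (bd_tau F η) F.a0.le p.reverse
      (fun e he => hp e (by rw [wedges_reverse, List.mem_reverse] at he; exact he)) ⟨⟨wE, hE⟩⟩
    have h3' := TR_le (bd_tau F η) F.a0.le wE hE
    rw [SimpleGraph.Walk.length_reverse] at h3
    have h4 := TR_slab_eq F.co (F.tau η) (s := T) (t := A.1 + N) (n := (A.1 + N - T).toNat) (by omega) (F.co.ps q) (A.2 + z)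
    have eE : (A.1 + (N : ℤ), A.2 + z) = A + ((N : ℤ), z) := rfl
    rw [eE] at h4
    rw [h4] at h3
    have h5 := conn_H hd nq
    have e : F.co.vt (A + ((N : ℤ), z)) - F.co.vt (T, F.co.ps q) =
        (F.co.vt (A + ((N : ℤ), z)) - q) - (F.co.vt (T, F.co.ps q) - q) := by abel
    have e' : F.co.vt (((A.1 + N - T).toNat : ℤ), A.2 + z - F.co.ps q) =
        F.co.vt (A + ((N : ℤ), z)) - F.co.vt (T, F.co.ps q) := by
      rw [← Co.vt_sub]
      congr 1
      ext
      · simp only [Prod.fst_sub, Prod.fst_add]; omega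
      · simp
    rw [X_eq, e', e, H_sub]
    unfold exc
    rw [abs_le] at h5
    linarith
  have tu : F.co.L * T - F.co.M ≤ F.co.tm u := hu
  have tq : ¬ F.co.L * T + F.co.M < F.co.tm q := hq
  have c3 := exc_level hd η w₂ (by omega) (by rw [abs_le]; constructor <;> omega)
  have c4 := exc_level hd η w₃ (by omega) (by rw [abs_le]; constructor <;> omega)
  rw [ew, exc_append, exc_append, exc_append]
  rw [abs_sub_comm (F.co.ps q : ℝ)] at c4
  have c5 : κ * (F.co.M * (|(F.co.ps x : ℝ) - F.co.ps u| + |(F.co.ps x : ℝ) - F.co.ps q|)) =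
      κ * (F.co.M * |(F.co.ps x : ℝ) - F.co.ps u|) + κ * (F.co.M * |(F.co.ps x : ℝ) - F.co.ps q|) := by ring
  rw [c5]
  linarith

/-- **WALL FROM THE START.** -/
theorem wall_start (F : Fm) (hd : Adm F κ d) (η : Env) (A : Pt) {T : ℕ} (hT : 1 ≤ T) {k₀ Y k : ℤ}
    (h : (0 ≤ k₀ ∧ Y ≤ k) ∨ (k₀ ≤ 0 ∧ k ≤ Y)) :
    X F d η A T Y - X F d η (A + (0, k₀)) T (Y - k₀) - VV F d η (A + (0, k₀)) T ≤ X F d η A T k := by
  have h0 := neg_X_le_VV hd η (A + (0, k₀)) hT (k - k₀)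
  rcases h with ⟨h1, h2⟩ | ⟨h1, h2⟩
  · have h3 := X_cross F d η A hT h1 h2
    linarith
  · have h3 := X_cross F d η (A + (0, k₀)) hT (k := -k₀) (y := Y - k₀) (y' := k - k₀) (by omega) (by omega)
    have e : A + (0, k₀) + (0, -k₀) = A := by ext <;> simp
    rw [e, show Y - k₀ - -k₀ = Y by ring, show k - k₀ - -k₀ = k by ring] at h3
    linarith

theorem neg_X_le_Vr (hd : Adm F κ d) (η : Env) (a : Pt) {n : ℕ} (hn : 1 ≤ n) (y : ℤ) :
    -X F d η (a - ((n : ℤ), y)) n y ≤ Vr F d η a n := by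
  rw [Vr_eq]
  have h := neg_X_le_VV hd (rf η) (-a) hn y
  rw [X_rf, neg_neg] at h
  exact h

/-- **WALL FROM THE END.** Starting points `(T, Y)`, `(T, k)`, end `(T + r, e)`, reference end `(T + r, e')`. -/
theorem wall_end (hd : Adm F κ d) (η : Env) (T : ℤ) {r : ℕ} (hr : 1 ≤ r) {Y k e e' : ℤ}
    (h : (k ≤ Y ∧ e' ≤ e) ∨ (Y ≤ k ∧ e ≤ e')) :
    X F d η (T, Y) r (e - Y) - X F d η (T, Y) r (e' - Y) - Vr F d η (T + r, e') r ≤ X F d η (T, k) r (e - k) := by
  have h0 := neg_X_le_Vr hd η (T + r, e') hr (e' - k)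
  have e0 : ((T + r, e') : Pt) - ((r : ℤ), e' - k) = (T, k) := by ext <;> simp
  rw [e0] at h0
  rcases h with ⟨h1, h2⟩ | ⟨h1, h2⟩
  · have h3 := X_cross F d η (T, k) hr (k := Y - k) (y := e - k) (y' := e' - k) (by omega) (by omega)
    have e1 : ((T, k) : Pt) + (0, Y - k) = (T, Y) := by ext <;> simp
    rw [e1, show e - k - (Y - k) = e - Y by ring, show e' - k - (Y - k) = e' - Y by ring] at h3
    linarith
  · have h3 := X_cross F d η (T, Y) hr (k := k - Y) (y := e' - Y) (y' := e - Y) (by omega) (by omega)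
    have e1 : ((T, Y) : Pt) + (0, k - Y) = (T, k) := by ext <;> simp
    rw [e1, show e - Y - (k - Y) = e - k by ring, show e' - Y - (k - Y) = e' - k by ring] at h3
    linarith

/-- **THE WINDOW**, right edge: walls at `Y` (from the start) and at `Y'` (from the end). -/
theorem win_right (hd : Adm F κ d) (η : Env) {A : Pt} {N : ℕ} {z : ℤ}
    (w : grid.Walk (F.co.vt A) (F.co.vt (A + ((N : ℤ), z)))) (hw : ∀ e ∈ wedges w, e ∈ F.co.slab A.1 (A.1 + N))
    {T : ℤ} (hT : A.1 < T) (hT' : T < A.1 + N) {x : V} (hx : x ∈ w.support) (hxT : |F.co.tm x - F.co.L * T| ≤ F.co.M)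
    {a l : ℝ} (ha : exc F d η w + 16 * C17 F.co F.b ≤ a)
    (h1 : VV F d η A (T - A.1).toNat ≤ l) (h2 : Vr F d η (A + ((N : ℤ), z)) (A.1 + N - T).toNat ≤ l) {Y Y' : ℤ}
    (h3 : ∀ k, Y ≤ k → a + l < X F d η A (T - A.1).toNat (k - A.2))
    (h4 : ∀ k, k ≤ Y' → a + l < X F d η (T, k) (A.1 + N - T).toNat (A.2 + z - k)) :
    (Y' : ℝ) - (a + 2 * l) / (κ * F.co.M) ≤ F.co.ps x ∧ (F.co.ps x : ℝ) ≤ Y + (a + 2 * l) / (κ * F.co.M) := by
  obtain ⟨k, k', h⟩ := posW hd η w hw hT hT' hx hxT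
  have hκ := hd.κ0
  have hM : (1 : ℝ) ≤ F.co.M := by exact_mod_cast F.co.M_pos
  have g1 := neg_X_le_VV hd η A (n := (T - A.1).toNat) (by omega) (k - A.2)
  have g2 := neg_X_le_Vr hd η (A + ((N : ℤ), z)) (n := (A.1 + N - T).toNat) (by omega) (A.2 + z - k')
  have e0 : A + ((N : ℤ), z) - ((((A.1 + N - T).toNat : ℕ) : ℤ), A.2 + z - k') = (T, k') := by
    ext
    · simp only [Prod.fst_sub, Prod.fst_add]; omega
    · simp
  rw [e0] at g2
  have p0 : 0 ≤ |(F.co.ps x : ℝ) - k| := abs_nonneg _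
  have p0' : 0 ≤ |(F.co.ps x : ℝ) - k'| := abs_nonneg _
  have p1 : 0 ≤ κ * (F.co.M * (|(F.co.ps x : ℝ) - k| + |(F.co.ps x : ℝ) - k'|)) := by positivity
  have k1 : k < Y := by
    by_contra hcon
    push Not at hcon
    have := h3 k hcon
    linarith
  have k2 : Y' < k' := by
    by_contra hcon
    push Not at hcon
    have := h4 k' hcon
    linarith
  have h5 : κ * (F.co.M * (|(F.co.ps x : ℝ) - k| + |(F.co.ps x : ℝ) - k'|)) ≤ a + 2 * l := by linarith
  have h6 : |(F.co.ps x : ℝ) - k| + |(F.co.ps x : ℝ) - k'| ≤ (a + 2 * l) / (κ * F.co.M) := by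
    rw [le_div_iff₀ (by positivity)]
    linarith
  have k1' : (k : ℝ) ≤ Y := by exact_mod_cast k1.le
  have k2' : (Y' : ℝ) ≤ k' := by exact_mod_cast k2.le
  have a1 := le_abs_self ((F.co.ps x : ℝ) - k)
  have a2 := neg_le_abs ((F.co.ps x : ℝ) - k')
  constructor <;> linarith

/-- **THE WINDOW**, left edge. -/
theorem win_left (hd : Adm F κ d) (η : Env) {A : Pt} {N : ℕ} {z : ℤ}
    (w : grid.Walk (F.co.vt A) (F.co.vt (A + ((N : ℤ), z)))) (hw : ∀ e ∈ wedges w, e ∈ F.co.slab A.1 (A.1 + N))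
    {T : ℤ} (hT : A.1 < T) (hT' : T < A.1 + N) {x : V} (hx : x ∈ w.support) (hxT : |F.co.tm x - F.co.L * T| ≤ F.co.M)
    {a l : ℝ} (ha : exc F d η w + 16 * C17 F.co F.b ≤ a)
    (h1 : VV F d η A (T - A.1).toNat ≤ l) (h2 : Vr F d η (A + ((N : ℤ), z)) (A.1 + N - T).toNat ≤ l) {Y Y' : ℤ}
    (h3 : ∀ k, k ≤ Y → a + l < X F d η A (T - A.1).toNat (k - A.2))
    (h4 : ∀ k, Y' ≤ k → a + l < X F d η (T, k) (A.1 + N - T).toNat (A.2 + z - k)) :
    (Y : ℝ) - (a + 2 * l) / (κ * F.co.M) ≤ F.co.ps x ∧ (F.co.ps x : ℝ) ≤ Y' + (a + 2 * l) / (κ * F.co.M) := by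
  obtain ⟨k, k', h⟩ := posW hd η w hw hT hT' hx hxT
  have hκ := hd.κ0
  have hM : (1 : ℝ) ≤ F.co.M := by exact_mod_cast F.co.M_pos
  have g1 := neg_X_le_VV hd η A (n := (T - A.1).toNat) (by omega) (k - A.2)
  have g2 := neg_X_le_Vr hd η (A + ((N : ℤ), z)) (n := (A.1 + N - T).toNat) (by omega) (A.2 + z - k')
  have e0 : A + ((N : ℤ), z) - ((((A.1 + N - T).toNat : ℕ) : ℤ), A.2 + z - k') = (T, k') := by
    ext
    · simp only [Prod.fst_sub, Prod.fst_add]; omega
    · simp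
  rw [e0] at g2
  have p0 : 0 ≤ |(F.co.ps x : ℝ) - k| := abs_nonneg _
  have p0' : 0 ≤ |(F.co.ps x : ℝ) - k'| := abs_nonneg _
  have p1 : 0 ≤ κ * (F.co.M * (|(F.co.ps x : ℝ) - k| + |(F.co.ps x : ℝ) - k'|)) := by positivity
  have k1 : Y < k := by
    by_contra hcon
    push Not at hcon
    have := h3 k hcon
    linarith
  have k2 : k' < Y' := by
    by_contra hcon
    push Not at hcon
    have := h4 k' hcon
    linarith
  have h5 : κ * (F.co.M * (|(F.co.ps x : ℝ) - k| + |(F.co.ps x : ℝ) - k'|)) ≤ a + 2 * l := by linarith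
  have h6 : |(F.co.ps x : ℝ) - k| + |(F.co.ps x : ℝ) - k'| ≤ (a + 2 * l) / (κ * F.co.M) := by
    rw [le_div_iff₀ (by positivity)]
    linarith
  have k1' : (Y : ℝ) ≤ k := by exact_mod_cast k1.le
  have k2' : (k' : ℝ) ≤ Y' := by exact_mod_cast k2.le
  have a1 := neg_le_abs ((F.co.ps x : ℝ) - k)
  have a2 := le_abs_self ((F.co.ps x : ℝ) - k')
  constructor <;> linarith

end Pool.Agent.W_1b8d5d_h17p
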